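import Pool.Agent.Run7.h211.F32.Iface

set_option autoImplicit false

namespace Pool.Agent.Run7.h314.F32B

open Pool.Agent.Run7.h211.F32

theorem dist_step {V : Type*} (S : SimpleGraph V) (x y c : V) (h : S.Adj x y) (hc : S.Reachable y c) :
    S.dist x c ≤ S.dist y c + 1 := by
  obtain ⟨q, hq⟩ := hc.exists_walk_length_eq_dist
  rw [← hq]
  exact S.dist_le (SimpleGraph.Walk.cons h q)

theorem layers {V : Type*} (S : SimpleGraph V) :
    ∃ (l : V → ℕ) (p : V → V) (r : V → V),
      (∀ x, l x = 0 → x = r x) ∧
      (∀ x, l x ≠ 0 → S.Adj x (p x) ∧ l (p x) + 1 = l x) ∧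
      (∀ x y, S.Adj x y → r x = r y) ∧
      (∀ x y, S.Adj x y → l x ≤ l y + 1) := by
  classical
  let r : V → V := fun x => Quot.out (S.connectedComponentMk x)
  have hr : ∀ x, S.Reachable x (r x) := fun x => by
    have h : S.connectedComponentMk (r x) = S.connectedComponentMk x := Quot.out_eq _
    exact (SimpleGraph.ConnectedComponent.exact h).symm
  have hadj : ∀ x y, S.Adj x y → r x = r y := fun x y h => by
    have h2 : S.connectedComponentMk x = S.connectedComponentMk y :=
      SimpleGraph.ConnectedComponent.sound h.reachable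
    simp only [r, h2]
  have key : ∀ x, S.dist x (r x) ≠ 0 → ∃ y, S.Adj x y ∧ S.dist y (r y) + 1 = S.dist x (r x) := by
    intro x hx
    obtain ⟨w, hw⟩ := (hr x).exists_walk_length_eq_dist
    have h1 : ∃ y, ∃ (h : S.Adj x y) (w' : S.Walk y (r x)), w'.length + 1 = S.dist x (r x) := by
      revert hw
      generalize hcc : r x = c at w
      intro hw
      cases w with
      | nil => exact absurd (by rw [hcc]; exact SimpleGraph.dist_self) hx
      | cons h w' => exact ⟨_, h, w', by simpa using hw⟩
    obtain ⟨y, h, w', hw'⟩ := h1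
    refine ⟨y, h, ?_⟩
    have e : r x = r y := hadj x y h
    have h2 : S.dist y (r x) ≤ w'.length := S.dist_le w'
    have h3 : S.dist x (r x) ≤ S.dist y (r x) + 1 := dist_step S x y (r x) h ⟨w'⟩
    rw [← e]
    omega
  choose! p hp using key
  refine ⟨fun x => S.dist x (r x), p, r, ?_, ?_, hadj, ?_⟩
  · intro x hx
    exact ((hr x).dist_eq_zero_iff).1 hx
  · intro x hx
    exact hp x hx
  · intro x y h
    have e : r x = r y := hadj x y h
    show S.dist x (r x) ≤ S.dist y (r y) + 1
    rw [e]
    exact dist_step S x y (r y) h (hr y)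

section
variable {V : Type*} (G : V → V → Prop) (hs : ∀ x y, G x y → G y x) (hi : ∀ x, ¬ G x x)
  (hno : ∀ k : ℕ, 5 ≤ k → Odd k → ¬ ∃ c : Fin k → V, Function.Injective c ∧
    ∀ i : Fin k, G (c i) (c (finRotate k i)))
  (l : V → ℕ) (p r : V → V) (h0 : ∀ x, l x = 0 → x = r x)
  (hp : ∀ x, l x ≠ 0 → G x (p x) ∧ l (p x) + 1 = l x)
  (hrr : ∀ x y, G x y → r x = r y)

include hp in
theorem iter (x : V) : ∀ i, i ≤ l x → l (p^[i] x) + i = l x ∧ (i < l x → G (p^[i] x) (p^[i+1] x)) := by
  intro i
  induction i with
  | zero =>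
    intro _
    refine ⟨by simp, fun h => ?_⟩
    have := (hp x (by omega)).1
    simpa using this
  | succ i ih =>
    intro hi'
    obtain ⟨h1, h2⟩ := ih (by omega)
    have h3 : l (p^[i] x) ≠ 0 := by omega
    have h4 : l (p^[i+1] x) + 1 = l (p^[i] x) := by
      rw [Function.iterate_succ_apply' p i x]; exact (hp _ h3).2
    refine ⟨by omega, fun h => ?_⟩
    have h5 : l (p^[i+1] x) ≠ 0 := by omega
    rw [Function.iterate_succ_apply' p (i+1) x]
    exact (hp _ h5).1

include hp hrr in
theorem iter_r (x : V) : ∀ i, i ≤ l x → r (p^[i] x) = r x := by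
  intro i
  induction i with
  | zero => intro _; simp
  | succ i ih =>
    intro hi'
    rw [← ih (by omega)]
    exact (hrr _ _ ((iter G l p hp x i (by omega)).2 (by omega))).symm

include hs hi hno h0 hp hrr in
theorem par_eq (x y : V) (hxy : G x y) (hl : l x = l y) : p x = p y := by
  classical
  by_contra hne
  have hex : ∃ j, j ≤ l x ∧ p^[j] x = p^[j] y := by
    refine ⟨l x, le_rfl, ?_⟩
    have a1 := (iter G l p hp x (l x) le_rfl).1
    have a2 := (iter G l p hp y (l x) (by omega)).1
    have b1 := h0 (p^[l x] x) (by omega)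
    have b2 := h0 (p^[l x] y) (by omega)
    rw [iter_r G l p r hp hrr x (l x) le_rfl] at b1
    rw [iter_r G l p r hp hrr y (l x) (by omega)] at b2
    rw [b1, b2]
    exact hrr x y hxy
  obtain ⟨hj1, hj2⟩ := Nat.find_spec hex
  have hmin : ∀ i, i < Nat.find hex → p^[i] x ≠ p^[i] y := fun i hlt he =>
    Nat.find_min hex hlt ⟨by omega, he⟩
  generalize Nat.find hex = j at hj1 hj2 hmin
  have hj0 : j ≠ 0 := by
    rintro rfl
    simp at hj2
    rw [hj2] at hxy
    exact hi _ hxy
  have hj3 : j ≠ 1 := by
    rintro rfl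
    exact hne (by simpa using hj2)
  refine hno (2 * j + 1) (by omega) ⟨j, rfl⟩
    ⟨fun i => if (i : ℕ) < j then p^[(i : ℕ)] x else p^[2 * j - (i : ℕ)] y, ?_, ?_⟩
  · intro a b hab
    have ha := a.isLt
    have hb := b.isLt
    dsimp only at hab
    split_ifs at hab with c1 c2 c2
    · have e1 := (iter G l p hp x a (by omega)).1
      have e2 := (iter G l p hp x b (by omega)).1
      rw [hab] at e1
      exact Fin.ext (by omega)
    · exfalso
      have e1 := (iter G l p hp x a (by omega)).1
      have e2 := (iter G l p hp y (2 * j - b) (by omega)).1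
      rw [hab] at e1
      have e3 : 2 * j - (b : ℕ) = a := by omega
      rw [e3] at hab
      exact hmin _ c1 hab
    · exfalso
      have e1 := (iter G l p hp y (2 * j - a) (by omega)).1
      have e2 := (iter G l p hp x b (by omega)).1
      rw [hab] at e1
      have e3 : 2 * j - (a : ℕ) = b := by omega
      rw [e3] at hab
      exact hmin _ c2 hab.symm
    · have e1 := (iter G l p hp y (2 * j - a) (by omega)).1
      have e2 := (iter G l p hp y (2 * j - b) (by omega)).1
      rw [hab] at e1
      exact Fin.ext (by omega)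
  · intro a
    have ha := a.isLt
    have hrot : ((finRotate (2 * j + 1) a : Fin (2 * j + 1)) : ℕ) = if a = Fin.last (2 * j) then 0 else (a : ℕ) + 1 :=
      coe_finRotate a
    dsimp only
    rw [hrot]
    by_cases hlast : a = Fin.last (2 * j)
    · have hv : (a : ℕ) = 2 * j := by rw [hlast]; rfl
      rw [if_pos hlast, if_neg (by omega), if_pos (by omega), hv]
      simp only [Nat.sub_self, Function.iterate_zero, id]
      exact hs _ _ hxy
    · have hv : (a : ℕ) ≠ 2 * j := fun h => hlast (Fin.ext h)
      rw [if_neg hlast]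
      by_cases c1 : (a : ℕ) + 1 < j
      · rw [if_pos (by omega), if_pos c1]
        exact (iter G l p hp x a (by omega)).2 (by omega)
      · by_cases c2 : (a : ℕ) < j
        · rw [if_pos c2, if_neg c1]
          have e : 2 * j - ((a : ℕ) + 1) = j := by omega
          rw [e, ← hj2]
          have e2 : j = (a : ℕ) + 1 := by omega
          have := (iter G l p hp x a (by omega)).2 (by omega)
          rw [← e2] at this
          exact this
        · rw [if_neg c2, if_neg c1]
          have := (iter G l p hp y (2 * j - ((a : ℕ) + 1)) (by omega)).2 (by omega)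
          have e : 2 * j - ((a : ℕ) + 1) + 1 = 2 * j - (a : ℕ) := by omega
          rw [e] at this
          exact hs _ _ this

include hs hi hno h0 hp hrr in
theorem noPath (a b c d : V) (hab : G a b) (hbc : G b c) (hcd : G c d)
    (l1 : l a = l b) (l2 : l b = l c) (l3 : l c = l d)
    (nac : a ≠ c) (nad : a ≠ d) (nbd : b ≠ d) : False := by
  have nab : a ≠ b := fun h => hi _ (h ▸ hab)
  have nbc : b ≠ c := fun h => hi _ (h ▸ hbc)
  have ncd : c ≠ d := fun h => hi _ (h ▸ hcd)
  have p1 := par_eq G hs hi hno l p r h0 hp hrr a b hab l1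
  have p2 := par_eq G hs hi hno l p r h0 hp hrr b c hbc l2
  have p3 := par_eq G hs hi hno l p r h0 hp hrr c d hcd l3
  have la : l a ≠ 0 := by
    intro h
    have e1 := h0 a h
    have e2 := h0 b (by omega)
    rw [hrr a b hab, ← e2] at e1
    exact nab e1
  obtain ⟨q1, q2⟩ := hp a la
  obtain ⟨q3, q4⟩ := hp d (by omega)
  have e : p d = p a := by rw [p1, p2, p3]
  rw [e] at q3 q4
  generalize p a = q at q1 q2 q3 q4
  have nqa : q ≠ a := by rintro rfl; omega
  have nqb : q ≠ b := by rintro rfl; omega
  have nqc : q ≠ c := by rintro rfl; omega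
  have nqd : q ≠ d := by rintro rfl; omega
  refine hno 5 le_rfl ⟨2, rfl⟩ ⟨![q, a, b, c, d], ?_, ?_⟩
  · intro i j hij
    fin_cases i <;> fin_cases j <;> first
      | rfl
      | exact absurd hij nqa
      | exact absurd hij nqb
      | exact absurd hij nqc
      | exact absurd hij nqd
      | exact absurd hij nab
      | exact absurd hij nac
      | exact absurd hij nad
      | exact absurd hij nbc
      | exact absurd hij nbd
      | exact absurd hij ncd
      | exact absurd hij nqa.symm
      | exact absurd hij nqb.symm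
      | exact absurd hij nqc.symm
      | exact absurd hij nqd.symm
      | exact absurd hij nab.symm
      | exact absurd hij nac.symm
      | exact absurd hij nad.symm
      | exact absurd hij nbc.symm
      | exact absurd hij nbd.symm
      | exact absurd hij ncd.symm
  · intro i
    fin_cases i
    · exact hs _ _ q1
    · exact hab
    · exact hbc
    · exact hcd
    · exact q3

end

theorem pieceB : PieceB := by
  classical
  intro n G hs hi hno
  let S : SimpleGraph (Fin n) := { Adj := G, symm := ⟨fun x y h => hs x y h⟩, loopless := ⟨fun x h => hi x h⟩ }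
  obtain ⟨l, p, r, h0, hp, hrr, hl⟩ := layers S
  refine ⟨fun x => decide (l x % 2 = 0), ?_⟩
  have hmono : ∀ x y, G x y → decide (l x % 2 = 0) = decide (l y % 2 = 0) → l x = l y := by
    intro x y hxy he
    have a1 := hl x y hxy
    have a2 := hl y x (hs _ _ hxy)
    have a3 : (l x % 2 = 0) ↔ (l y % 2 = 0) := by simpa using he
    omega
  let I : Fin n → Fin n → Prop := fun x y => G x y ∧ l x = l y
  let N : Fin n → Finset (Fin n) := fun x => Finset.univ.filter (fun y => I x y)
  have hN : ∀ x y, I x y → (N x).card ≤ 2 ∨ (N y).card ≤ 2 := by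
    intro x y hxy
    by_contra hcon
    push Not at hcon
    obtain ⟨c1, c2⟩ := hcon
    have h1 : ((N x).erase y).Nonempty := by
      rw [← Finset.card_pos]
      have := Finset.pred_card_le_card_erase (s := N x) (a := y)
      omega
    obtain ⟨a, ha⟩ := h1
    have h2 : (((N y).erase x).erase a).Nonempty := by
      rw [← Finset.card_pos]
      have t1 := Finset.pred_card_le_card_erase (s := N y) (a := x)
      have t2 := Finset.pred_card_le_card_erase (s := (N y).erase x) (a := a)
      omega
    obtain ⟨d, hd⟩ := h2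
    simp only [Finset.mem_erase, N, Finset.mem_filter, Finset.mem_univ, true_and] at ha hd
    obtain ⟨ha1, ha2, ha3⟩ := ha
    obtain ⟨hd1, hd2, hd3, hd4⟩ := hd
    exact noPath G hs hi hno l p r h0 hp hrr a x y d (hs _ _ ha2) hxy.1 hd3 ha3.symm hxy.2 hd4
      ha1 (fun h => hd1 h.symm) (fun h => hd2 h.symm)
  let T1 : Finset (Fin n × Fin n) := Finset.univ.filter (fun q => I q.1 q.2 ∧ (N q.1).card ≤ 2)
  let T2 : Finset (Fin n × Fin n) := Finset.univ.filter (fun q => I q.1 q.2 ∧ (N q.2).card ≤ 2)
  have hT1 : T1.card ≤ 2 * n := by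
    have h1 := Finset.card_le_mul_card_image (f := Prod.fst) T1 2 (by
      intro a ha
      have hsub : (T1.filter (fun q => q.1 = a)).image Prod.snd ⊆ N a := by
        intro b hb
        simp only [Finset.mem_image, Finset.mem_filter, T1, Finset.mem_univ, true_and] at hb
        obtain ⟨q, ⟨⟨hq1, hq2⟩, hq3⟩, hq4⟩ := hb
        subst hq3 hq4
        simpa [N] using hq1
      have hcard : (T1.filter (fun q => q.1 = a)).card = ((T1.filter (fun q => q.1 = a)).image Prod.snd).card := by
        rw [Finset.card_image_of_injOn]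
        intro q hq q' hq' he
        simp only [Finset.coe_filter, Set.mem_ofPred_eq] at hq hq'
        exact Prod.ext (hq.2.trans hq'.2.symm) he
      rw [hcard]
      refine (Finset.card_le_card hsub).trans ?_
      obtain ⟨q, hq, rfl⟩ := Finset.mem_image.1 ha
      simp only [T1, Finset.mem_filter, Finset.mem_univ, true_and] at hq
      exact hq.2)
    have h2 : (T1.image Prod.fst).card ≤ n := by
      have := Finset.card_le_univ (T1.image Prod.fst)
      simpa using this
    omega
  have hT2 : T2.card ≤ 2 * n := by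
    have h1 := Finset.card_le_mul_card_image (f := Prod.snd) T2 2 (by
      intro a ha
      have hsub : (T2.filter (fun q => q.2 = a)).image Prod.fst ⊆ N a := by
        intro b hb
        simp only [Finset.mem_image, Finset.mem_filter, T2, Finset.mem_univ, true_and] at hb
        obtain ⟨q, ⟨⟨hq1, hq2⟩, hq3⟩, hq4⟩ := hb
        subst hq3 hq4
        simp only [N, Finset.mem_filter, Finset.mem_univ, true_and]
        exact ⟨hs _ _ hq1.1, hq1.2.symm⟩
      have hcard : (T2.filter (fun q => q.2 = a)).card = ((T2.filter (fun q => q.2 = a)).image Prod.fst).card := by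
        rw [Finset.card_image_of_injOn]
        intro q hq q' hq' he
        simp only [Finset.coe_filter, Set.mem_ofPred_eq] at hq hq'
        exact Prod.ext he (hq.2.trans hq'.2.symm)
      rw [hcard]
      refine (Finset.card_le_card hsub).trans ?_
      obtain ⟨q, hq, rfl⟩ := Finset.mem_image.1 ha
      simp only [T2, Finset.mem_filter, Finset.mem_univ, true_and] at hq
      exact hq.2)
    have h2 : (T2.image Prod.snd).card ≤ n := by
      have := Finset.card_le_univ (T2.image Prod.snd)
      simpa using this
    omega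
  have hsub : {q : Fin n × Fin n | G q.1 q.2 ∧ decide (l q.1 % 2 = 0) = decide (l q.2 % 2 = 0)} ⊆
      ((T1 ∪ T2 : Finset (Fin n × Fin n)) : Set (Fin n × Fin n)) := by
    intro q hq
    obtain ⟨hq1, hq2⟩ := hq
    have hI : I q.1 q.2 := ⟨hq1, hmono _ _ hq1 hq2⟩
    simp only [Finset.coe_union, Set.mem_union, Finset.mem_coe, T1, T2, Finset.mem_filter, Finset.mem_univ, true_and]
    rcases hN _ _ hI with h | h
    · exact Or.inl ⟨hI, h⟩
    · exact Or.inr ⟨hI, h⟩
  have h1 := Set.ncard_le_ncard hsub (Finset.finite_toSet _)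
  rw [Set.ncard_coe_finset] at h1
  have h2 := Finset.card_union_le T1 T2
  change Set.ncard {q : Fin n × Fin n | G q.1 q.2 ∧ decide (l q.1 % 2 = 0) = decide (l q.2 % 2 = 0)} ≤ 4 * n
  omega

end Pool.Agent.Run7.h314.F32B
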