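import Pool.Agent.Run7.h314.WG

/-!
# The Witt ring, with a sealed ring structure
-/

set_option autoImplicit false

noncomputable section

namespace Pool.Agent.Run7.h314

open Module Pool.Agent.H109R2.Witt

universe u v

/-- The ring structure of the Witt ring, sealed. -/
@[irreducible] def wc (K : Type u) [Field K] : CommRing (TH132.W.WittRing K) :=
  TH132.W.wittCommRing K

/-- The Witt ring. -/
def W (K : Type u) [Field K] : Type u := TH132.W.WittRing K

instance (K : Type u) [Field K] : CommRing (W K) := wc K

/-- The identification. -/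
def eqv (K : Type u) [Field K] : TH132.W.WittRing K ≃+* W K where
  toFun x := x
  invFun x := x
  left_inv _ := rfl
  right_inv _ := rfl
  map_mul' x y := by unfold W instCommRingW wc; rfl
  map_add' x y := by unfold W instCommRingW wc; rfl

variable {K : Type u} [Field K] {E : Type v} [Field E]

/-- The class `⟨a⟩`, zero for `a = 0`. -/
def cz : K →*₀ W K where
  toFun a := eqv K (TH132.W.cz a)
  map_zero' := by rw [map_zero, map_zero]
  map_one' := by rw [map_one, map_one]
  map_mul' a b := by rw [map_mul, map_mul]

lemma cz_def (a : K) : cz a = eqv K (TH132.W.cz a) := rfl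

lemma cz_neg (a : K) : cz (-a) = - cz a := by
  rw [cz_def, TH132.W.cz_neg, map_neg, cz_def]

lemma cz_sq {b : K} (h : b ≠ 0) : cz b * cz b = 1 := by
  rw [cz_def, ← map_mul, TH132.W.cz_sq h, map_one]

lemma cz_mul_sq (a : K) {b : K} (h : b ≠ 0) : cz (a * b ^ 2) = cz a := by
  rw [cz_def, TH132.W.cz_mul_sq a h, cz_def]

lemma cz_add (a b : K) : cz a + cz b = cz (a + b) + cz (a * b * (a + b)) := by
  simp only [cz_def, ← map_add]
  rw [TH132.W.cz_add]

/-- Functoriality. -/
def mp (φ : K →+* E) : W K →+* W E :=
  ((eqv E : TH132.W.WittRing E →+* W E).comp (TH132.W.map φ)).comp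
    ((eqv K).symm : W K →+* TH132.W.WittRing K)

@[simp] lemma mp_cz (φ : K →+* E) (a : K) : mp φ (cz a) = cz (φ a) := by
  have h : mp φ (cz a) = eqv E (TH132.W.map φ ((eqv K).symm (eqv K (TH132.W.cz a)))) := rfl
  rw [h, RingEquiv.symm_apply_apply, TH132.W.map_cz]
  rfl

lemma W_induction {p : W K → Prop} (x : W K) (h0 : p 0) (h1 : ∀ a, a ≠ 0 → p (cz a))
    (hadd : ∀ x y, p x → p y → p (x + y)) : p x := by
  have h : ∀ y : TH132.W.WittRing K, p (eqv K y) := by
    intro y
    induction y using TH132.W.cz_induction with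
    | h0 => rw [map_zero]; exact h0
    | h1 a ha => exact h1 a ha
    | hadd x y hx hy => rw [map_add]; exact hadd _ _ hx hy
  have := h ((eqv K).symm x)
  rwa [RingEquiv.apply_symm_apply] at this

/-- A diagonal form whose class in the Witt ring is zero is metabolic. -/
theorem MM_of_sum' {s : Multiset K} (hs : (0 : K) ∉ s) (h : (s.map cz).sum = 0) : MM s := by
  apply MM_of_sum hs
  have h1 := congrArg (eqv K).symm h
  rw [map_zero, map_multiset_sum, Multiset.map_map] at h1
  rw [← h1]
  congr 1

end Pool.Agent.Run7.h314
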