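import Pool.Agent.Run7.h314.W0

/-!
# Diagonal forms and their classes: splitting off values, isotropy, anisotropic dimension
-/

set_option autoImplicit false

noncomputable section

namespace Pool.Agent.Run7.h314

open Module Pool.Agent.H109R2.Witt

universe u

variable {K : Type u} [Field K]

/-- The class of a diagonal form. -/
def cl {ι : Type*} [Fintype ι] (w : ι → K) : W K := ∑ i, cz (w i)

/-- `D n x`: the class `x` is represented by a form of dimension `n`. -/
def D (n : ℕ) (x : W K) : Prop := ∃ w : Fin n → K, (∀ i, w i ≠ 0) ∧ cl w = x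

/-- The diagonal form `w` is isotropic. -/
def Iso {ι : Type*} [Fintype ι] (w : ι → K) : Prop := ∃ v : ι → K, v ≠ 0 ∧ ∑ i, w i * v i ^ 2 = 0

lemma cl_equiv {ι κ : Type*} [Fintype ι] [Fintype κ] (e : ι ≃ κ) (w : κ → K) :
    cl (fun i => w (e i)) = cl w := Equiv.sum_comp e (fun j => cz (w j))

lemma D_of {ι : Type*} [Fintype ι] {n : ℕ} (hn : Fintype.card ι = n) (w : ι → K)
    (hw : ∀ i, w i ≠ 0) : D n (cl w) := by
  subst hn
  exact ⟨fun i => w ((Fintype.equivFin ι).symm i), fun i => hw _, cl_equiv _ w⟩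

lemma cl_sum {ι κ : Type*} [Fintype ι] [Fintype κ] (w : ι → K) (u : κ → K) :
    cl (Sum.elim w u) = cl w + cl u := by
  unfold cl
  rw [Fintype.sum_sum_type]
  rfl

lemma cl_neg {ι : Type*} [Fintype ι] (w : ι → K) : cl (fun i => - w i) = - cl w := by
  unfold cl
  rw [← Finset.sum_neg_distrib]
  exact Finset.sum_congr rfl fun i _ => cz_neg _

lemma cl_smul {ι : Type*} [Fintype ι] (a : K) (w : ι → K) : cl (fun i => a * w i) = cz a * cl w := by
  unfold cl
  rw [Finset.mul_sum]
  exact Finset.sum_congr rfl fun i _ => map_mul _ _ _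

lemma D.add {m n : ℕ} {x y : W K} (hx : D m x) (hy : D n y) : D (m + n) (x + y) := by
  obtain ⟨w, hw, rfl⟩ := hx
  obtain ⟨u, hu, rfl⟩ := hy
  rw [← cl_sum]
  exact D_of (by simp) _ (by rintro (i | i) <;> simp [hw, hu])

lemma D.neg {n : ℕ} {x : W K} (hx : D n x) : D n (-x) := by
  obtain ⟨w, hw, rfl⟩ := hx
  rw [← cl_neg]
  exact ⟨_, fun i => neg_ne_zero.mpr (hw i), rfl⟩

lemma D.sub {m n : ℕ} {x y : W K} (hx : D m x) (hy : D n y) : D (m + n) (x - y) := by
  rw [sub_eq_add_neg]; exact hx.add hy.neg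

lemma D.smul {n : ℕ} {x : W K} (hx : D n x) {a : K} (ha : a ≠ 0) : D n (cz a * x) := by
  obtain ⟨w, hw, rfl⟩ := hx
  rw [← cl_smul]
  exact ⟨_, fun i => mul_ne_zero ha (hw i), rfl⟩

lemma D_zero : D 0 (0 : W K) := ⟨Fin.elim0, fun i => i.elim0, by simp [cl]⟩

lemma D_cz {a : K} (ha : a ≠ 0) : D 1 (cz a) := ⟨fun _ => a, fun _ => ha, by simp [cl]⟩

lemma D_one : D 1 (1 : W K) := by
  have := D_cz (K := K) one_ne_zero
  rwa [map_one] at this

/-- Products. -/
lemma D.mul {m n : ℕ} {x y : W K} (hx : D m x) (hy : D n y) : D (m * n) (x * y) := by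
  obtain ⟨w, hw, rfl⟩ := hx
  obtain ⟨u, hu, rfl⟩ := hy
  have h : cl w * cl u = cl (fun p : Fin m × Fin n => w p.1 * u p.2) := by
    unfold cl
    rw [Fintype.sum_mul_sum, Fintype.sum_prod_type]
    exact Finset.sum_congr rfl fun i _ => Finset.sum_congr rfl fun j _ => (map_mul _ _ _).symm
  rw [h]
  exact D_of (by simp) _ fun p => mul_ne_zero (hw _) (hu _)

/-- Adding a hyperbolic plane. -/
lemma D.hyp {n : ℕ} {x : W K} (hx : D n x) : D (n + 2) x := by
  have h := hx.add ((D_cz (K := K) one_ne_zero).add (D_cz (K := K) (neg_ne_zero.mpr one_ne_zero)))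
  rw [cz_neg, add_neg_cancel, add_zero] at h
  exact h

lemma D.hyps {n : ℕ} {x : W K} (hx : D n x) (k : ℕ) : D (n + 2 * k) x := by
  induction k with
  | zero => exact hx
  | succ k ih => exact ih.hyp

/-- Every class is represented by a form. -/
lemma exists_D (x : W K) : ∃ n, D n x := by
  induction x using W_induction with
  | h0 => exact ⟨0, D_zero⟩
  | h1 a ha => exact ⟨1, D_cz ha⟩
  | hadd x y hx hy =>
    obtain ⟨m, hm⟩ := hx
    obtain ⟨n, hn⟩ := hy
    exact ⟨_, hm.add hn⟩

/-- Splitting off a nonzero value. -/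
lemma split_val {n : ℕ} (w : Fin n → K) (hw : ∀ i, w i ≠ 0) (v : Fin n → K) {t : K} (ht : t ≠ 0)
    (h : ∑ i, w i * v i ^ 2 = t) : ∃ m, m + 1 = n ∧ D m (cl w - cz t) := by
  induction n generalizing t with
  | zero => exact absurd (by simpa using h.symm) ht
  | succ n ih =>
    rw [Fin.sum_univ_succ] at h
    have hcl : cl w = cz (w 0) + cl (fun i => w (Fin.succ i)) := by
      unfold cl; rw [Fin.sum_univ_succ]
    have hD' : D n (cl (fun i => w (Fin.succ i))) := ⟨_, fun i => hw _, rfl⟩
    set t' : K := ∑ i : Fin n, w i.succ * v i.succ ^ 2 with ht'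
    by_cases hv0 : v 0 = 0
    · rw [hv0] at h
      have h' : t' = t := by rw [← h]; ring
      obtain ⟨m, hm, hmD⟩ := ih (fun i => w (Fin.succ i)) (fun i => hw _) (fun i => v (Fin.succ i))
        ht (by rw [← h'])
      refine ⟨m + 1, by omega, ?_⟩
      have := hmD.add (D_cz (hw 0))
      convert this using 1
      rw [hcl]; ring
    · by_cases ht0 : t' = 0
      · refine ⟨n, rfl, ?_⟩
        have h1 : cz t = cz (w 0) := by
          rw [← h, ht0, add_zero, cz_mul_sq _ hv0]
        rw [hcl, h1, add_sub_cancel_left]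
        exact hD'
      · obtain ⟨m, hm, hmD⟩ := ih (fun i => w (Fin.succ i)) (fun i => hw _)
          (fun i => v (Fin.succ i)) ht0 rfl
        refine ⟨m + 1, by omega, ?_⟩
        have h1 : cz (w 0) + cz t' = cz t + cz (w 0 * v 0 ^ 2 * t' * t) := by
          have := cz_add (w 0 * v 0 ^ 2) t'
          rwa [h, cz_mul_sq _ hv0] at this
        have h2 : D 1 (cz (w 0 * v 0 ^ 2 * t' * t)) :=
          D_cz (mul_ne_zero (mul_ne_zero (mul_ne_zero (hw 0) (pow_ne_zero _ hv0)) ht0) ht)
        have := hmD.add h2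
        convert this using 1
        rw [hcl]
        linear_combination h1

/-- Splitting off a hyperbolic plane. -/
lemma split_iso {n : ℕ} (w : Fin n → K) (hw : ∀ i, w i ≠ 0) (v : Fin n → K) (hv : v ≠ 0)
    (h : ∑ i, w i * v i ^ 2 = 0) : ∃ m, m + 2 = n ∧ D m (cl w) := by
  induction n with
  | zero => exact absurd (by ext i; exact i.elim0) hv
  | succ n ih =>
    rw [Fin.sum_univ_succ] at h
    have hcl : cl w = cz (w 0) + cl (fun i => w (Fin.succ i)) := by
      unfold cl; rw [Fin.sum_univ_succ]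
    by_cases hv0 : v 0 = 0
    · have hv' : (fun i => v (Fin.succ i)) ≠ 0 := by
        intro h0
        apply hv
        ext i
        refine Fin.cases hv0 (fun j => congrFun h0 j) i
      obtain ⟨m, hm, hmD⟩ := ih (fun i => w (Fin.succ i)) (fun i => hw _)
        (fun i => v (Fin.succ i)) hv' (by rw [hv0] at h; rw [← h]; ring)
      refine ⟨m + 1, by omega, ?_⟩
      have := hmD.add (D_cz (hw 0))
      convert this using 1
      rw [hcl]; ring
    · have ht0 : ∑ i : Fin n, w i.succ * v i.succ ^ 2 ≠ 0 := by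
        intro h0
        rw [h0, add_zero] at h
        exact mul_ne_zero (hw 0) (pow_ne_zero _ hv0) h
      obtain ⟨m, hm, hmD⟩ := split_val (fun i => w (Fin.succ i)) (fun i => hw _)
        (fun i => v (Fin.succ i)) ht0 rfl
      refine ⟨m, by omega, ?_⟩
      have h1 : (∑ i : Fin n, w i.succ * v i.succ ^ 2) = -(w 0 * v 0 ^ 2) := by
        linear_combination h
      have h2 : cz (∑ i : Fin n, w i.succ * v i.succ ^ 2) = - cz (w 0) := by
        rw [h1, cz_neg, cz_mul_sq _ hv0]
      convert hmD using 1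
      rw [hcl, h2]; ring

lemma Iso_equiv {ι κ : Type*} [Fintype ι] [Fintype κ] (e : ι ≃ κ) (w : κ → K)
    (h : Iso (fun i => w (e i))) : Iso w := by
  obtain ⟨v, hv, h⟩ := h
  refine ⟨fun j => v (e.symm j), ?_, ?_⟩
  · intro h0
    apply hv
    ext i
    have := congrFun h0 (e i)
    simpa using this
  · rw [← h, ← Equiv.sum_comp e]
    simp

/-- An isotropic form loses a hyperbolic plane. -/
lemma Iso.D {ι : Type*} [Fintype ι] {w : ι → K} (hw : ∀ i, w i ≠ 0) (h : Iso w) :
    ∃ m, m + 2 = Fintype.card ι ∧ D m (cl w) := by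
  have h1 : Iso (fun i => w ((Fintype.equivFin ι).symm i)) := by
    refine Iso_equiv (Fintype.equivFin ι) _ ?_
    simpa using h
  obtain ⟨v, hv, hv2⟩ := h1
  obtain ⟨m, hm, hmD⟩ := split_iso _ (fun i => hw _) v hv hv2
  refine ⟨m, hm, ?_⟩
  rwa [cl_equiv (Fintype.equivFin ι).symm w] at hmD

/-- A metabolic form of positive dimension is isotropic. -/
lemma Met.iso {ι : Type*} [Fintype ι] [Nonempty ι] {w : ι → K} (h : Met w) : Iso w := by
  obtain ⟨L, hL, hL2⟩ := h
  have h1 : 0 < finrank K L := by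
    have := Fintype.card_pos (α := ι)
    omega
  obtain ⟨v, hv⟩ := (Module.finrank_pos_iff_exists_ne_zero (R := K) (M := L)).1 h1
  refine ⟨v.1, fun h0 => hv (Subtype.ext h0), ?_⟩
  rw [← hL2 v.1 v.2 v.1 v.2]
  exact Finset.sum_congr rfl fun i _ => by ring

lemma zero_notMem_univ {ι : Type*} [Fintype ι] {w : ι → K} (hw : ∀ i, w i ≠ 0) :
    (0 : K) ∉ Finset.univ.val.map w := by
  intro h
  obtain ⟨i, -, hi⟩ := Multiset.mem_map.mp h
  exact hw i hi

/-- A form whose class vanishes is metabolic. -/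
theorem Met_of_cl {ι : Type*} [Fintype ι] {w : ι → K} (hw : ∀ i, w i ≠ 0) (h : cl w = 0) :
    Met w := by
  apply Met_of_MM
  apply MM_of_sum' (zero_notMem_univ hw)
  rw [Multiset.map_map]
  exact h

/-- The class of a metabolic form vanishes. -/
theorem cl_of_Met_aux (n : ℕ) : ∀ w : Fin n → K, (∀ i, w i ≠ 0) → Met w → cl w = 0 := by
  induction n using Nat.strong_induction_on with
  | _ n ih =>
    intro w hw h
    rcases Nat.eq_zero_or_pos n with rfl | hn
    · simp [cl]
    · have : Nonempty (Fin n) := ⟨⟨0, hn⟩⟩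
      obtain ⟨v, hv, hv2⟩ := Met.iso h
      obtain ⟨m, hm, u, hu, hmu⟩ := split_iso w hw v hv hv2
      rw [← hmu]
      apply ih m (by omega) u hu
      have h1 : Met (Sum.elim (fun i => - u i) w) := by
        apply Met_of_cl
        · rintro (i | i)
          · exact neg_ne_zero.mpr (hu i)
          · exact hw i
        · rw [cl_sum, cl_neg, hmu, neg_add_cancel]
      have h2 : Met (fun i => - u i) := h1.cancel (fun i => neg_ne_zero.mpr (hu i)) hw h
      have h3 := Met_neg h2
      simpa using h3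

theorem cl_of_Met {ι : Type*} [Fintype ι] {w : ι → K} (hw : ∀ i, w i ≠ 0) (h : Met w) :
    cl w = 0 := by
  have h1 := h.of_equiv (Fintype.equivFin ι) (w' := fun i => w ((Fintype.equivFin ι).symm i))
    (fun i => by simp)
  have h2 := cl_of_Met_aux _ _ (fun i => hw _) h1
  rwa [cl_equiv (Fintype.equivFin ι).symm w] at h2

/-- Isometric forms have the same class. -/
theorem cl_of_isom {ι κ : Type*} [Fintype ι] [Fintype κ] {w : ι → K} {u : κ → K}
    (hw : ∀ i, w i ≠ 0) (hu : ∀ i, u i ≠ 0)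
    (hc : Fintype.card ι ≤ Fintype.card κ) (f : (κ → K) →ₗ[K] (ι → K))
    (hf : ∀ y z, ∑ i, w i * f y i * f z i = ∑ j, u j * y j * z j) : cl w = cl u := by
  have h := cl_of_Met (by
    rintro (i | i)
    · exact hw i
    · exact neg_ne_zero.mpr (hu i)) (Met_graph hc f hf)
  rw [cl_sum, cl_neg, ← sub_eq_add_neg] at h
  exact sub_eq_zero.mp h

/-- A form which is Witt equivalent to a form of smaller dimension is isotropic. -/
theorem iso_of_D {ι : Type*} [Fintype ι] {w : ι → K} (hw : ∀ i, w i ≠ 0) {m : ℕ}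
    (hm : m < Fintype.card ι) (h : D m (cl w)) : Iso w := by
  obtain ⟨u, hu, hcl⟩ := h
  have h1 : Met (Sum.elim w (fun i => - u i)) := by
    apply Met_of_cl
    · rintro (i | i)
      · exact hw i
      · exact neg_ne_zero.mpr (hu i)
    · rw [cl_sum, cl_neg, hcl, add_neg_cancel]
  obtain ⟨L, hL, hL2⟩ := h1
  let g : ((ι ⊕ Fin m) → K) →ₗ[K] (Fin m → K) := LinearMap.funLeft K K Sum.inr
  let g' := g.domRestrict L
  have hrn := LinearMap.finrank_range_add_finrank_ker g'
  have hr : finrank K (LinearMap.range g') ≤ m := by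
    have := Submodule.finrank_le (LinearMap.range g')
    rwa [Module.finrank_fintype_fun_eq_card, Fintype.card_fin] at this
  rw [Fintype.card_sum, Fintype.card_fin] at hL
  have hk : 0 < finrank K (LinearMap.ker g') := by omega
  obtain ⟨⟨⟨v, hvL⟩, hvk⟩, hv⟩ :=
    (Module.finrank_pos_iff_exists_ne_zero (R := K) (M := LinearMap.ker g')).1 hk
  have hv0 : ∀ j, v (Sum.inr j) = 0 := fun j => congrFun (LinearMap.mem_ker.mp hvk) j
  refine ⟨fun i => v (Sum.inl i), ?_, ?_⟩
  · intro h0
    apply hv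
    apply Subtype.ext
    apply Subtype.ext
    ext j
    rcases j with j | j
    · exact congrFun h0 j
    · exact hv0 j
  · have h2 := hL2 v hvL v hvL
    rw [Fintype.sum_sum_type] at h2
    simp only [Sum.elim_inl, Sum.elim_inr, hv0, mul_zero, Finset.sum_const_zero, add_zero] at h2
    rw [← h2]
    exact Finset.sum_congr rfl fun i _ => by ring

/-- An isotropic form is universal. -/
theorem Iso.universal (h2 : (2 : K) ≠ 0) {ι : Type*} [Fintype ι] {w : ι → K} (hw : ∀ i, w i ≠ 0)
    (h : Iso w) (t : K) : ∃ v : ι → K, ∑ i, w i * v i ^ 2 = t := by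
  classical
  obtain ⟨v, hv, hv2⟩ := h
  obtain ⟨j, hj⟩ := Function.ne_iff.mp hv
  have hj' : v j ≠ 0 := hj
  -- the vector `α v + e_j`
  have key : ∀ α : K, ∑ i, w i * (α * v i + (Pi.single j 1 : ι → K) i) ^ 2
      = 2 * α * w j * v j + w j := by
    intro α
    have h1 : ∀ i, w i * (α * v i + (Pi.single j 1 : ι → K) i) ^ 2
        = α ^ 2 * (w i * v i ^ 2) + (if i = j then 2 * α * w j * v j + w j else 0) := by
      intro i
      by_cases hij : i = j
      · subst hij
        simp only [Pi.single_eq_same, if_true]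
        ring
      · simp only [Pi.single_eq_of_ne hij, if_neg hij]
        ring
    simp only [h1, Finset.sum_add_distrib, ← Finset.mul_sum, hv2]
    simp
  refine ⟨fun i => (t - w j) / (2 * w j * v j) * v i + (Pi.single j 1 : ι → K) i, ?_⟩
  rw [key]
  have := hw j
  field_simp
  ring

/-- A nonzero `t` such that `cl w - ⟨t⟩` is represented in smaller dimension is a value. -/
theorem val_of_D (h2 : (2 : K) ≠ 0) {ι : Type*} [Fintype ι] {w : ι → K} (hw : ∀ i, w i ≠ 0) {t : K}
    (ht : t ≠ 0) {m : ℕ} (hm : m < Fintype.card ι + 1) (h : D m (cl w - cz t)) :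
    ∃ v : ι → K, ∑ i, w i * v i ^ 2 = t := by
  have h1 : Iso (Sum.elim w (fun _ : Fin 1 => -t)) := by
    refine iso_of_D (by
      rintro (i | i)
      · exact hw i
      · exact neg_ne_zero.mpr ht) (m := m) (by simpa using hm) ?_
    rw [cl_sum]
    convert h using 1
    simp [cl, cz_neg, sub_eq_add_neg]
  obtain ⟨v, hv, hv2⟩ := h1
  rw [Fintype.sum_sum_type] at hv2
  simp only [Sum.elim_inl, Sum.elim_inr, Finset.univ_unique, Fin.default_eq_zero, Fin.isValue,
    Finset.sum_singleton] at hv2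
  by_cases hz : v (Sum.inr 0) = 0
  · apply Iso.universal h2 hw
    refine ⟨fun i => v (Sum.inl i), ?_, ?_⟩
    · intro h0
      apply hv
      ext j
      rcases j with j | j
      · exact congrFun h0 j
      · rw [Subsingleton.elim j 0]; exact hz
    · rw [hz] at hv2
      rw [← hv2]; ring
  · refine ⟨fun i => v (Sum.inl i) / v (Sum.inr 0), ?_⟩
    have h3 : ∑ i, w i * (v (Sum.inl i) / v (Sum.inr 0)) ^ 2
        = (∑ i, w i * v (Sum.inl i) ^ 2) / v (Sum.inr 0) ^ 2 := by
      rw [Finset.sum_div]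
      exact Finset.sum_congr rfl fun i _ => by rw [div_pow, mul_div_assoc]
    rw [h3, div_eq_iff (pow_ne_zero _ hz)]
    linear_combination hv2

/-- The anisotropic dimension of a class. -/
def an (x : W K) : ℕ := by
  classical
  exact Nat.find (exists_D x)

lemma an_spec (x : W K) : D (an x) x := by
  classical
  exact Nat.find_spec (exists_D x)

lemma an_le {n : ℕ} {x : W K} (h : D n x) : an x ≤ n := by
  classical
  exact Nat.find_min' (exists_D x) h

/-- An anisotropic representative. -/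
lemma exists_aniso (x : W K) : ∃ w : Fin (an x) → K, (∀ i, w i ≠ 0) ∧ cl w = x ∧ ¬ Iso w := by
  obtain ⟨w, hw, h⟩ := an_spec x
  refine ⟨w, hw, h, fun hI => ?_⟩
  obtain ⟨m, hm, hmD⟩ := hI.D hw
  rw [h] at hmD
  have := an_le hmD
  rw [Fintype.card_fin] at hm
  omega

lemma an_of_aniso {ι : Type*} [Fintype ι] {w : ι → K} (hw : ∀ i, w i ≠ 0) (h : ¬ Iso w) :
    an (cl w) = Fintype.card ι := by
  apply le_antisymm
  · exact an_le (D_of rfl w hw)
  · by_contra hlt
    exact h (iso_of_D hw (not_le.mp hlt) (an_spec _))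

lemma iso_of_an {ι : Type*} [Fintype ι] {w : ι → K} (hw : ∀ i, w i ≠ 0)
    (h : an (cl w) < Fintype.card ι) : Iso w := iso_of_D hw h (an_spec _)

lemma an_add (x y : W K) : an (x + y) ≤ an x + an y := an_le ((an_spec x).add (an_spec y))

lemma an_neg (x : W K) : an (-x) ≤ an x := an_le (an_spec x).neg

lemma an_smul (x : W K) {a : K} (ha : a ≠ 0) : an (cz a * x) ≤ an x :=
  an_le ((an_spec x).smul ha)

lemma an_zero : an (0 : W K) = 0 := Nat.le_zero.mp (an_le D_zero)

end Pool.Agent.Run7.h314
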