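import Pool.Agent.Run7.h314.W9

/-!
# Fields in which `d` or `-d` is always a square, and the final bound
-/

set_option autoImplicit false

noncomputable section

namespace Pool.Agent.Run7.h314

open Module

universe u v

variable {F : Type u} [Field F]

/-- In a field which is not formally real and in which each element or its negative is a square,
a sum of three squares vanishes. -/
lemma three_squares (hNR : NR F) (hsq : ∀ d : F, d ≠ 0 → IsSquare d ∨ IsSquare (-d)) :
    ∃ x y z : F, (x ≠ 0 ∨ y ≠ 0 ∨ z ≠ 0) ∧ x ^ 2 + y ^ 2 + z ^ 2 = 0 := by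
  by_cases h : ∀ x y : F, IsSquare (x ^ 2 + y ^ 2)
  · have hall : ∀ (k : ℕ) (a : Fin k → F), IsSquare (∑ i, a i ^ 2) := by
      intro k
      induction k with
      | zero => intro a; exact ⟨0, by simp⟩
      | succ k ih =>
        intro a
        rw [Fin.sum_univ_succ]
        obtain ⟨r, hr⟩ := ih (fun i => a i.succ)
        rw [hr, ← pow_two]
        exact h _ _
    obtain ⟨k, a, ha⟩ := hNR
    obtain ⟨r, hr⟩ := hall k a
    rw [ha] at hr
    exact ⟨1, r, 0, Or.inl one_ne_zero, by linear_combination -hr⟩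
  · push Not at h
    obtain ⟨x, y, hxy⟩ := h
    have hne : x ^ 2 + y ^ 2 ≠ 0 := by
      intro h0
      exact hxy ⟨0, by rw [h0]; ring⟩
    rcases hsq _ hne with h1 | ⟨z, hz⟩
    · exact absurd h1 hxy
    · refine ⟨x, y, z, ?_, by linear_combination -hz⟩
      by_contra hc
      push Not at hc
      apply hne
      rw [hc.1, hc.2.1]; ring

lemma iso_three (hNR : NR F) (hsq : ∀ d : F, d ≠ 0 → IsSquare d ∨ IsSquare (-d)) {n : ℕ}
    (hn : 3 ≤ n) (w : Fin n → F) (hw : ∀ i, w i ≠ 0) : Iso w := by
  classical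
  -- two entries of opposite sign
  have hopp : ∀ i j : Fin n, i ≠ j → ∀ a b : F, w i = a * a → w j = -(b * b) → Iso w := by
    intro i j hij a b ha hb
    have ha0 : a ≠ 0 := by rintro rfl; exact hw i (by rw [ha]; ring)
    have hb0 : b ≠ 0 := by rintro rfl; exact hw j (by rw [hb]; ring)
    refine ⟨fun l => if l = i then 1 / a else if l = j then 1 / b else 0, ?_, ?_⟩
    · intro h0
      have := congrFun h0 i
      simp only [if_true, Pi.zero_apply] at this
      exact one_div_ne_zero ha0 this
    · rw [Finset.sum_eq_add i j hij]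
      · simp only [if_true, if_neg (Ne.symm hij)]
        rw [ha, hb]
        field_simp
        ring
      · rintro l - ⟨h1, h2⟩
        simp only [if_neg h1, if_neg h2]; ring
      · intro h0; exact absurd (Finset.mem_univ _) h0
      · intro h0; exact absurd (Finset.mem_univ _) h0
  -- the case of equal signs
  have hsame : ∀ i j k : Fin n, i ≠ j → i ≠ k → j ≠ k → ∀ s a b c : F, w i = s * (a * a) →
      w j = s * (b * b) → w k = s * (c * c) → Iso w := by
    intro i j k hij hik hjk s a b c ha hb hc
    have ha0 : a ≠ 0 := by rintro rfl; exact hw i (by rw [ha]; ring)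
    have hb0 : b ≠ 0 := by rintro rfl; exact hw j (by rw [hb]; ring)
    have hc0 : c ≠ 0 := by rintro rfl; exact hw k (by rw [hc]; ring)
    obtain ⟨x, y, z, hxyz, hsum⟩ := three_squares hNR hsq
    refine ⟨fun l => if l = i then x / a else if l = j then y / b else if l = k then z / c else 0,
      ?_, ?_⟩
    · intro h0
      have h1 := congrFun h0 i
      have h2 := congrFun h0 j
      have h3 := congrFun h0 k
      simp only [if_true, Pi.zero_apply, Ne.symm hij, Ne.symm hik, Ne.symm hjk, if_false] at h1 h2 h3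
      rw [div_eq_zero_iff] at h1 h2 h3
      rcases hxyz with h | h | h
      · exact h (h1.resolve_right ha0)
      · exact h (h2.resolve_right hb0)
      · exact h (h3.resolve_right hc0)
    · have hsub : ∑ l, w l * (if l = i then x / a else if l = j then y / b
          else if l = k then z / c else 0) ^ 2
          = ∑ l ∈ ({i, j, k} : Finset (Fin n)), w l * (if l = i then x / a else if l = j then y / b
          else if l = k then z / c else 0) ^ 2 := by
        symm
        apply Finset.sum_subset (Finset.subset_univ _)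
        intro l _ hl
        simp only [Finset.mem_insert, Finset.mem_singleton, not_or] at hl
        rw [if_neg hl.1, if_neg hl.2.1, if_neg hl.2.2]; ring
      rw [hsub, Finset.sum_insert (by simp [hij, hik]), Finset.sum_insert (by simp [hjk]),
        Finset.sum_singleton]
      rw [if_pos rfl, if_neg (Ne.symm hij), if_pos rfl, if_neg (Ne.symm hik), if_neg (Ne.symm hjk),
        if_pos rfl, ha, hb, hc]
      field_simp
      linear_combination s * hsum
  have h01 : (⟨0, by omega⟩ : Fin n) ≠ ⟨1, by omega⟩ := by simp [Fin.ext_iff]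
  have h02 : (⟨0, by omega⟩ : Fin n) ≠ ⟨2, by omega⟩ := by simp [Fin.ext_iff]
  have h12 : (⟨1, by omega⟩ : Fin n) ≠ ⟨2, by omega⟩ := by simp [Fin.ext_iff]
  rcases hsq _ (hw ⟨0, by omega⟩) with ⟨a, ha⟩ | ⟨a, ha⟩ <;>
  rcases hsq _ (hw ⟨1, by omega⟩) with ⟨b, hb⟩ | ⟨b, hb⟩ <;>
  rcases hsq _ (hw ⟨2, by omega⟩) with ⟨c, hc⟩ | ⟨c, hc⟩
  · exact hsame _ _ _ h01 h02 h12 1 a b c (by rw [ha]; ring) (by rw [hb]; ring) (by rw [hc]; ring)
  · exact hopp _ _ h02 a c ha (by rw [← hc]; ring)
  · exact hopp _ _ h01 a b ha (by rw [← hb]; ring)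
  · exact hopp _ _ h01 a b ha (by rw [← hb]; ring)
  · exact hopp _ _ h01.symm b a hb (by rw [← ha]; ring)
  · exact hopp _ _ h01.symm b a hb (by rw [← ha]; ring)
  · exact hopp _ _ h02.symm c a hc (by rw [← ha]; ring)
  · exact hsame _ _ _ h01 h02 h12 (-1) a b c (by rw [← ha]; ring) (by rw [← hb]; ring)
      (by rw [← hc]; ring)

/-- All anisotropic dimensions are at most 42. -/
theorem bound (h2 : (2 : F) ≠ 0) (hA : A1 F) (hNR : NR F) (x : W F) : an x ≤ 42 := by
  by_cases h : ∃ d : F, ¬ IsSquare d ∧ ¬ IsSquare (-d)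
  · obtain ⟨d, hd, hd'⟩ := h
    exact bound_main h2 hA hNR hd hd' x
  · push Not at h
    have hsq : ∀ d : F, d ≠ 0 → IsSquare d ∨ IsSquare (-d) := by
      intro d _
      by_cases hd : IsSquare d
      · exact Or.inl hd
      · exact Or.inr (h d hd)
    by_contra hlt
    obtain ⟨w, hw, _, han⟩ := exists_aniso x
    exact han (iso_three hNR hsq (by omega) w hw)

/-- The torsion index and the `u`-invariant. -/
theorem main8 (h2 : (2 : F) ≠ 0) (hNR : NR F) (hN : TauLt.{u, v} F 8) {n : ℕ} (hn : 42 < n)
    (w : Fin n → F) : ∃ v : Fin n → F, v ≠ 0 ∧ ∑ i, w i * v i ^ 2 = 0 := by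
  classical
  by_cases hw : ∀ i, w i ≠ 0
  · refine iso_of_an hw ?_
    rw [Fintype.card_fin]
    exact lt_of_le_of_lt (bound h2 (A1_of_tau h2 hN) hNR _) hn
  · push Not at hw
    obtain ⟨i, hi⟩ := hw
    refine ⟨Pi.single i 1, ?_, ?_⟩
    · intro h0
      have := congrFun h0 i
      simp at this
    · rw [Finset.sum_eq_single i]
      · rw [hi]; ring
      · intro j _ hj
        rw [Pi.single_eq_of_ne hj]; ring
      · intro h0; exact absurd (Finset.mem_univ _) h0

end Pool.Agent.Run7.h314
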