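import Pool.Agent.Run7.h314.W1

/-!
# Splitting off two orthogonal values of an anisotropic form
-/

set_option autoImplicit false

noncomputable section

namespace Pool.Agent.Run7.h314

open Module

universe u

variable {K : Type u} [Field K]

/-- The bilinear form of the diagonal form `w`. -/
def bil {n : ℕ} (w : Fin n → K) : LinearMap.BilinForm K (Fin n → K) :=
  Matrix.toBilin' (Matrix.diagonal w)

lemma bil_apply {n : ℕ} (w : Fin n → K) (a b : Fin n → K) :
    bil w a b = ∑ i, w i * a i * b i := by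
  simp only [bil, Matrix.toBilin'_apply]
  simp only [Matrix.diagonal_apply, mul_ite, mul_zero, ite_mul, zero_mul,
    Finset.sum_ite_eq, Finset.mem_univ, if_true]
  exact Finset.sum_congr rfl fun i _ => by ring

lemma bil_self {n : ℕ} (w : Fin n → K) (a : Fin n → K) :
    bil w a a = ∑ i, w i * a i ^ 2 := by
  rw [bil_apply]
  exact Finset.sum_congr rfl fun i _ => by ring

lemma bil_symm {n : ℕ} (w : Fin n → K) : (bil w).IsSymm := by
  refine ⟨fun a b => ?_⟩
  simp only [bil_apply]
  exact Finset.sum_congr rfl fun i _ => by ring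

lemma bil_comm {n : ℕ} (w : Fin n → K) (a b : Fin n → K) : bil w a b = bil w b a := by
  simp only [bil_apply]
  exact Finset.sum_congr rfl fun i _ => by ring

lemma bil_nondeg {n : ℕ} (w : Fin n → K) (hw : ∀ i, w i ≠ 0) : (bil w).Nondegenerate := by
  apply LinearMap.BilinForm.nondegenerate_toBilin'_of_det_ne_zero'
  rw [Matrix.det_diagonal]
  rw [Finset.prod_ne_zero_iff]
  exact fun i _ => hw i

theorem pair_split (h2 : (2 : K) ≠ 0) {n : ℕ} (w : Fin n → K) (hw : ∀ i, w i ≠ 0) (han : ¬ Iso w)
    (e1 e2 : Fin n → K) (he1 : e1 ≠ 0) (he2 : e2 ≠ 0) (ho : ∑ i, w i * e1 i * e2 i = 0) :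
    ∃ m, m + 2 = n ∧ D m (cl w - cz (∑ i, w i * e1 i ^ 2) - cz (∑ i, w i * e2 i ^ 2)) := by
  have hani : ∀ x : Fin n → K, x ≠ 0 → bil w x x ≠ 0 := by
    intro x hx h0
    exact han ⟨x, hx, by rw [← bil_self]; exact h0⟩
  have ho' : bil w e1 e2 = 0 := by rw [bil_apply]; exact ho
  have ho'' : bil w e2 e1 = 0 := by rw [bil_comm]; exact ho'
  have hli : LinearIndependent K ![e1, e2] := by
    rw [LinearIndependent.pair_iff]
    intro s t hst
    have h1 : bil w (s • e1 + t • e2) e1 = 0 := by rw [hst]; simp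
    have h3 : bil w (s • e1 + t • e2) e2 = 0 := by rw [hst]; simp
    rw [map_add, map_smul, map_smul, LinearMap.add_apply, LinearMap.smul_apply,
      LinearMap.smul_apply, ho'', smul_zero, add_zero, smul_eq_mul] at h1
    rw [map_add, map_smul, map_smul, LinearMap.add_apply, LinearMap.smul_apply,
      LinearMap.smul_apply, ho', smul_zero, zero_add, smul_eq_mul] at h3
    exact ⟨(mul_eq_zero.mp h1).resolve_right (hani _ he1),
      (mul_eq_zero.mp h3).resolve_right (hani _ he2)⟩
  have hfr : finrank K (Submodule.span K (Set.range ![e1, e2])) = 2 := by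
    rw [finrank_span_eq_card hli, Fintype.card_fin]
  set S : Submodule K (Fin n → K) := (bil w).orthogonal (Submodule.span K (Set.range ![e1, e2]))
    with hS
  have hfS : finrank K S + 2 = n := by
    have h1 := LinearMap.BilinForm.finrank_orthogonal (bil_nondeg w hw)
      (Submodule.span K (Set.range ![e1, e2]))
    rw [hfr, Module.finrank_fintype_fun_eq_card, Fintype.card_fin] at h1
    have h3 : finrank K (Submodule.span K (Set.range ![e1, e2])) ≤ n := by
      have := Submodule.finrank_le (Submodule.span K (Set.range ![e1, e2]))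
      rwa [Module.finrank_fintype_fun_eq_card, Fintype.card_fin] at this
    rw [hfr] at h3
    rw [hS, h1]
    omega
  have hSmem : ∀ x ∈ S, bil w e1 x = 0 ∧ bil w e2 x = 0 := by
    intro x hx
    rw [hS, LinearMap.BilinForm.mem_orthogonal_iff] at hx
    exact ⟨hx e1 (Submodule.subset_span ⟨0, rfl⟩), hx e2 (Submodule.subset_span ⟨1, rfl⟩)⟩
  let B' : LinearMap.BilinForm K S := (bil w).restrict S
  have hB's : LinearMap.IsSymm B' := ⟨fun a b => bil_comm w a.1 b.1⟩
  have : Invertible (2 : K) := invertibleOfNonzero h2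
  obtain ⟨v, hv⟩ := LinearMap.BilinForm.exists_orthogonal_basis hB's
  have hv' : ∀ i j, i ≠ j → bil w (v i).1 (v j).1 = 0 := fun i j hij => hv hij
  have hvne : ∀ i, (v i).1 ≠ 0 := fun i h0 => v.ne_zero i (Subtype.ext h0)
  refine ⟨finrank K S, hfS, ?_⟩
  let u : Fin 2 ⊕ Fin (finrank K S) → K :=
    Sum.elim ![bil w e1 e1, bil w e2 e2] (fun j => bil w (v j).1 (v j).1)
  let f : (Fin 2 ⊕ Fin (finrank K S) → K) →ₗ[K] (Fin n → K) :=
    { toFun := fun y => y (Sum.inl 0) • e1 + y (Sum.inl 1) • e2 + ∑ j, y (Sum.inr j) • (v j).1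
      map_add' := by
        intro y z
        simp only [Pi.add_apply, add_smul, Finset.sum_add_distrib]
        abel
      map_smul' := by
        intro a y
        simp only [Pi.smul_apply, smul_eq_mul, mul_smul, smul_add, Finset.smul_sum,
          RingHom.id_apply] }
  have hf : ∀ y z, ∑ i, w i * f y i * f z i = ∑ j, u j * y j * z j := by
    intro y z
    rw [← bil_apply]
    have hfy : f y = y (Sum.inl 0) • e1 + y (Sum.inl 1) • e2 + ∑ j, y (Sum.inr j) • (v j).1 := rfl
    have hfz : f z = z (Sum.inl 0) • e1 + z (Sum.inl 1) • e2 + ∑ j, z (Sum.inr j) • (v j).1 := rfl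
    have k1 : ∀ j, bil w e1 (v j).1 = 0 := fun j => (hSmem _ (v j).2).1
    have k2 : ∀ j, bil w e2 (v j).1 = 0 := fun j => (hSmem _ (v j).2).2
    have k1' : ∀ j, bil w (v j).1 e1 = 0 := fun j => by rw [bil_comm]; exact k1 j
    have k2' : ∀ j, bil w (v j).1 e2 = 0 := fun j => by rw [bil_comm]; exact k2 j
    have k3 : ∀ j, ∑ l, y (Sum.inr l) * bil w (v l).1 (v j).1
        = y (Sum.inr j) * bil w (v j).1 (v j).1 := by
      intro j
      rw [Finset.sum_eq_single j]
      · intro l _ hl
        rw [hv' l j hl, mul_zero]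
      · intro h; exact absurd (Finset.mem_univ j) h
    rw [hfy, hfz]
    simp only [map_add, map_smul, map_sum, LinearMap.add_apply, LinearMap.smul_apply,
      LinearMap.sum_apply, smul_eq_mul, ho', ho'', k1, k2, k1', k2', mul_zero, add_zero, zero_add,
      Finset.sum_const_zero]
    rw [Fintype.sum_sum_type, Fin.sum_univ_two]
    simp only [u, Sum.elim_inl, Sum.elim_inr, Matrix.cons_val_zero, Matrix.cons_val_one]
    have k4 : ∀ x, z (Sum.inr x) * ∑ x_1, y (Sum.inr x_1) * bil w (v x_1).1 (v x).1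
        = bil w (v x).1 (v x).1 * y (Sum.inr x) * z (Sum.inr x) := by
      intro x
      rw [k3 x]; ring
    rw [Finset.sum_congr rfl fun x _ => k4 x]
    ring
  have hu : ∀ i, u i ≠ 0 := by
    rintro (i | i)
    · fin_cases i
      · exact hani _ he1
      · exact hani _ he2
    · exact hani _ (hvne i)
  have hcl := cl_of_isom hw hu (by
    rw [Fintype.card_sum, Fintype.card_fin, Fintype.card_fin, Fintype.card_fin]; omega) f hf
  have hcl2 : cl w - cz (∑ i, w i * e1 i ^ 2) - cz (∑ i, w i * e2 i ^ 2)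
      = cl (fun j => bil w (v j).1 (v j).1) := by
    rw [hcl, ← bil_self, ← bil_self, cl_sum]
    simp only [cl, Fin.sum_univ_two, Matrix.cons_val_zero, Matrix.cons_val_one]
    ring
  rw [hcl2]
  exact ⟨_, fun j => hani _ (hvne j), rfl⟩

end Pool.Agent.Run7.h314
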