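import Pool.Agent.Run7.h314.W2

/-!
# Pfister forms: roundness, pure subform theorem
-/

set_option autoImplicit false

noncomputable section

namespace Pool.Agent.Run7.h314

open Module

universe u

variable {K : Type u} [Field K]

/-- All entries are nonzero. -/
def NZ (s : List K) : Prop := ∀ a ∈ s, a ≠ 0

lemma NZ_nil : NZ ([] : List K) := by simp [NZ]

lemma NZ_cons {a : K} {s : List K} : NZ (a :: s) ↔ a ≠ 0 ∧ NZ s := by simp [NZ]

lemma NZ_append {s t : List K} : NZ (s ++ t) ↔ NZ s ∧ NZ t := by
  simp only [NZ, List.mem_append]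
  exact ⟨fun h => ⟨fun a ha => h a (Or.inl ha), fun a ha => h a (Or.inr ha)⟩,
    fun h a ha => ha.elim (h.1 a) (h.2 a)⟩

lemma NZ_map {a : K} (ha : a ≠ 0) {s : List K} (hs : NZ s) : NZ (s.map (fun x => a * x)) := by
  intro y hy
  obtain ⟨x, hx, rfl⟩ := List.mem_map.mp hy
  exact mul_ne_zero ha (hs x hx)

/-- The values of the diagonal form with the entries in the list. -/
def LV : List K → K → Prop
  | [], y => y = 0
  | a :: s, y => ∃ x y', LV s y' ∧ y = a * x ^ 2 + y'

lemma LV_append {s t : List K} {y : K} : LV (s ++ t) y ↔ ∃ y1 y2, LV s y1 ∧ LV t y2 ∧ y = y1 + y2 := by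
  induction s generalizing y with
  | nil =>
    constructor
    · intro h; exact ⟨0, y, rfl, h, by ring⟩
    · rintro ⟨y1, y2, rfl, h2, rfl⟩; simpa using h2
  | cons a s ih =>
    constructor
    · rintro ⟨x, y', h, rfl⟩
      obtain ⟨y1, y2, h1, h2, rfl⟩ := ih.1 h
      exact ⟨a * x ^ 2 + y1, y2, ⟨x, y1, h1, rfl⟩, h2, by ring⟩
    · rintro ⟨y1, y2, ⟨x, y', h, rfl⟩, h2, rfl⟩
      exact ⟨x, y' + y2, ih.2 ⟨y', y2, h, h2, rfl⟩, by ring⟩

lemma LV_map {s : List K} {a y : K} : LV (s.map (fun x => a * x)) y ↔ ∃ y', LV s y' ∧ y = a * y' := by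
  induction s generalizing y with
  | nil =>
    constructor
    · intro h
      have h' : y = 0 := h
      exact ⟨0, rfl, by rw [h']; ring⟩
    · rintro ⟨y', rfl, rfl⟩; change a * 0 = 0; ring
  | cons b s ih =>
    constructor
    · rintro ⟨x, y', h, rfl⟩
      obtain ⟨y1, h1, rfl⟩ := ih.1 h
      exact ⟨b * x ^ 2 + y1, ⟨x, y1, h1, rfl⟩, by ring⟩
    · rintro ⟨y', ⟨x, y1, h1, rfl⟩, rfl⟩
      exact ⟨x, a * y1, ih.2 ⟨y1, h1, rfl⟩, by ring⟩

lemma LV_sum (s : List K) (v : Fin s.length → K) : LV s (∑ i, s.get i * v i ^ 2) := by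
  induction s with
  | nil => simp [LV]
  | cons a s ih =>
    refine ⟨v 0, _, ih (fun i => v i.succ), ?_⟩
    exact Fin.sum_univ_succ _

/-- The class of a list form. -/
def lcl (s : List K) : W K := (s.map cz).sum

lemma lcl_append (s t : List K) : lcl (s ++ t) = lcl s + lcl t := by simp [lcl]

lemma lcl_map (a : K) (s : List K) : lcl (s.map (fun x => a * x)) = cz a * lcl s := by
  unfold lcl
  rw [List.map_map, ← List.sum_map_mul_left]
  congr 1
  exact List.map_congr_left fun x _ => map_mul _ _ _

lemma cl_get (s : List K) : cl (fun i : Fin s.length => s.get i) = lcl s := by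
  unfold cl lcl
  induction s with
  | nil => simp
  | cons a s ih =>
    rw [List.map_cons, List.sum_cons, ← ih]
    exact Fin.sum_univ_succ _

lemma get_ne {s : List K} (hs : NZ s) (i : Fin s.length) : s.get i ≠ 0 := hs _ (List.get_mem s i)

/-- The Pfister form `⊗ ⟨1, -a⟩` as a class. -/
def P (l : List K) : W K := (l.map (fun a => 1 - cz a)).prod

lemma P_nil : P ([] : List K) = 1 := by simp [P]

lemma P_cons (a : K) (l : List K) : P (a :: l) = (1 - cz a) * P l := by simp [P]

lemma P_append (l r : List K) : P (l ++ r) = P l * P r := by simp [P]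

/-- The diagonal entries of the Pfister form. -/
def fd : List K → List K
  | [] => [1]
  | a :: l => fd l ++ (fd l).map (fun x => -a * x)

/-- The diagonal entries of the product of the Pfister form of `r` with the pure part of the
Pfister form of `l`. -/
def rd (r : List K) : List K → List K
  | [] => []
  | a :: l => rd r l ++ (fd (l ++ r)).map (fun x => -a * x)

lemma fd_NZ {l : List K} (hl : NZ l) : NZ (fd l) := by
  induction l with
  | nil => simp [fd, NZ]
  | cons a l ih =>
    rw [NZ_cons] at hl
    exact NZ_append.2 ⟨ih hl.2, NZ_map (neg_ne_zero.mpr hl.1) (ih hl.2)⟩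

lemma rd_NZ {r l : List K} (hr : NZ r) (hl : NZ l) : NZ (rd r l) := by
  induction l with
  | nil => exact NZ_nil
  | cons a l ih =>
    rw [NZ_cons] at hl
    exact NZ_append.2 ⟨ih hl.2, NZ_map (neg_ne_zero.mpr hl.1) (fd_NZ (NZ_append.2 ⟨hl.2, hr⟩))⟩

lemma fd_length (l : List K) : (fd l).length = 2 ^ l.length := by
  induction l with
  | nil => rfl
  | cons a l ih =>
    rw [fd, List.length_append, List.length_map, ih, List.length_cons, pow_succ]; ring

lemma rd_length (r l : List K) : (rd r l).length + 2 ^ r.length = 2 ^ (l.length + r.length) := by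
  induction l with
  | nil => simp [rd]
  | cons a l ih =>
    rw [rd, List.length_append, List.length_map, fd_length, List.length_append, List.length_cons]
    have : 2 ^ (l.length + 1 + r.length) = 2 ^ (l.length + r.length) + 2 ^ (l.length + r.length) := by
      rw [← two_mul, ← pow_succ']; ring_nf
    omega

lemma lcl_fd (l : List K) : lcl (fd l) = P l := by
  induction l with
  | nil => simp [fd, lcl, P]
  | cons a l ih =>
    rw [fd, lcl_append, lcl_map, ih, P_cons, cz_neg]; ring

lemma lcl_rd (r l : List K) : lcl (rd r l) = P r * (P l - 1) := by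
  induction l with
  | nil => simp [rd, lcl, P]
  | cons a l ih =>
    rw [rd, lcl_append, lcl_map, ih, lcl_fd, P_append, P_cons, cz_neg]; ring

/-- Roundness of Pfister forms. -/
theorem round {l : List K} {t : K} (h : LV (fd l) t) (ht : t ≠ 0) : cz t * P l = P l := by
  induction l generalizing t with
  | nil =>
    obtain ⟨x, y', hy', rfl⟩ := h
    have hy : y' = 0 := hy'
    subst hy
    have hx : x ≠ 0 := by
      intro hx; apply ht; rw [hx]; ring
    have h1 := cz_mul_sq (1 : K) hx
    rw [add_zero, h1, map_one, one_mul]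
  | cons a l ih =>
    rw [fd, LV_append] at h
    obtain ⟨t1, t2', h1, h2, rfl⟩ := h
    rw [LV_map] at h2
    obtain ⟨t2, h2, rfl⟩ := h2
    rw [P_cons]
    by_cases h10 : t1 = 0
    · subst h10
      have ht2 : t2 ≠ 0 := by
        rintro rfl; apply ht; ring
      have ha : a ≠ 0 := by
        rintro rfl; apply ht; ring
      have e2 := ih h2 ht2
      have e3 : cz (0 + -a * t2) = - (cz a * cz t2) := by
        rw [zero_add, neg_mul, cz_neg, map_mul]
      rw [e3]
      have e4 : cz a * cz a = 1 := cz_sq ha
      linear_combination ((-cz a + cz a * cz a)) * e2 + (P l) * e4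
    · have e1 := ih h1 h10
      by_cases h20 : t2 = 0
      · subst h20
        rw [mul_zero, add_zero]
        linear_combination (1 - cz a) * e1
      · have e2 := ih h2 h20
        by_cases ha : a = 0
        · subst ha
          rw [neg_zero, zero_mul, add_zero, map_zero]
          linear_combination e1
        have e3 := cz_add t1 (-a * t2)
        have e4 : cz (-a * t2) = - (cz a * cz t2) := by
          rw [neg_mul, cz_neg, map_mul]
        have e5 : cz (t1 * (-a * t2) * (t1 + -a * t2))
            = - (cz t1 * cz a * cz t2 * cz (t1 + -a * t2)) := by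
          have : t1 * (-a * t2) * (t1 + -a * t2) = -(t1 * a * t2 * (t1 + -a * t2)) := by ring
          rw [this, cz_neg, map_mul, map_mul, map_mul]
        rw [e4, e5] at e3
        -- multiply the relation with `P l`
        have e6 : cz t1 * cz t2 * P l = P l := by rw [mul_assoc, e2, e1]
        set s := cz (t1 + -a * t2)
        linear_combination (-P l) * e3 + e1 - cz a * e2 + s * cz a * e6

/-- The pure subform theorem. -/
theorem pure_subform {r l : List K} (hl : NZ l) {y : K} (h : LV (rd r l) y)
    (hy : y ≠ 0) : ∃ l', l'.length + 1 = l.length ∧ NZ l' ∧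
      P r * P l = P r * ((1 + cz y) * P l') := by
  induction l generalizing y with
  | nil => exact absurd h hy
  | cons a l ih =>
    rw [NZ_cons] at hl
    rw [rd, LV_append] at h
    obtain ⟨y1, y2, h1, h2, rfl⟩ := h
    rw [LV_map] at h2
    obtain ⟨t, h2, rfl⟩ := h2
    by_cases ht : t = 0
    · subst ht
      have hy1 : y1 + -a * 0 = y1 := by ring
      rw [hy1] at hy ⊢
      obtain ⟨l', hlen, hl', hP⟩ := ih hl.2 h1 hy
      refine ⟨a :: l', by simp [hlen], NZ_cons.2 ⟨hl.1, hl'⟩, ?_⟩
      rw [P_cons, P_cons]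
      linear_combination (1 - cz a) * hP
    · have e1 := round h2 ht
      rw [P_append] at e1
      by_cases hy1 : y1 = 0
      · subst hy1
        refine ⟨l, by simp, hl.2, ?_⟩
        rw [P_cons, zero_add, neg_mul, cz_neg, map_mul]
        linear_combination cz a * e1
      · obtain ⟨l', hlen, hl', hP⟩ := ih hl.2 h1 hy1
        have hat : a * t * y1 ≠ 0 := mul_ne_zero (mul_ne_zero hl.1 ht) hy1
        refine ⟨(a * t * y1) :: l', by simp [hlen], NZ_cons.2 ⟨hat, hl'⟩, ?_⟩
        have e3 := cz_add y1 (-a * t)
        have e4 : cz (-a * t) = - (cz a * cz t) := by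
          rw [neg_mul, cz_neg, map_mul]
        have e5 : cz (y1 * (-a * t) * (y1 + -a * t))
            = - (cz a * cz t * cz y1 * cz (y1 + -a * t)) := by
          have : y1 * (-a * t) * (y1 + -a * t) = -(a * t * y1 * (y1 + -a * t)) := by ring
          rw [this, cz_neg, map_mul, map_mul, map_mul]
        rw [e4, e5] at e3
        rw [P_cons, P_cons, map_mul, map_mul]
        set s := cz (y1 + -a * t)
        linear_combination (cz a) * e1 + (1 - cz a * cz t) * hP + P r * P l' * e3

lemma D_eq_zero {x : W K} (h : D 0 x) : x = 0 := by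
  obtain ⟨w, -, rfl⟩ := h
  simp [cl]

/-- An isotropic Pfister form is hyperbolic. -/
theorem P_iso {l : List K} (hl : NZ l) {m : ℕ} (hm : m < 2 ^ l.length) (h : D m (P l)) :
    P l = 0 := by
  induction l generalizing m with
  | nil =>
    have : m = 0 := by simpa using hm
    subst this
    exact D_eq_zero h
  | cons a l ih =>
    rw [NZ_cons] at hl
    by_cases hI : Iso (fun i : Fin (fd l).length => (fd l).get i)
    · obtain ⟨m', hm', hD⟩ := hI.D (get_ne (fd_NZ hl.2))
      rw [cl_get, lcl_fd] at hD
      rw [Fintype.card_fin, fd_length] at hm'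
      rw [P_cons, ih hl.2 (by omega) hD, mul_zero]
    · set w : Fin (fd l).length → K := fun i => (fd l).get i with hw
      have hwne : ∀ i, w i ≠ 0 := get_ne (fd_NZ hl.2)
      have hcl : cl w = P l := by rw [hw, cl_get, lcl_fd]
      have h1 : Iso (Sum.elim w (fun i => -a * w i)) := by
        refine iso_of_D (by
          rintro (i | i)
          · exact hwne i
          · exact mul_ne_zero (neg_ne_zero.mpr hl.1) (hwne i)) (m := m) ?_ ?_
        · rw [Fintype.card_sum, Fintype.card_fin, fd_length]
          rw [List.length_cons, pow_succ] at hm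
          omega
        · rw [cl_sum, cl_smul, hcl, cz_neg]
          rw [P_cons] at h
          convert h using 1
          ring
      obtain ⟨v, hv, hv2⟩ := h1
      rw [Fintype.sum_sum_type] at hv2
      simp only [Sum.elim_inl, Sum.elim_inr] at hv2
      set t1 := ∑ i, w i * v (Sum.inl i) ^ 2 with ht1
      set t2 := ∑ i, w i * v (Sum.inr i) ^ 2 with ht2
      have h12 : t1 = a * t2 := by
        have : ∑ i, -a * w i * v (Sum.inr i) ^ 2 = -a * t2 := by
          rw [ht2, Finset.mul_sum]
          exact Finset.sum_congr rfl fun i _ => by ring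
        rw [this] at hv2
        linear_combination hv2
      have hr0 : (fun i => v (Sum.inr i)) ≠ 0 := by
        intro h0
        have ht20 : t2 = 0 := by
          rw [ht2]
          refine Finset.sum_eq_zero fun i _ => ?_
          have := congrFun h0 i
          simp only [Pi.zero_apply] at this
          rw [this]; ring
        apply hI
        refine ⟨fun i => v (Sum.inl i), ?_, ?_⟩
        · intro h0'
          apply hv
          ext j
          rcases j with j | j
          · exact congrFun h0' j
          · exact congrFun h0 j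
        · change t1 = 0
          rw [h12, ht20, mul_zero]
      have ht20 : t2 ≠ 0 := fun h0 => hI ⟨_, hr0, h0⟩
      have ht10 : t1 ≠ 0 := by rw [h12]; exact mul_ne_zero hl.1 ht20
      have e1 := round (l := l) (t := t1) (LV_sum (fd l) _) ht10
      have e2 := round (l := l) (t := t2) (LV_sum (fd l) _) ht20
      have e3 : cz t1 = cz a * cz t2 := by rw [h12, map_mul]
      rw [P_cons]
      rw [e3] at e1
      linear_combination cz a * e2 - e1

/-- The pure subform theorem in terms of dimensions. -/
theorem PS1 (h2 : (2 : K) ≠ 0) {l : List K} (hl : NZ l) {y : K} (hy : y ≠ 0) {m : ℕ}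
    (hm : m < 2 ^ l.length) (h : D m (P l - 1 - cz y)) :
    ∃ l', l'.length + 1 = l.length ∧ NZ l' ∧ P l = (1 + cz y) * P l' := by
  have hlen := rd_length [] l
  simp only [List.length_nil, pow_zero, add_zero] at hlen
  obtain ⟨v, hv⟩ := val_of_D h2 (w := fun i : Fin (rd [] l).length => (rd [] l).get i)
    (get_ne (rd_NZ NZ_nil hl)) hy (m := m)
    (by rw [Fintype.card_fin]; omega)
    (by rw [cl_get, lcl_rd, P_nil, one_mul]; exact h)
  have hLV := LV_sum (rd [] l) v
  have hv' : ∑ i, (rd [] l).get i * v i ^ 2 = y := hv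
  rw [hv'] at hLV
  obtain ⟨l', h1, h3, h4⟩ := pure_subform (r := []) hl hLV hy
  rw [P_nil, one_mul, one_mul] at h4
  exact ⟨l', h1, h3, h4⟩

/-- Two slots at once. -/
theorem PS2 (h2 : (2 : K) ≠ 0) {l : List K} (hl : NZ l) {y z : K} (hy : y ≠ 0) (hz : z ≠ 0) {m : ℕ}
    (hm : m + 1 < 2 ^ l.length) (h : D m (P l - 1 - cz y - cz z)) :
    ∃ l', l'.length + 2 = l.length ∧ NZ l' ∧ P l = (1 + cz y) * (1 + cz z) * P l' := by
  obtain ⟨l1, h11, h12, h13⟩ := PS1 h2 hl hy hm (by
    have := h.add (D_cz hz)
    convert this using 1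
    ring)
  have hPy : P [-y] = 1 + cz y := by rw [P_cons, P_nil, cz_neg]; ring
  have hlen := rd_length [-y] l1
  simp only [List.length_cons, List.length_nil, zero_add, pow_one] at hlen
  have hNZ : NZ [-y] := by
    intro a ha
    rw [List.mem_singleton] at ha
    rw [ha]; exact neg_ne_zero.mpr hy
  obtain ⟨v, hv⟩ := val_of_D h2 (w := fun i : Fin (rd [-y] l1).length => (rd [-y] l1).get i)
    (get_ne (rd_NZ hNZ h12)) hz (m := m)
    (by rw [Fintype.card_fin]; rw [h11] at hlen; omega)
    (by
      rw [cl_get, lcl_rd, hPy]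
      convert h using 1
      rw [h13]; ring)
  have hLV := LV_sum (rd [-y] l1) v
  have hv' : ∑ i, (rd [-y] l1).get i * v i ^ 2 = z := hv
  rw [hv'] at hLV
  obtain ⟨l', h1, h3, h4⟩ := pure_subform (r := [-y]) h12 hLV hz
  rw [hPy] at h4
  refine ⟨l', by omega, h3, ?_⟩
  rw [h13, h4]; ring

end Pool.Agent.Run7.h314
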