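import Pool.Agent.Run7.h314.W3

/-!
# Quadratic extensions and the Witt ring
-/

set_option autoImplicit false

noncomputable section

namespace Pool.Agent.Run7.h314

open Module

universe u v

variable {F : Type u} [Field F] {E : Type v} [Field E] [Algebra F E]

/-- `E = F(δ)` with `δ ^ 2 = d`, where `d` is not a square. -/
structure Quad (F : Type u) [Field F] (E : Type v) [Field E] [Algebra F E] (d : F) (δ : E) : Prop where
  sq : δ ^ 2 = algebraMap F E d
  nsq : ¬ IsSquare d
  span : ∀ z : E, ∃ x y : F, z = algebraMap F E x + algebraMap F E y * δ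

/-- The restriction map. -/
abbrev rs (F : Type u) [Field F] (E : Type v) [Field E] [Algebra F E] : W F →+* W E :=
  mp (algebraMap F E)

lemma rs_cl {ι : Type*} [Fintype ι] (w : ι → F) :
    rs F E (cl w) = cl (fun i => algebraMap F E (w i)) := by
  unfold cl
  rw [map_sum]
  exact Finset.sum_congr rfl fun i _ => mp_cz _ _

lemma rs_P (l : List F) : rs F E (P l) = P (l.map (algebraMap F E)) := by
  induction l with
  | nil => simp [P]
  | cons a l ih =>
    rw [List.map_cons, P_cons, P_cons, map_mul, map_sub, map_one, ih, mp_cz]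

lemma NZ_alg {l : List F} (hl : NZ l) : NZ (l.map (algebraMap F E)) := by
  intro y hy
  obtain ⟨x, hx, rfl⟩ := List.mem_map.mp hy
  exact (map_ne_zero _).mpr (hl x hx)

lemma D.rs {n : ℕ} {x : W F} (h : D n x) : D n (rs F E x) := by
  obtain ⟨w, hw, rfl⟩ := h
  rw [rs_cl]
  exact ⟨_, fun i => (map_ne_zero _).mpr (hw i), rfl⟩

variable {d : F} {δ : E}

lemma Quad.dne (h : Quad F E d δ) : d ≠ 0 := by
  rintro rfl
  exact h.nsq ⟨0, by simp⟩

lemma Quad.δne (h : Quad F E d δ) : δ ≠ 0 := by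
  rintro rfl
  have h1 := h.sq
  rw [zero_pow two_ne_zero] at h1
  exact h.dne ((map_eq_zero (algebraMap F E)).mp h1.symm)

lemma Quad.rs_d (h : Quad F E d δ) : rs F E (1 - cz d) = 0 := by
  rw [map_sub, map_one, mp_cz, ← h.sq]
  have := cz_mul_sq (1 : E) h.δne
  rw [one_mul, map_one] at this
  rw [this, sub_self]

lemma Quad.eq_zero (h : Quad F E d δ) {x y : F} (hxy : algebraMap F E x + algebraMap F E y * δ = 0) :
    x = 0 ∧ y = 0 := by
  have hy : y = 0 := by
    by_contra hy
    apply h.nsq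
    have h1 : algebraMap F E (y ^ 2 * d) = algebraMap F E (x ^ 2) := by
      rw [map_mul, ← h.sq, map_pow, map_pow]
      linear_combination (algebraMap F E y * δ - algebraMap F E x) * hxy
    have h2 := (algebraMap F E).injective h1
    refine ⟨x / y, ?_⟩
    field_simp
    linear_combination h2
  refine ⟨?_, hy⟩
  rw [hy, map_zero, zero_mul, add_zero] at hxy
  exact (map_eq_zero _).mp hxy

/-- isotropy over `E` in terms of `F` -/
lemma Quad.comp (h : Quad F E d δ) {ι : Type*} [Fintype ι] (w : ι → F) (u v : ι → F) :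
    ∑ i, algebraMap F E (w i) * (algebraMap F E (u i) + algebraMap F E (v i) * δ) ^ 2
      = algebraMap F E (∑ i, w i * (u i ^ 2 + d * v i ^ 2))
        + algebraMap F E (2 * ∑ i, w i * u i * v i) * δ := by
  rw [map_sum, map_mul, map_sum, Finset.mul_sum, Finset.sum_mul, ← Finset.sum_add_distrib]
  refine Finset.sum_congr rfl fun i _ => ?_
  simp only [map_mul, map_add, map_pow, map_ofNat]
  rw [← h.sq]
  ring

lemma Quad.iso (h2 : (2 : F) ≠ 0) (h : Quad F E d δ) {ι : Type*} [Fintype ι] (w : ι → F)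
    (hI : Iso (fun i => algebraMap F E (w i))) :
    ∃ u v : ι → F, (u ≠ 0 ∨ v ≠ 0) ∧ ∑ i, w i * (u i ^ 2 + d * v i ^ 2) = 0 ∧
      ∑ i, w i * u i * v i = 0 := by
  obtain ⟨z, hz, hz2⟩ := hI
  choose u v huv using fun i => h.span (z i)
  refine ⟨u, v, ?_, ?_⟩
  · by_contra hc
    rw [not_or, not_not, not_not] at hc
    apply hz
    ext i
    rw [huv i, hc.1, hc.2]; simp
  · have h1 := h.comp w u v
    rw [show ∑ i, algebraMap F E (w i) * (algebraMap F E (u i) + algebraMap F E (v i) * δ) ^ 2 = 0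
      from by rw [← hz2]; exact Finset.sum_congr rfl fun i _ => by rw [← huv i]] at h1
    obtain ⟨h3, h4⟩ := h.eq_zero h1.symm
    exact ⟨h3, (mul_eq_zero.mp h4).resolve_left h2⟩

lemma Quad.iso' (h : Quad F E d δ) {ι : Type*} [Fintype ι] (w : ι → F)
    (u v : ι → F) (huv : u ≠ 0 ∨ v ≠ 0) (h1 : ∑ i, w i * (u i ^ 2 + d * v i ^ 2) = 0)
    (h2 : ∑ i, w i * u i * v i = 0) : (fun i => algebraMap F E (u i) + algebraMap F E (v i) * δ) ≠ 0 ∧
      ∑ i, algebraMap F E (w i) * (algebraMap F E (u i) + algebraMap F E (v i) * δ) ^ 2 = 0 := by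
  refine ⟨?_, ?_⟩
  · intro h0
    have h3 : ∀ i, u i = 0 ∧ v i = 0 := fun i => h.eq_zero (congrFun h0 i)
    rcases huv with h4 | h4
    · exact h4 (funext fun i => (h3 i).1)
    · exact h4 (funext fun i => (h3 i).2)
  · rw [h.comp, h1, h2]; simp

/-- An anisotropic form which becomes isotropic contains a multiple of `⟨1, -d⟩`. -/
lemma lemQ (h2 : (2 : F) ≠ 0) {n : ℕ} (w : Fin n → F) (hw : ∀ i, w i ≠ 0) (han : ¬ Iso w)
    {d : F} (u v : Fin n → F) (huv : u ≠ 0 ∨ v ≠ 0) (hd : d ≠ 0)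
    (h3 : ∑ i, w i * (u i ^ 2 + d * v i ^ 2) = 0) (h4 : ∑ i, w i * u i * v i = 0) :
    ∃ m, m + 2 = n ∧ ∃ c : F, c ≠ 0 ∧ D m (cl w - cz c * (1 - cz d)) := by
  set c : F := ∑ i, w i * v i ^ 2 with hc
  have h5 : ∑ i, w i * u i ^ 2 = -d * c := by
    have : ∑ i, w i * (u i ^ 2 + d * v i ^ 2) = ∑ i, w i * u i ^ 2 + d * c := by
      rw [hc, Finset.mul_sum, ← Finset.sum_add_distrib]
      exact Finset.sum_congr rfl fun i _ => by ring
    rw [this] at h3
    linear_combination h3
  have hv : v ≠ 0 := by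
    intro hv
    have hc0 : c = 0 := by rw [hc]; exact Finset.sum_eq_zero fun i _ => by rw [hv]; simp
    rw [hc0, mul_zero] at h5
    rcases huv with hu | hv'
    · exact han ⟨u, hu, h5⟩
    · exact hv' hv
  have hc0 : c ≠ 0 := fun h0 => han ⟨v, hv, h0⟩
  have hu : u ≠ 0 := by
    intro hu
    have : ∑ i, w i * u i ^ 2 = 0 := Finset.sum_eq_zero fun i _ => by rw [hu]; simp
    rw [this] at h5
    exact mul_ne_zero (neg_ne_zero.mpr hd) hc0 h5.symm
  obtain ⟨m, hm, hD⟩ := pair_split h2 w hw han u v hu hv h4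
  refine ⟨m, hm, c, hc0, ?_⟩
  convert hD using 1
  rw [h5, ← hc, neg_mul, cz_neg, map_mul]
  ring

/-- Descent: modulo multiples of `⟨1, -d⟩` the anisotropic dimension over `F` is the one over
`E`. -/
theorem dsc (h2 : (2 : F) ≠ 0) (h : Quad F E d δ) (x : W F) :
    ∃ x0 y : W F, x = x0 + (1 - cz d) * y ∧ an x0 = an (rs F E x) := by
  induction hn : an x using Nat.strong_induction_on generalizing x with
  | _ n ih =>
    subst hn
    obtain ⟨w, hw, hcl, han⟩ := exists_aniso x
    have hle : an (rs F E x) ≤ an x := an_le (an_spec x).rs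
    rcases Nat.lt_or_ge (an (rs F E x)) (an x) with hlt | hge
    · have hI : Iso (fun i => algebraMap F E (w i)) := by
        apply iso_of_an (fun i => (map_ne_zero _).mpr (hw i))
        rw [← rs_cl, hcl, Fintype.card_fin]
        exact hlt
      obtain ⟨u, v, huv, h3, h4⟩ := h.iso h2 w hI
      obtain ⟨m, hm, c, hc, hD⟩ := lemQ h2 w hw han u v huv h.dne h3 h4
      rw [hcl] at hD
      have hlt' : an (x - cz c * (1 - cz d)) < an x := by
        have := an_le hD
        omega
      obtain ⟨x0, y, hxy, han0⟩ := ih _ hlt' _ rfl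
      refine ⟨x0, cz c + y, ?_, ?_⟩
      · linear_combination hxy
      · rw [han0, map_sub, map_mul, h.rs_d, mul_zero, sub_zero]
    · exact ⟨x, 0, by ring, le_antisymm hge hle⟩

/-- The kernel of the restriction. -/
theorem ker_rs (h2 : (2 : F) ≠ 0) (h : Quad F E d δ) (x : W F) (hx : rs F E x = 0) :
    ∃ y : W F, x = (1 - cz d) * y := by
  obtain ⟨x0, y, hxy, han⟩ := dsc h2 h x
  rw [hx, an_zero] at han
  have hx0 : x0 = 0 := by
    have := an_spec x0
    rw [han] at this
    exact D_eq_zero this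
  exact ⟨y, by rw [hxy, hx0, zero_add]⟩

end Pool.Agent.Run7.h314
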