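import Pool.Agent.Run7.h314.W4

/-!
# Discriminants, the basic property, common slots over quadratic extensions
-/

set_option autoImplicit false

noncomputable section

namespace Pool.Agent.Run7.h314

open Module Pool.Agent.H109R2.Witt

universe u v

variable {F : Type u} [Field F]

/-- The group generated by the scaled two-fold Pfister forms, that is, `I²(F)`. -/
def G2 (F : Type u) [Field F] : AddSubgroup (W F) :=
  AddSubgroup.closure {x | ∃ g a b : F, g ≠ 0 ∧ a ≠ 0 ∧ b ≠ 0 ∧ x = cz g * P [a, b]}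

lemma NZ_pair {a b : F} (ha : a ≠ 0) (hb : b ≠ 0) : NZ [a, b] :=
  NZ_cons.2 ⟨ha, NZ_cons.2 ⟨hb, NZ_nil⟩⟩

/-- `x` is represented by a form of dimension `2 k` with trivial signed discriminant. -/
def SD (x : W F) : Prop :=
  ∃ (ι : Type) (_ : Fintype ι) (k : ℕ) (w : ι → F), Fintype.card ι = 2 * k ∧ (∀ i, w i ≠ 0) ∧
    cl w = x ∧ IsSquare ((-1) ^ k * ∏ i, w i)

lemma SD_add {x y : W F} (hx : SD x) (hy : SD y) : SD (x + y) := by
  obtain ⟨ι, _, k, w, hk, hw, rfl, hs⟩ := hx
  obtain ⟨κ, _, l, u, hl, hu, rfl, ht⟩ := hy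
  refine ⟨ι ⊕ κ, inferInstance, k + l, Sum.elim w u, by rw [Fintype.card_sum, hk, hl]; ring, ?_,
    cl_sum w u, ?_⟩
  · rintro (i | i)
    · exact hw i
    · exact hu i
  · rw [Fintype.prod_sum_type]
    simp only [Sum.elim_inl, Sum.elim_inr]
    have : (-1 : F) ^ (k + l) * ((∏ i, w i) * ∏ i, u i)
        = ((-1) ^ k * ∏ i, w i) * ((-1) ^ l * ∏ i, u i) := by rw [pow_add]; ring
    rw [this]
    exact hs.mul ht

lemma SD_neg {x : W F} (hx : SD x) : SD (-x) := by
  obtain ⟨ι, _, k, w, hk, hw, rfl, hs⟩ := hx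
  refine ⟨ι, inferInstance, k, fun i => - w i, hk, fun i => neg_ne_zero.mpr (hw i), cl_neg w, ?_⟩
  have h1 : ∏ i, (-w i) = ∏ i, w i := by
    have : ∀ i, - w i = (-1) * w i := fun i => by ring
    simp only [this, Finset.prod_mul_distrib]
    rw [Finset.prod_const, Finset.card_univ, hk, pow_mul]
    simp
  rw [h1]
  exact hs

lemma SD_zero : SD (0 : W F) :=
  ⟨Empty, inferInstance, 0, fun i => i.elim, by simp, fun i => i.elim, by simp [cl], by simp⟩

lemma SD_gen {g a b : F} (hg : g ≠ 0) (ha : a ≠ 0) (hb : b ≠ 0) : SD (cz g * P [a, b]) := by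
  refine ⟨Fin 4, inferInstance, 2, ![g, -(g * a), -(g * b), g * a * b], by simp, ?_, ?_, ?_⟩
  · intro i
    fin_cases i
    · exact hg
    · exact neg_ne_zero.mpr (mul_ne_zero hg ha)
    · exact neg_ne_zero.mpr (mul_ne_zero hg hb)
    · exact mul_ne_zero (mul_ne_zero hg ha) hb
  · simp only [cl, Fin.sum_univ_four, Matrix.cons_val_zero, Matrix.cons_val_one, Matrix.cons_val]
    rw [P_cons, P_cons, P_nil, cz_neg, cz_neg]
    simp only [map_mul]
    ring
  · simp only [Fin.prod_univ_four, Matrix.cons_val_zero, Matrix.cons_val_one, Matrix.cons_val]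
    exact ⟨g ^ 2 * a * b, by ring⟩

lemma SD_G2 {x : W F} (hx : x ∈ G2 F) : SD x := by
  unfold G2 at hx
  induction hx using AddSubgroup.closure_induction with
  | mem x hx =>
    obtain ⟨g, a, b, hg, ha, hb, rfl⟩ := hx
    exact SD_gen hg ha hb
  | zero => exact SD_zero
  | add x y _ _ hx hy => exact SD_add hx hy
  | neg x _ hx => exact SD_neg hx

/-- The signed discriminant is well-defined. -/
lemma disc_eq {ι κ : Type*} [Fintype ι] [Fintype κ] {w : ι → F} {u : κ → F} {k l : ℕ}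
    (hk : Fintype.card ι = 2 * k) (hl : Fintype.card κ = 2 * l)
    (hw : ∀ i, w i ≠ 0) (hu : ∀ i, u i ≠ 0) (h : cl w = cl u)
    (hs : IsSquare ((-1) ^ l * ∏ i, u i)) : IsSquare ((-1) ^ k * ∏ i, w i) := by
  have h1 : Met (Sum.elim w (fun i => - u i)) := by
    apply Met_of_cl
    · rintro (i | i)
      · exact hw i
      · exact neg_ne_zero.mpr (hu i)
    · rw [cl_sum, cl_neg, h, add_neg_cancel]
  have h2 := MM.disc (m := k + l) (zero_notMem_univ (w := Sum.elim w (fun i => - u i)) (by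
      rintro (i | i)
      · exact hw i
      · exact neg_ne_zero.mpr (hu i))) (by
        rw [Multiset.card_map]
        change Finset.card Finset.univ = _
        rw [Finset.card_univ, Fintype.card_sum, hk, hl]; ring) (MM_of_Met h1)
  have h3 : (Finset.univ.val.map (Sum.elim w (fun i => - u i))).prod
      = (∏ i, w i) * ∏ i, u i := by
    change ∏ i, Sum.elim w (fun i => - u i) i = _
    rw [Fintype.prod_sum_type]
    simp only [Sum.elim_inl, Sum.elim_inr]
    have : ∀ i, - u i = (-1) * u i := fun i => by ring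
    simp only [this, Finset.prod_mul_distrib]
    rw [Finset.prod_const, Finset.card_univ, hl, pow_mul]
    simp
  rw [h3] at h2
  have hsu : (-1 : F) ^ l * ∏ i, u i ≠ 0 :=
    mul_ne_zero (pow_ne_zero _ (neg_ne_zero.mpr one_ne_zero))
      (Finset.prod_ne_zero_iff.mpr fun i _ => hu i)
  have h4 : (-1 : F) ^ k * ∏ i, w i
      = ((-1) ^ (k + l) * ((∏ i, w i) * ∏ i, u i)) / ((-1) ^ l * ∏ i, u i) := by
    rw [eq_div_iff hsu, pow_add]; ring
  rw [h4]
  exact h2.div hs

lemma disc_G2 {ι : Type*} [Fintype ι] {w : ι → F} {k : ℕ} (hk : Fintype.card ι = 2 * k)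
    (hw : ∀ i, w i ≠ 0) (h : cl w ∈ G2 F) : IsSquare ((-1) ^ k * ∏ i, w i) := by
  obtain ⟨κ, _, l, u, hl, hu, hcl, hs⟩ := SD_G2 h
  exact disc_eq hk hl hw hu hcl.symm hs

lemma G2_gen {g a b : F} (hg : g ≠ 0) (ha : a ≠ 0) (hb : b ≠ 0) : cz g * P [a, b] ∈ G2 F :=
  AddSubgroup.subset_closure ⟨g, a, b, hg, ha, hb, rfl⟩

lemma G2_smul {x : W F} (hx : x ∈ G2 F) {c : F} (hc : c ≠ 0) : cz c * x ∈ G2 F := by
  unfold G2 at hx
  induction hx using AddSubgroup.closure_induction with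
  | mem x hx =>
    obtain ⟨g, a, b, hg, ha, hb, rfl⟩ := hx
    rw [← mul_assoc, ← map_mul]
    exact G2_gen (mul_ne_zero hc hg) ha hb
  | zero => rw [mul_zero]; exact zero_mem _
  | add x y _ _ hx hy => rw [mul_add]; exact add_mem hx hy
  | neg x _ hx => rw [mul_neg]; exact neg_mem hx

lemma G2_mul {x : W F} (hx : x ∈ G2 F) (y : W F) : y * x ∈ G2 F := by
  induction y using W_induction with
  | h0 => rw [zero_mul]; exact zero_mem _
  | h1 a ha => exact G2_smul hx ha
  | hadd a b ha hb => rw [add_mul]; exact add_mem ha hb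

lemma G2_P {l : List F} (hl : NZ l) (hlen : 2 ≤ l.length) : P l ∈ G2 F := by
  match l, hl, hlen with
  | a :: b :: r, hl, _ =>
    rw [NZ_cons, NZ_cons] at hl
    have : P (a :: b :: r) = P r * (cz 1 * P [a, b]) := by
      rw [map_one, P_cons, P_cons, P_cons, P_cons, P_nil]; ring
    rw [this]
    exact G2_mul (G2_gen one_ne_zero hl.1 hl.2.1) _

/-- The basic property of fields with small torsion index: a form of dimension `2 k`, `k` odd, and
of trivial signed discriminant is isotropic over every quadratic extension. -/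
def A1 (F : Type u) [Field F] : Prop :=
  ∀ d : F, ¬ IsSquare d → ∀ k : ℕ, Odd k → ∀ w : Fin (2 * k) → F, (∀ i, w i ≠ 0) →
    IsSquare ((-1) ^ k * ∏ i, w i) → ∃ u v : Fin (2 * k) → F, (u ≠ 0 ∨ v ≠ 0) ∧
      ∑ i, w i * (u i ^ 2 + d * v i ^ 2) = 0 ∧ ∑ i, w i * u i * v i = 0

/-- The basic property for forms over an arbitrary index type. -/
lemma A1.use (hA : A1 F) {d : F} (hd : ¬ IsSquare d) {ι : Type*} [Fintype ι] {k : ℕ} (hk : Odd k)
    (hc : Fintype.card ι = 2 * k) (w : ι → F) (hw : ∀ i, w i ≠ 0) (h : cl w ∈ G2 F) :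
    ∃ u v : ι → F, (u ≠ 0 ∨ v ≠ 0) ∧
      ∑ i, w i * (u i ^ 2 + d * v i ^ 2) = 0 ∧ ∑ i, w i * u i * v i = 0 := by
  have e := (Fintype.equivFinOfCardEq hc)
  have hs := disc_G2 hc hw h
  obtain ⟨u, v, huv, h1, h2⟩ := hA d hd k hk (fun i => w (e.symm i)) (fun i => hw _) (by
    have := Equiv.prod_comp e.symm w
    rw [this]; exact hs)
  refine ⟨fun i => u (e i), fun i => v (e i), ?_, ?_, ?_⟩
  · rcases huv with hu | hv
    · left
      intro h0
      apply hu
      ext i
      have := congrFun h0 (e.symm i)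
      simpa using this
    · right
      intro h0
      apply hv
      ext i
      have := congrFun h0 (e.symm i)
      simpa using this
  · rw [← h1, ← Equiv.sum_comp e]
    simp
  · rw [← h2, ← Equiv.sum_comp e]
    simp

/-- A four-dimensional form with `d` times its determinant a square. -/
lemma four_dim {u : Fin 4 → F} (hu : ∀ i, u i ≠ 0) {d : F} (hd : d ≠ 0)
    (hs : IsSquare (d * ∏ i, u i)) : ∃ g l m : F, g ≠ 0 ∧ l ≠ 0 ∧ m ≠ 0 ∧
      cl u = cz g * P [l, m] - cz (g * l * m) * (1 - cz d) := by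
  refine ⟨u 0, -(u 0 * u 1), -(u 0 * u 2), hu 0, neg_ne_zero.mpr (mul_ne_zero (hu 0) (hu 1)),
    neg_ne_zero.mpr (mul_ne_zero (hu 0) (hu 2)), ?_⟩
  rw [Fin.prod_univ_four] at hs
  obtain ⟨r, hr⟩ := hs
  have h3 : cz (u 3) = cz d * cz (u 0) * cz (u 1) * cz (u 2) := by
    have hr0 : r ≠ 0 := by
      rintro rfl
      rw [mul_zero] at hr
      exact mul_ne_zero hd (mul_ne_zero (mul_ne_zero (mul_ne_zero (hu 0) (hu 1)) (hu 2)) (hu 3)) hr
    have hne : d * u 0 * u 1 * u 2 ≠ 0 :=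
      mul_ne_zero (mul_ne_zero (mul_ne_zero hd (hu 0)) (hu 1)) (hu 2)
    have h4 : u 3 = d * u 0 * u 1 * u 2 * (r / (d * u 0 * u 1 * u 2)) ^ 2 := by
      rw [div_pow, ← mul_div_assoc, eq_div_iff (pow_ne_zero _ hne)]
      linear_combination (d * u 0 * u 1 * u 2) * hr
    rw [h4, cz_mul_sq _ (div_ne_zero hr0 hne), map_mul, map_mul, map_mul]
  have e0 := cz_sq (hu 0)
  simp only [cl, Fin.sum_univ_four]
  rw [P_cons, P_cons, P_nil, h3, cz_neg, cz_neg]
  have e5 : cz (u 0 * -(u 0 * u 1) * -(u 0 * u 2)) = cz (u 0) * cz (u 1) * cz (u 2) := by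
    have : u 0 * -(u 0 * u 1) * -(u 0 * u 2) = u 0 * u 1 * u 2 * (u 0) ^ 2 := by ring
    rw [this, cz_mul_sq _ (hu 0), map_mul, map_mul]
  rw [e5, map_mul, map_mul]
  set a := cz (u 0)
  set b := cz (u 1)
  set c := cz (u 2)
  linear_combination (-b - c - b * c * a) * e0

/-- Two-fold Pfister forms are linked modulo multiples of `⟨1, -d⟩`. -/
theorem link2 (h2 : (2 : F) ≠ 0) (hA : A1 F) {d : F} (hd : ¬ IsSquare d) {a b c e : F} (ha : a ≠ 0)
    (hb : b ≠ 0) (hc : c ≠ 0) (he : e ≠ 0) : ∃ g l m : F, g ≠ 0 ∧ l ≠ 0 ∧ m ≠ 0 ∧ ∃ y : W F,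
      P [a, b] - P [c, e] = cz g * P [l, m] + (1 - cz d) * y := by
  have hd0 : d ≠ 0 := by rintro rfl; exact hd ⟨0, by simp⟩
  set x := P [a, b] - P [c, e] with hx
  have hxG : x ∈ G2 F := by
    have h1 := G2_P (NZ_pair ha hb) (by simp)
    have h3 := G2_P (NZ_pair hc he) (by simp)
    exact sub_mem h1 h3
  have hD6 : D 6 x := by
    have h1 : D 3 (P [a, b] - 1) := by
      have := ((D_cz (neg_ne_zero.mpr ha)).add (D_cz (neg_ne_zero.mpr hb))).add
        (D_cz (mul_ne_zero ha hb))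
      convert this using 1
      rw [P_cons, P_cons, P_nil, cz_neg, cz_neg, map_mul]; ring
    have h3 : D 3 (P [c, e] - 1) := by
      have := ((D_cz (neg_ne_zero.mpr hc)).add (D_cz (neg_ne_zero.mpr he))).add
        (D_cz (mul_ne_zero hc he))
      convert this using 1
      rw [P_cons, P_cons, P_nil, cz_neg, cz_neg, map_mul]; ring
    have := h1.sub h3
    convert this using 1
    rw [hx]; ring
  -- the case of a form of dimension four
  have hfour : ∀ y : W F, y ∈ G2 F → D 4 y → ∃ g l m : F, g ≠ 0 ∧ l ≠ 0 ∧ m ≠ 0 ∧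
      y = cz g * P [l, m] := by
    intro y hy hD
    obtain ⟨u, hu, hcl⟩ := hD
    have hs := disc_G2 (k := 2) (w := u) (by simp) hu (by rw [hcl]; exact hy)
    obtain ⟨g, l, m, hg, hl, hm, h⟩ := four_dim hu (d := 1) one_ne_zero (by
      simpa using hs)
    refine ⟨g, l, m, hg, hl, hm, ?_⟩
    rw [← hcl, h, map_one, sub_self, mul_zero, sub_zero]
  obtain ⟨w, hw, hcl⟩ := hD6
  by_cases hI : Iso w
  · obtain ⟨m', hm', hD⟩ := hI.D hw
    rw [Fintype.card_fin] at hm'
    have hm'4 : m' = 4 := by omega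
    subst hm'4
    rw [hcl] at hD
    obtain ⟨g, l, m, hg, hl, hm, h⟩ := hfour x hxG hD
    exact ⟨g, l, m, hg, hl, hm, 0, by rw [h]; ring⟩
  · obtain ⟨u, v, huv, h3, h4⟩ := hA.use hd (k := 3) (by decide) (by simp) w hw
      (by rw [hcl]; exact hxG)
    obtain ⟨m', hm', f, hf, u4, hu4, hcl4⟩ := lemQ h2 w hw hI u v huv hd0 h3 h4
    have hm'4 : m' = 4 := by omega
    subst hm'4
    rw [hcl] at hcl4
    have hs := disc_G2 (k := 3) (w := Sum.elim u4 ![f, -(f * d)]) (by simp) (by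
        rintro (i | i)
        · exact hu4 i
        · fin_cases i
          · exact hf
          · exact neg_ne_zero.mpr (mul_ne_zero hf hd0)) (by
        rw [cl_sum, hcl4]
        have : cl ![f, -(f * d)] = cz f * (1 - cz d) := by
          simp only [cl, Fin.sum_univ_two, Matrix.cons_val_zero, Matrix.cons_val_one]
          rw [cz_neg, map_mul]; ring
        rw [this]
        convert hxG using 1
        ring)
    obtain ⟨g, l, m, hg, hl, hm, h⟩ := four_dim hu4 hd0 (by
      rw [Fintype.prod_sum_type] at hs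
      simp only [Sum.elim_inl, Sum.elim_inr, Fin.prod_univ_two, Matrix.cons_val_zero,
        Matrix.cons_val_one] at hs
      have h5 : d * ∏ i, u4 i
          = ((-1) ^ 3 * ((∏ i, u4 i) * (f * -(f * d)))) / (f * f) := by
        field_simp
      rw [h5]
      exact hs.div ⟨f, rfl⟩)
    refine ⟨g, l, m, hg, hl, hm, cz f - cz (g * l * m), ?_⟩
    have h6 : x = cl u4 + cz f * (1 - cz d) := by rw [hcl4]; ring
    rw [h6, h]
    ring

end Pool.Agent.Run7.h314
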