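import Pool.Agent.Run7.h314.W5

/-!
# Common slots over quadratic extensions, and linkage of the image of the Witt ring
-/

set_option autoImplicit false

noncomputable section

namespace Pool.Agent.Run7.h314

open Module

universe u v

variable {F : Type u} [Field F] {E : Type v} [Field E] [Algebra F E] {d : F} {δ : E}

lemma orth_exists {N : ℕ} (hN : 2 ≤ N) (w e1 : Fin N → F) :
    ∃ e2 : Fin N → F, e2 ≠ 0 ∧ ∑ i, w i * e1 i * e2 i = 0 := by
  let f : (Fin N → F) →ₗ[F] F := bil w e1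
  have hrn := LinearMap.finrank_range_add_finrank_ker f
  have hr : finrank F (LinearMap.range f) ≤ 1 := by
    have := Submodule.finrank_le (LinearMap.range f)
    rwa [Module.finrank_self] at this
  rw [Module.finrank_fintype_fun_eq_card, Fintype.card_fin] at hrn
  have hk : 0 < finrank F (LinearMap.ker f) := by omega
  obtain ⟨⟨x, hx⟩, hx0⟩ :=
    (Module.finrank_pos_iff_exists_ne_zero (R := F) (M := LinearMap.ker f)).1 hk
  refine ⟨x, fun h0 => hx0 (Subtype.ext h0), ?_⟩
  rw [← bil_apply]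
  exact LinearMap.mem_ker.mp hx

/-- A pair of vectors spans a diagonal form of dimension two. -/
lemma bin_aux (h2 : (2 : F) ≠ 0) {N : ℕ} (hN : 2 ≤ N) (w : Fin N → F) (hw : ∀ i, w i ≠ 0)
    (han : ¬ Iso w) (e1 e : Fin N → F) (he1 : e1 ≠ 0) (ho : ∑ i, w i * e1 i * e i = 0) (α β : E) :
    ∃ p1 p2 : F, p1 ≠ 0 ∧ p2 ≠ 0 ∧ ∃ m, m + 2 = N ∧ D m (cl w - cz p1 - cz p2) ∧
      ∃ α' β' : E, ∑ i, algebraMap F E (w i) * (α * algebraMap F E (e1 i)
        + β * algebraMap F E (e i)) ^ 2 = algebraMap F E p1 * α' ^ 2 + algebraMap F E p2 * β' ^ 2 := by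
  have key : ∀ (e2 : Fin N → F), ∑ i, w i * e1 i * e2 i = 0 → ∀ β' : E,
      ∑ i, algebraMap F E (w i) * (α * algebraMap F E (e1 i) + β' * algebraMap F E (e2 i)) ^ 2
        = algebraMap F E (∑ i, w i * e1 i ^ 2) * α ^ 2
          + algebraMap F E (∑ i, w i * e2 i ^ 2) * β' ^ 2 := by
    intro e2 ho2 β'
    have h1 : ∑ i, algebraMap F E (w i) * (α * algebraMap F E (e1 i)
        + β' * algebraMap F E (e2 i)) ^ 2 = algebraMap F E (∑ i, w i * e1 i ^ 2) * α ^ 2
          + algebraMap F E (∑ i, w i * e2 i ^ 2) * β' ^ 2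
          + 2 * α * β' * algebraMap F E (∑ i, w i * e1 i * e2 i) := by
      simp only [map_sum, map_mul, map_pow, Finset.sum_mul, Finset.mul_sum,
        ← Finset.sum_add_distrib]
      exact Finset.sum_congr rfl fun i _ => by ring
    rw [h1, ho2, map_zero, mul_zero, add_zero]
  have hq : ∀ x : Fin N → F, x ≠ 0 → ∑ i, w i * x i ^ 2 ≠ 0 := fun x hx h0 => han ⟨x, hx, h0⟩
  by_cases he : e = 0
  · obtain ⟨e2, he2, ho2⟩ := orth_exists hN w e1
    obtain ⟨m, hm, hD⟩ := pair_split h2 w hw han e1 e2 he1 he2 ho2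
    refine ⟨_, _, hq e1 he1, hq e2 he2, m, hm, hD, α, 0, ?_⟩
    rw [← key e2 ho2 0, he]
    refine Finset.sum_congr rfl fun i _ => ?_
    simp
  · obtain ⟨m, hm, hD⟩ := pair_split h2 w hw han e1 e he1 he ho
    exact ⟨_, _, hq e1 he1, hq e he, m, hm, hD, α, β, key e ho β⟩

lemma bin (h2 : (2 : F) ≠ 0) {N : ℕ} (hN : 2 ≤ N) (w : Fin N → F) (hw : ∀ i, w i ≠ 0)
    (han : ¬ Iso w) (u v : Fin N → F) (huv : u ≠ 0 ∨ v ≠ 0) (δ : E) :
    ∃ p1 p2 : F, p1 ≠ 0 ∧ p2 ≠ 0 ∧ ∃ m, m + 2 = N ∧ D m (cl w - cz p1 - cz p2) ∧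
      ∃ α' β' : E, ∑ i, algebraMap F E (w i) * (algebraMap F E (u i)
        + algebraMap F E (v i) * δ) ^ 2 = algebraMap F E p1 * α' ^ 2
          + algebraMap F E p2 * β' ^ 2 := by
  by_cases hu : u = 0
  · have hv : v ≠ 0 := by
      rcases huv with h | h
      · exact absurd hu h
      · exact h
    obtain ⟨p1, p2, hp1, hp2, m, hm, hD, α, β, h⟩ := bin_aux (E := E) h2 hN w hw han v 0 hv
      (by simp) δ 0
    refine ⟨p1, p2, hp1, hp2, m, hm, hD, α, β, ?_⟩
    rw [← h, hu]
    refine Finset.sum_congr rfl fun i _ => ?_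
    simp only [Pi.zero_apply, map_zero]
    ring
  · have hq : ∑ i, w i * u i ^ 2 ≠ 0 := fun h0 => han ⟨u, hu, h0⟩
    set c : F := (∑ i, w i * u i * v i) / (∑ i, w i * u i ^ 2) with hc
    obtain ⟨p1, p2, hp1, hp2, m, hm, hD, α, β, h⟩ := bin_aux (E := E) h2 hN w hw han u
      (fun i => v i - c * u i) hu (by
        have : ∑ i, w i * u i * (v i - c * u i)
            = ∑ i, w i * u i * v i - c * ∑ i, w i * u i ^ 2 := by
          rw [Finset.mul_sum, ← Finset.sum_sub_distrib]
          exact Finset.sum_congr rfl fun i _ => by ring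
        rw [this, hc, div_mul_cancel₀ _ hq, sub_self]) (1 + algebraMap F E c * δ) δ
    refine ⟨p1, p2, hp1, hp2, m, hm, hD, α, β, ?_⟩
    rw [← h]
    refine Finset.sum_congr rfl fun i _ => ?_
    rw [map_sub, map_mul]
    ring

/-- `⟨a, b⟩ ≅ ⟨t, a b t⟩` for a value `t`. -/
lemma bin_val {a b α β t : E} (ha : a ≠ 0) (hb : b ≠ 0) (ht : t ≠ 0)
    (h : t = a * α ^ 2 + b * β ^ 2) : cz a + cz b = cz t + cz t * (cz a * cz b) := by
  have ea := cz_sq ha
  have eb := cz_sq hb
  by_cases hα : α = 0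
  · have hβ : β ≠ 0 := by rintro rfl; apply ht; rw [h, hα]; ring
    have e1 : cz t = cz b := by
      rw [h, hα]
      have : a * 0 ^ 2 + b * β ^ 2 = b * β ^ 2 := by ring
      rw [this, cz_mul_sq _ hβ]
    rw [e1]
    linear_combination (-cz a) * eb
  · by_cases hβ : β = 0
    · have e1 : cz t = cz a := by
        rw [h, hβ]
        have : a * α ^ 2 + b * 0 ^ 2 = a * α ^ 2 := by ring
        rw [this, cz_mul_sq _ hα]
      rw [e1]
      linear_combination (-cz b) * ea
    · have e1 := cz_add (a * α ^ 2) (b * β ^ 2)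
      rw [← h, cz_mul_sq _ hα, cz_mul_sq _ hβ, map_mul, map_mul, cz_mul_sq _ hα,
        cz_mul_sq _ hβ] at e1
      rw [e1]; ring

lemma rs_ne_zero_aniso (hE2 : (2 : E) ≠ 0) {l : List F} (hl : NZ l) (h : rs F E (P l) ≠ 0) :
    ¬ Iso (fun i : Fin (rd [] l).length => algebraMap F E ((rd [] l).get i)) := by
  intro hI
  have hne : ∀ i : Fin (rd [] l).length, algebraMap F E ((rd [] l).get i) ≠ 0 :=
    fun i => (map_ne_zero _).mpr (get_ne (rd_NZ NZ_nil hl) i)
  obtain ⟨m, hm, hD⟩ := hI.D hne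
  rw [← rs_cl, cl_get, lcl_rd, P_nil, one_mul, map_sub, map_one] at hD
  have hlen := rd_length [] l
  simp only [List.length_nil, pow_zero, add_zero] at hlen
  rw [Fintype.card_fin] at hm
  have hD' := hD.add D_one
  rw [sub_add_cancel, rs_P] at hD'
  apply h
  rw [rs_P]
  exact P_iso (NZ_alg hl) (by rw [List.length_map]; omega) hD'

lemma iso_map {n : ℕ} {w : Fin n → F} (h : Iso w) : Iso (fun i => algebraMap F E (w i)) := by
  obtain ⟨v, hv, h⟩ := h
  refine ⟨fun i => algebraMap F E (v i), ?_, ?_⟩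
  · intro h0
    apply hv
    ext i
    exact (map_eq_zero _).mp (congrFun h0 i)
  · have := congrArg (algebraMap F E) h
    rw [map_sum, map_zero] at this
    rw [← this]
    exact Finset.sum_congr rfl fun i _ => by rw [map_mul, map_pow]

/-- Two Pfister forms over `F` which do not vanish over `E` have a common slot over `E`. -/
theorem slot (h2 : (2 : F) ≠ 0) (hA : A1 F) (h : Quad F E d δ) {k : ℕ} (hk : 2 ≤ k) {l l' : List F}
    (hl : NZ l) (hl' : NZ l') (hlen : l.length = k) (hlen' : l'.length = k)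
    (hz : rs F E (P l) ≠ 0) (hz' : rs F E (P l') ≠ 0) :
    ∃ t : E, t ≠ 0 ∧ (∃ r : List F, NZ r ∧ r.length + 1 = k ∧
      rs F E (P l) = (1 + cz t) * rs F E (P r)) ∧
      ∃ r : List F, NZ r ∧ r.length + 1 = k ∧
      rs F E (P l') = (1 + cz t) * rs F E (P r) := by
  have hE2 : (2 : E) ≠ 0 := by
    have := (map_ne_zero (algebraMap F E)).mpr h2
    rwa [map_ofNat] at this
  have hN := rd_length [] l
  have hN' := rd_length [] l'
  simp only [List.length_nil, pow_zero, add_zero] at hN hN'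
  rw [hlen] at hN
  rw [hlen'] at hN'
  have h4 : 4 ≤ 2 ^ k := by
    calc 4 = 2 ^ 2 := by norm_num
      _ ≤ 2 ^ k := Nat.pow_le_pow_right (by norm_num) hk
  have heven : Even (2 ^ k) := by
    rw [Nat.even_pow]
    exact ⟨even_two, by omega⟩
  have hanE := rs_ne_zero_aniso hE2 hl hz
  have hanE' := rs_ne_zero_aniso hE2 hl' hz'
  set w : Fin (rd [] l).length → F := fun i => (rd [] l).get i with hw
  set w' : Fin (rd [] l').length → F := fun i => (rd [] l').get i with hw'
  have hwne : ∀ i, w i ≠ 0 := get_ne (rd_NZ NZ_nil hl)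
  have hwne' : ∀ i, w' i ≠ 0 := get_ne (rd_NZ NZ_nil hl')
  have hcl : cl w = P l - 1 := by rw [hw, cl_get, lcl_rd, P_nil, one_mul]
  have hcl' : cl w' = P l' - 1 := by rw [hw', cl_get, lcl_rd, P_nil, one_mul]
  have han : ¬ Iso w := fun hI => hanE (iso_map hI)
  have han' : ¬ Iso w' := fun hI => hanE' (iso_map hI)
  have hodd : Odd (2 ^ k - 1) := by
    obtain ⟨j, hj⟩ := heven
    exact ⟨j - 1, by omega⟩
  obtain ⟨u, v, huv, h3, h4'⟩ := hA.use h.nsq (k := 2 ^ k - 1) hodd
    (by rw [Fintype.card_sum, Fintype.card_fin, Fintype.card_fin]; omega)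
    (Sum.elim w (fun i => - w' i)) (by
      rintro (i | i)
      · exact hwne i
      · exact neg_ne_zero.mpr (hwne' i)) (by
      rw [cl_sum, cl_neg, hcl, hcl']
      have h5 := sub_mem (G2_P hl (by omega)) (G2_P hl' (by omega))
      convert h5 using 1
      ring)
  obtain ⟨hzne, hzv⟩ := h.iso' _ u v huv h3 h4'
  rw [Fintype.sum_sum_type] at hzv
  simp only [Sum.elim_inl, Sum.elim_inr] at hzv
  set t : E := ∑ i, algebraMap F E (w i) * (algebraMap F E (u (Sum.inl i))
    + algebraMap F E (v (Sum.inl i)) * δ) ^ 2 with ht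
  have ht' : t = ∑ i, algebraMap F E (w' i) * (algebraMap F E (u (Sum.inr i))
    + algebraMap F E (v (Sum.inr i)) * δ) ^ 2 := by
    have : ∑ i, algebraMap F E (- w' i) * (algebraMap F E (u (Sum.inr i))
        + algebraMap F E (v (Sum.inr i)) * δ) ^ 2
        = - ∑ i, algebraMap F E (w' i) * (algebraMap F E (u (Sum.inr i))
        + algebraMap F E (v (Sum.inr i)) * δ) ^ 2 := by
      rw [← Finset.sum_neg_distrib]
      exact Finset.sum_congr rfl fun i _ => by rw [map_neg]; ring
    rw [this] at hzv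
    linear_combination hzv
  have ht0 : t ≠ 0 := by
    intro ht0
    apply hzne
    have hl0 : ∀ i, algebraMap F E (u (Sum.inl i)) + algebraMap F E (v (Sum.inl i)) * δ = 0 := by
      by_contra hc
      apply hanE
      refine ⟨fun i => algebraMap F E (u (Sum.inl i)) + algebraMap F E (v (Sum.inl i)) * δ, ?_, ?_⟩
      · intro h0; exact hc fun i => congrFun h0 i
      · rw [← ht0]
    have hr0 : ∀ i, algebraMap F E (u (Sum.inr i)) + algebraMap F E (v (Sum.inr i)) * δ = 0 := by
      by_contra hc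
      apply hanE'
      refine ⟨fun i => algebraMap F E (u (Sum.inr i)) + algebraMap F E (v (Sum.inr i)) * δ, ?_, ?_⟩
      · intro h0; exact hc fun i => congrFun h0 i
      · rw [← ht0, ht']
    ext j
    rcases j with j | j
    · exact hl0 j
    · exact hr0 j
  have huvl : (fun i => u (Sum.inl i)) ≠ 0 ∨ (fun i => v (Sum.inl i)) ≠ 0 := by
    by_contra hc
    rw [not_or, not_not, not_not] at hc
    apply ht0
    rw [ht]
    refine Finset.sum_eq_zero fun i _ => ?_
    have e1 : u (Sum.inl i) = 0 := congrFun hc.1 i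
    have e2 : v (Sum.inl i) = 0 := congrFun hc.2 i
    rw [e1, e2]; simp
  have huvr : (fun i => u (Sum.inr i)) ≠ 0 ∨ (fun i => v (Sum.inr i)) ≠ 0 := by
    by_contra hc
    rw [not_or, not_not, not_not] at hc
    apply ht0
    rw [ht']
    refine Finset.sum_eq_zero fun i _ => ?_
    have e1 : u (Sum.inr i) = 0 := congrFun hc.1 i
    have e2 : v (Sum.inr i) = 0 := congrFun hc.2 i
    rw [e1, e2]; simp
  -- one side
  have side : ∀ (l : List F), NZ l → l.length = k →
      ∀ (w : Fin (rd [] l).length → F), w = (fun i => (rd [] l).get i) → ¬ Iso w →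
      ∀ (u v : Fin (rd [] l).length → F), (u ≠ 0 ∨ v ≠ 0) →
      t = ∑ i, algebraMap F E (w i) * (algebraMap F E (u i) + algebraMap F E (v i) * δ) ^ 2 →
      ∃ r : List F, NZ r ∧ r.length + 1 = k ∧ rs F E (P l) = (1 + cz t) * rs F E (P r) := by
    intro l hl hlen w hw han u v huv ht
    have hN := rd_length [] l
    simp only [List.length_nil, pow_zero, add_zero] at hN
    rw [hlen] at hN
    have hwne : ∀ i, w i ≠ 0 := by rw [hw]; exact get_ne (rd_NZ NZ_nil hl)
    have hcl : cl w = P l - 1 := by rw [hw, cl_get, lcl_rd, P_nil, one_mul]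
    obtain ⟨p1, p2, hp1, hp2, m, hm, hD, α, β, hαβ⟩ := bin h2 (by omega) w hwne han u v huv δ
    rw [hcl] at hD
    obtain ⟨r, hr, hrn, hP⟩ := PS2 h2 hl hp1 hp2 (m := m) (by rw [hlen]; omega) hD
    refine ⟨(-(p1 * p2)) :: r, NZ_cons.2 ⟨neg_ne_zero.mpr (mul_ne_zero hp1 hp2), hrn⟩,
      by rw [List.length_cons]; omega, ?_⟩
    have hb := bin_val (t := t) ((map_ne_zero (algebraMap F E)).mpr hp1)
      ((map_ne_zero (algebraMap F E)).mpr hp2) ht0 (by rw [ht, hαβ])
    rw [hP, P_cons, cz_neg, map_mul cz p1 p2]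
    simp only [map_mul, map_add, map_one, map_sub, map_neg, mp_cz]
    set A := cz (algebraMap F E p1)
    set B := cz (algebraMap F E p2)
    linear_combination (rs F E (P r)) * hb
  refine ⟨t, ht0, side l hl hlen w hw han _ _ huvl rfl, side l' hl' hlen' w' hw' han' _ _ huvr ht'⟩

/-- If a multiple of a Pfister form over `F` comes from `F`, then the factor can be chosen in
`F`. -/
lemma descend (h2 : (2 : F) ≠ 0) (h : Quad F E d δ) {l : List F} (hl : NZ l) {t : E} (ht : t ≠ 0)
    {g : F} (hg : g ≠ 0) {y : W F} (hy : rs F E y = cz t * rs F E (cz g * P l)) :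
    ∃ n : F, n ≠ 0 ∧ cz t * rs F E (P l) = rs F E (cz n * P l) := by
  have hE2 : (2 : E) ≠ 0 := by
    have := (map_ne_zero (algebraMap F E)).mpr h2
    rwa [map_ofNat] at this
  have hPD : ∀ s : List E, NZ s → D (2 ^ s.length) (P s) := by
    intro s hs
    rw [← lcl_fd, ← cl_get]
    exact D_of (by rw [Fintype.card_fin, fd_length]) _ (get_ne (fd_NZ hs))
  by_cases hz : rs F E (P l) = 0
  · exact ⟨1, one_ne_zero, by rw [map_mul, hz, mul_zero, mul_zero]⟩
  have hφg : algebraMap F E g ≠ 0 := (map_ne_zero _).mpr hg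
  set s : List E := l.map (algebraMap F E) with hs
  have hsNZ : NZ s := NZ_alg hl
  have hslen : s.length = l.length := List.length_map _
  rw [rs_P] at hz
  -- the anisotropic dimension
  have han : an (P s) = 2 ^ l.length := by
    apply le_antisymm
    · rw [← hslen]; exact an_le (hPD s hsNZ)
    · by_contra hlt
      exact hz (P_iso hsNZ (by rw [hslen]; exact not_le.mp hlt) (an_spec _))
  have hy' : rs F E y = cz (t * algebraMap F E g) * P s := by
    rw [hy, map_mul, mp_cz, rs_P, map_mul]; ring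
  have htg : t * algebraMap F E g ≠ 0 := mul_ne_zero ht hφg
  have hany : an (rs F E y) = 2 ^ l.length := by
    apply le_antisymm
    · rw [hy', ← han]; exact an_smul _ htg
    · rw [← han]
      have e1 : P s = cz (t * algebraMap F E g) * rs F E y := by
        rw [hy', ← mul_assoc, cz_sq htg, one_mul]
      calc an (P s) = an (cz (t * algebraMap F E g) * rs F E y) := by rw [← e1]
        _ ≤ an (rs F E y) := an_smul _ htg
  obtain ⟨x0, y', hxy, hanx⟩ := dsc h2 h y
  rw [hany] at hanx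
  have hrsx : rs F E x0 = rs F E y := by
    rw [hxy, map_add, map_mul, h.rs_d, zero_mul, add_zero]
  obtain ⟨w0, hw0, hcl0⟩ := an_spec x0
  have hpos : 0 < an x0 := by rw [hanx]; positivity
  set n0 : F := w0 ⟨0, hpos⟩ with hn0
  have hn0ne : n0 ≠ 0 := hw0 _
  obtain ⟨m, hm, hD⟩ := split_val w0 hw0 (Pi.single ⟨0, hpos⟩ 1) hn0ne (by
    rw [Finset.sum_eq_single ⟨0, hpos⟩]
    · rw [Pi.single_eq_same, hn0]; ring
    · intro j _ hj
      rw [Pi.single_eq_of_ne hj]; ring
    · intro h0; exact absurd (Finset.mem_univ _) h0)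
  rw [hcl0] at hD
  have hD1 := hD.rs (E := E)
  rw [map_sub, hrsx, hy', mp_cz] at hD1
  have hD2 := hD1.smul htg
  set t' : E := t * algebraMap F E g * algebraMap F E n0 with ht'
  have ht'0 : t' ≠ 0 := mul_ne_zero htg ((map_ne_zero _).mpr hn0ne)
  have hD3 : D m (P s - cz t') := by
    convert hD2 using 1
    rw [ht', map_mul cz (t * algebraMap F E g)]
    linear_combination (-P s) * cz_sq htg
  obtain ⟨v, hv⟩ := val_of_D hE2 (w := fun i : Fin (fd s).length => (fd s).get i)
    (get_ne (fd_NZ hsNZ)) ht'0 (m := m)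
    (by rw [Fintype.card_fin, fd_length, hslen]; omega)
    (by rw [cl_get, lcl_fd]; exact hD3)
  have hLV := LV_sum (fd s) v
  have hv' : ∑ i, (fd s).get i * v i ^ 2 = t' := hv
  rw [hv'] at hLV
  have hround := round hLV ht'0
  refine ⟨g * n0, mul_ne_zero hg hn0ne, ?_⟩
  rw [map_mul, mp_cz, rs_P, ← hs, map_mul (algebraMap F E)]
  have e2 : cz t' = cz t * cz (algebraMap F E g * algebraMap F E n0) := by
    rw [ht', mul_assoc, map_mul]
  have hgn : algebraMap F E g * algebraMap F E n0 ≠ 0 :=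
    mul_ne_zero hφg ((map_ne_zero _).mpr hn0ne)
  have e3 := cz_sq hgn
  rw [e2] at hround
  linear_combination (cz (algebraMap F E g * algebraMap F E n0)) * hround - (cz t * P s) * e3

/-- The image of the Witt ring of `F` in the Witt ring of `E` is linked. -/
theorem linked (h2 : (2 : F) ≠ 0) (hA : A1 F) (h : Quad F E d δ) {k : ℕ} (hk : 2 ≤ k) :
    ∀ l l' : List F, NZ l → NZ l' → l.length = k → l'.length = k →
      ∃ g : F, g ≠ 0 ∧ ∃ r : List F, NZ r ∧ r.length = k ∧
        rs F E (P l - P l') = rs F E (cz g * P r) := by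
  induction k, hk using Nat.le_induction with
  | base =>
    intro l l' hl hl' hlen hlen'
    match l, hl, hlen with
    | [a, b], hl, _ =>
      match l', hl', hlen' with
      | [c, e], hl', _ =>
        rw [NZ_cons, NZ_cons] at hl hl'
        obtain ⟨g, p, m, hg, hp, hm, y, hy⟩ := link2 h2 hA h.nsq hl.1 hl.2.1 hl'.1 hl'.2.1
        refine ⟨g, hg, [p, m], NZ_pair hp hm, rfl, ?_⟩
        rw [hy, map_add, map_mul (rs F E) (1 - cz d), h.rs_d, zero_mul, add_zero]
  | succ k hk ih =>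
    intro l l' hl hl' hlen hlen'
    by_cases hz : rs F E (P l) = 0
    · refine ⟨-1, neg_ne_zero.mpr one_ne_zero, l', hl', hlen', ?_⟩
      rw [map_sub, hz, map_mul, cz_neg, map_neg, map_one, map_one]; ring
    by_cases hz' : rs F E (P l') = 0
    · refine ⟨1, one_ne_zero, l, hl, hlen, ?_⟩
      rw [map_sub, hz', map_mul, map_one, map_one]; ring
    obtain ⟨t, ht, ⟨r, hr, hrl, hP⟩, r', hr', hrl', hP'⟩ := slot h2 hA h (by omega : 2 ≤ k + 1) hl hl'
      hlen hlen' hz hz'
    obtain ⟨g, hg, τ, hτ, hτl, hlink⟩ := ih r r' hr hr' (by omega) (by omega)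
    rw [map_sub] at hlink
    have h1 : rs F E (P l - P l') = (1 + cz t) * rs F E (cz g * P τ) := by
      rw [map_sub, hP, hP', ← hlink]; ring
    obtain ⟨n, hn, hdes⟩ := descend h2 h hτ ht hg (y := P l - P l' - cz g * P τ) (by
      rw [map_sub, h1]; ring)
    refine ⟨g, hg, (-n) :: τ, NZ_cons.2 ⟨neg_ne_zero.mpr hn, hτ⟩, by simp [hτl], ?_⟩
    rw [h1, P_cons, cz_neg]
    rw [map_mul] at hdes
    simp only [map_mul, map_sub, map_one, map_neg]
    linear_combination (rs F E (cz g)) * hdes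

end Pool.Agent.Run7.h314
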