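import Pool.Agent.Run7.h314.W6

/-!
# Vanishing of five-fold Pfister forms and the bound of the anisotropic dimensions
-/

set_option autoImplicit false

noncomputable section

namespace Pool.Agent.Run7.h314

open Module Polynomial

universe u v

variable {F : Type u} [Field F]

/-- Quadratic extensions exist. -/
lemma exists_quad {d : F} (hd : ¬ IsSquare d) :
    ∃ (E : Type u) (_ : Field E) (_ : Algebra F E) (δ : E), Quad F E d δ := by
  have hirr : Irreducible (X ^ 2 - C d : F[X]) :=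
    X_pow_sub_C_irreducible_of_prime Nat.prime_two (fun b hb => hd ⟨b, by rw [← hb, pow_two]⟩)
  have : Fact (Irreducible (X ^ 2 - C d : F[X])) := ⟨hirr⟩
  refine ⟨AdjoinRoot (X ^ 2 - C d : F[X]), inferInstance, inferInstance,
    AdjoinRoot.root _, ?_, hd, ?_⟩
  · have h := AdjoinRoot.eval₂_root (X ^ 2 - C d : F[X])
    rw [eval₂_sub, eval₂_pow, eval₂_X, eval₂_C] at h
    exact sub_eq_zero.mp h
  · intro z
    obtain ⟨p, rfl⟩ := AdjoinRoot.mk_surjective z
    have hmon : (X ^ 2 - C d : F[X]).Monic := monic_X_pow_sub_C d two_ne_zero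
    have h1 : AdjoinRoot.mk (X ^ 2 - C d : F[X]) p
        = AdjoinRoot.mk (X ^ 2 - C d : F[X]) (p %ₘ (X ^ 2 - C d)) := by
      conv_lhs => rw [← modByMonic_add_div p (X ^ 2 - C d : F[X])]
      rw [map_add, map_mul, AdjoinRoot.mk_self, zero_mul, add_zero]
    have hdeg : (p %ₘ (X ^ 2 - C d)).natDegree < 2 := by
      have := natDegree_modByMonic_lt p hmon (by
        intro h0
        have := congrArg natDegree h0
        rw [natDegree_X_pow_sub_C, natDegree_one] at this
        omega)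
      rwa [natDegree_X_pow_sub_C] at this
    have h3 : p %ₘ (X ^ 2 - C d) = C ((p %ₘ (X ^ 2 - C d)).coeff 0)
        + C ((p %ₘ (X ^ 2 - C d)).coeff 1) * X := by
      conv_lhs => rw [as_sum_range' (p %ₘ (X ^ 2 - C d)) 2 hdeg]
      rw [Finset.sum_range_succ, Finset.sum_range_one, monomial_zero_left, ← C_mul_X_eq_monomial]
    refine ⟨(p %ₘ (X ^ 2 - C d)).coeff 0, (p %ₘ (X ^ 2 - C d)).coeff 1, ?_⟩
    rw [h1]
    conv_lhs => rw [h3]
    rw [map_add, map_mul, AdjoinRoot.mk_X]
    rfl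

lemma D_P {l : List F} (hl : NZ l) : D (2 ^ l.length) (P l) := by
  rw [← lcl_fd, ← cl_get]
  exact D_of (by rw [Fintype.card_fin, fd_length]) _ (get_ne (fd_NZ hl))

lemma D_P' {l : List F} (hl : NZ l) : D (2 ^ l.length - 1) (P l - 1) := by
  have hlen := rd_length [] l
  simp only [List.length_nil, pow_zero, add_zero] at hlen
  have : P l - 1 = lcl (rd [] l) := by rw [lcl_rd, P_nil, one_mul]
  rw [this, ← cl_get]
  exact D_of (by rw [Fintype.card_fin]; omega) _ (get_ne (rd_NZ NZ_nil hl))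

lemma LV_fd {l : List F} {t : F} (h : LV (fd l) t) : ∃ x y, LV (rd [] l) y ∧ t = x ^ 2 + y := by
  induction l generalizing t with
  | nil =>
    obtain ⟨x, y', hy', rfl⟩ := h
    exact ⟨x, y', hy', by ring⟩
  | cons a l ih =>
    rw [fd, LV_append] at h
    obtain ⟨t1, t2, h1, h2, rfl⟩ := h
    obtain ⟨x, y, hy, rfl⟩ := ih h1
    refine ⟨x, y + t2, ?_, by ring⟩
    rw [rd, LV_append, List.append_nil]
    exact ⟨y, t2, hy, h2, rfl⟩

/-- The integer two in the Witt ring is the Pfister form `⟨1, 1⟩`. -/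
lemma two_eq : (2 : W F) = 1 - cz (-1) := by
  rw [cz_neg, map_one]; norm_num

lemma P_neg_one (l : List F) : P ((-1) :: l) = 2 * P l := by
  rw [P_cons, ← two_eq]

lemma two_zero_of_sq {E : Type v} [Field E] (h : IsSquare (-1 : E)) : (2 : W E) = 0 := by
  obtain ⟨r, hr⟩ := h
  have hr0 : r ≠ 0 := by
    rintro rfl
    rw [mul_zero] at hr
    exact neg_ne_zero.mpr one_ne_zero hr
  have h1 := cz_mul_sq (1 : E) hr0
  rw [one_mul, pow_two, ← hr, map_one] at h1
  rw [two_eq, h1, sub_self]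

/-- The sums of squares. -/
def NR (F : Type u) [Field F] : Prop := ∃ (k : ℕ) (a : Fin k → F), ∑ i, a i ^ 2 = -1

lemma two_nilp (h : NR F) : ∃ N, (2 : W F) ^ N = 0 := by
  obtain ⟨k, a, ha⟩ := h
  obtain ⟨m, hm, hD⟩ := split_iso (n := k + 1) (fun _ : Fin (k + 1) => (1 : F))
    (fun _ => one_ne_zero) (Fin.cons 1 a) (by
      intro h0
      have := congrFun h0 0
      simp at this) (by
      rw [Fin.sum_univ_succ]
      simp [ha])
  have hcl : cl (fun _ : Fin (k + 1) => (1 : F)) = ((k + 1 : ℕ) : W F) := by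
    simp [cl]
  rw [hcl] at hD
  have hones : ∀ j : ℕ, D (m + j) ((k + 1 + j : ℕ) : W F) := by
    intro j
    induction j with
    | zero => simpa using hD
    | succ j ih =>
      have e : ((k + 1 + (j + 1) : ℕ) : W F) = ((k + 1 + j : ℕ) : W F) + 1 := Nat.cast_succ _
      rw [e]
      exact ih.add D_one
  have hle : k + 1 ≤ 2 ^ (k + 1) := (Nat.lt_two_pow_self).le
  have h1 := hones (2 ^ (k + 1) - (k + 1))
  rw [Nat.add_sub_cancel' hle] at h1
  have hrep : ∀ n : ℕ, P (List.replicate n (-1 : F)) = 2 ^ n := by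
    intro n
    induction n with
    | zero => simp [P_nil]
    | succ n ih => rw [List.replicate_succ, P_neg_one, ih, pow_succ']
  refine ⟨k + 1, ?_⟩
  rw [← hrep]
  apply P_iso (m := m + (2 ^ (k + 1) - (k + 1)))
  · intro x hx
    rw [List.eq_of_mem_replicate hx]
    exact neg_ne_zero.mpr one_ne_zero
  · rw [List.length_replicate]; omega
  · rw [hrep]
    convert h1 using 1
    push_cast
    rfl

/-- A Pfister form killed by two has a slot which is a sum of two squares. -/
lemma neg_slot (h2 : (2 : F) ≠ 0) (hm1 : ¬ IsSquare (-1 : F)) {l : List F} (hl : NZ l)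
    (h2l : 2 * P l = 0) : ∃ (w : F) (l' : List F), w ≠ 0 ∧ 2 * (1 - cz w) = 0 ∧ NZ l' ∧
      l'.length + 1 = l.length ∧ P l = (1 - cz w) * P l' := by
  have hm0 : (-1 : F) ≠ 0 := neg_ne_zero.mpr one_ne_zero
  have h3 : D (2 ^ l.length - 1) (P l - cz (-1)) := by
    have := (D_P' hl).smul hm0
    convert this using 1
    rw [cz_neg, map_one]
    linear_combination h2l
  obtain ⟨v, hv⟩ := val_of_D h2 (w := fun i : Fin (fd l).length => (fd l).get i)
    (get_ne (fd_NZ hl)) hm0 (m := 2 ^ l.length - 1)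
    (by
      rw [Fintype.card_fin, fd_length]
      have := Nat.two_pow_pos l.length
      omega)
    (by rw [cl_get, lcl_fd]; exact h3)
  have hLV := LV_sum (fd l) v
  have hv' : ∑ i, (fd l).get i * v i ^ 2 = -1 := hv
  rw [hv'] at hLV
  obtain ⟨x, y, hy, hxy⟩ := LV_fd hLV
  have hy0 : y ≠ 0 := by
    rintro rfl
    exact hm1 ⟨x, by rw [hxy]; ring⟩
  obtain ⟨l', hlen, hl', hP⟩ := pure_subform (r := []) hl hy hy0
  rw [P_nil, one_mul, one_mul] at hP
  refine ⟨-y, l', neg_ne_zero.mpr hy0, ?_, hl', hlen, by rw [hP, cz_neg]; ring⟩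
  have hw : -y = 1 + x ^ 2 := by linear_combination hxy
  rw [hw]
  by_cases hx : x = 0
  · rw [hx]
    have : (1 : F) + 0 ^ 2 = 1 := by ring
    rw [this, map_one]; ring
  · have hne : (1 : F) + x ^ 2 ≠ 0 := by rw [← hw]; exact neg_ne_zero.mpr hy0
    have e1 := cz_add (1 : F) (x ^ 2)
    have e2 : cz (x ^ 2) = (1 : W F) := by
      have := cz_mul_sq (1 : F) hx
      rwa [one_mul, map_one] at this
    have e3 : cz (1 * x ^ 2 * (1 + x ^ 2)) = cz (1 + x ^ 2) := by
      rw [one_mul, mul_comm, cz_mul_sq _ hx]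
    rw [e2, e3, map_one] at e1
    linear_combination e1

section ext

variable {E : Type v} [Field E] [Algebra F E] {d : F} {δ : E}

/-- Four-fold Pfister forms over `E`. -/
lemma four_eq (h2 : (2 : F) ≠ 0) (hA : A1 F) (h : Quad F E d δ) {a b c e : F} (ha : a ≠ 0)
    (hb : b ≠ 0) (hc : c ≠ 0) (he : e ≠ 0) :
    ∃ x : W E, rs F E (P [a, b, c, e]) = 2 * rs F E (P [a, b]) * x := by
  have hprod : P [a, b, c, e] = P [a, b] * P [c, e] := P_append [a, b] [c, e]
  by_cases hz : rs F E (P [a, b]) = 0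
  · exact ⟨0, by rw [hprod, map_mul, hz]; ring⟩
  by_cases hz' : rs F E (P [c, e]) = 0
  · exact ⟨0, by rw [hprod, map_mul, hz']; ring⟩
  obtain ⟨t, ht, ⟨r, hr, hrl, hP⟩, r', hr', hrl', hP'⟩ := slot h2 hA h le_rfl (NZ_pair ha hb)
    (NZ_pair hc he) rfl rfl hz hz'
  refine ⟨rs F E (P r'), ?_⟩
  rw [hprod, map_mul, hP, hP']
  have := cz_sq ht
  linear_combination (rs F E (P r) * rs F E (P r')) * this

lemma four_zero_of_two (h2 : (2 : F) ≠ 0) (hA : A1 F) (h : Quad F E d δ) (h2E : (2 : W E) = 0)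
    {l : List F} (hl : NZ l) (hlen : 4 ≤ l.length) : rs F E (P l) = 0 := by
  match l, hl, hlen with
  | a :: b :: c :: e :: r, hl, _ =>
    simp only [NZ_cons] at hl
    obtain ⟨x, hx⟩ := four_eq h2 hA h hl.1 hl.2.1 hl.2.2.1 hl.2.2.2.1
    have : P (a :: b :: c :: e :: r) = P [a, b, c, e] * P r := P_append [a, b, c, e] r
    rw [this, map_mul, hx, h2E]; ring

end ext

/-- Five-fold Pfister forms vanish. -/
theorem five_zero (h2 : (2 : F) ≠ 0) (hA : A1 F) (hNR : NR F) {l : List F} (hl : NZ l)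
    (hlen : 5 ≤ l.length) : P l = 0 := by
  by_cases hm1 : IsSquare (-1 : F)
  · -- the integer two vanishes in the Witt ring
    have h20 := two_zero_of_sq hm1
    match l, hl, hlen with
    | d :: r, hl, hlen =>
      rw [NZ_cons] at hl
      rw [P_cons]
      by_cases hd : IsSquare d
      · obtain ⟨s, hs⟩ := hd
        have hs0 : s ≠ 0 := by
          rintro rfl
          exact hl.1 (by rw [hs, mul_zero])
        have h1 := cz_mul_sq (1 : F) hs0
        rw [one_mul, pow_two, ← hs, map_one] at h1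
        rw [h1, sub_self, zero_mul]
      · obtain ⟨E, _, _, δ, hE⟩ := exists_quad hd
        have h2E : (2 : W E) = 0 := by
          have := congrArg (rs F E) h20
          rwa [map_ofNat, map_zero] at this
        have h4 := four_zero_of_two h2 hA hE h2E hl.2 (by
          rw [List.length_cons] at hlen; omega)
        obtain ⟨y, hy⟩ := ker_rs h2 hE _ h4
        rw [hy]
        have := cz_sq hl.1
        linear_combination y * this + (1 - cz d) * y * h20
  · -- `2` divides the four-fold Pfister forms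
    have hdiv : ∀ r : List F, NZ r → 4 ≤ r.length → ∃ y : W F, P r = 2 * y := by
      intro r hr hrlen
      obtain ⟨E, _, _, δ, hE⟩ := exists_quad hm1
      have h2E : (2 : W E) = 0 := by
        apply two_zero_of_sq
        refine ⟨δ, ?_⟩
        rw [← pow_two, hE.sq, map_neg, map_one]
      obtain ⟨y, hy⟩ := ker_rs h2 hE _ (four_zero_of_two h2 hA hE h2E hr hrlen)
      exact ⟨y, by rw [hy, two_eq]⟩
    have hstep : ∀ r : List F, NZ r → 5 ≤ r.length → 2 * P r = 0 → P r = 0 := by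
      intro r hr hrlen h20
      obtain ⟨w, r', hw, hw2, hr', hrl', hP⟩ := neg_slot h2 hm1 hr h20
      obtain ⟨y, hy⟩ := hdiv r' hr' (by omega)
      rw [hP, hy]
      linear_combination y * hw2
    have hall : ∀ j : ℕ, (2 : W F) ^ j * P l = 0 → P l = 0 := by
      intro j
      induction j with
      | zero => intro h; simpa using h
      | succ j ih =>
        intro h
        apply ih
        have hrep : ∀ n : ℕ, P (List.replicate n (-1 : F) ++ l) = 2 ^ n * P l := by
          intro n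
          induction n with
          | zero => simp
          | succ n ih => rw [List.replicate_succ, List.cons_append, P_neg_one, ih, pow_succ']; ring
        rw [← hrep]
        apply hstep
        · rw [NZ_append]
          refine ⟨?_, hl⟩
          intro x hx
          rw [List.eq_of_mem_replicate hx]
          exact neg_ne_zero.mpr one_ne_zero
        · rw [List.length_append]; omega
        · rw [hrep, ← h, pow_succ']; ring
    obtain ⟨N, hN⟩ := two_nilp hNR
    exact hall N (by rw [hN, zero_mul])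

section ext2

variable {E : Type v} [Field E] [Algebra F E] {d : F} {δ : E}

/-- Four-fold Pfister forms vanish over quadratic extensions. -/
theorem four_zero (h2 : (2 : F) ≠ 0) (hA : A1 F) (hNR : NR F) (h : Quad F E d δ)
    {l : List F} (hl : NZ l) (hlen : l.length = 4) : rs F E (P l) = 0 := by
  by_cases hm1 : IsSquare (-1 : F)
  · have h20 := two_zero_of_sq hm1
    have h2E : (2 : W E) = 0 := by
      have := congrArg (rs F E) h20
      rwa [map_ofNat, map_zero] at this
    exact four_zero_of_two h2 hA h h2E hl (by omega)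
  · have h5 : 2 * P l = 0 := by
      rw [← P_neg_one]
      exact five_zero h2 hA hNR (NZ_cons.2 ⟨neg_ne_zero.mpr one_ne_zero, hl⟩)
        (by rw [List.length_cons]; omega)
    obtain ⟨w, r, hw, hw2, hr, hrl, hP⟩ := neg_slot h2 hm1 hl h5
    match r, hr, hrl with
    | [b, c, e], hr, _ =>
      simp only [NZ_cons] at hr
      obtain ⟨x, hx⟩ := four_eq h2 hA h hw hr.1 hr.2.1 hr.2.2.1
      rw [hP, ← P_cons, hx]
      have : (2 : W E) * rs F E (P [w, b]) = rs F E (2 * (1 - cz w) * P [b]) := by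
        rw [P_cons]
        simp only [map_mul, map_ofNat]
        ring
      rw [this, hw2, zero_mul, map_zero, zero_mul]
    | [], _, hrl => simp at hrl; omega
    | [_], _, hrl => simp at hrl; omega
    | [_, _], _, hrl => simp at hrl; omega
    | _ :: _ :: _ :: _ :: _, _, hrl => simp at hrl; omega

lemma P_one (l : List F) : P (1 :: l) = 0 := by
  rw [P_cons, map_one, sub_self, zero_mul]

/-- The sum of two scaled Pfister forms. -/
lemma comb (h2 : (2 : F) ≠ 0) (hA : A1 F) (h : Quad F E d δ) {k : ℕ} (hk : 2 ≤ k) {a b : F}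
    (ha : a ≠ 0) (hb : b ≠ 0) {l l' : List F} (hl : NZ l) (hl' : NZ l') (hlen : l.length = k)
    (hlen' : l'.length = k) : ∃ g : F, g ≠ 0 ∧ ∃ r : List F, NZ r ∧ r.length = k ∧
      rs F E (cz a * P l + cz b * P l') = rs F E (cz g * P r + cz a * P ((-(a * b)) :: l')) := by
  obtain ⟨g, hg, r, hr, hrl, hlink⟩ := linked h2 hA h hk l l' hl hl' hlen hlen'
  refine ⟨a * g, mul_ne_zero ha hg, r, hr, hrl, ?_⟩
  have e1 : cz a * P l + cz b * P l' = cz a * (P l - P l') + cz a * P ((-(a * b)) :: l') := by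
    rw [P_cons, cz_neg, map_mul]
    linear_combination (-(cz b * P l')) * cz_sq ha
  rw [e1, map_add, map_add, map_mul (rs F E) (cz a) (P l - P l'), hlink]
  simp only [map_mul]
  ring

/-- The image of `I²`. -/
theorem image_G2 (h2 : (2 : F) ≠ 0) (hA : A1 F) (hNR : NR F) (h : Quad F E d δ) {x : W F}
    (hx : x ∈ G2 F) : ∃ a b : F, a ≠ 0 ∧ b ≠ 0 ∧ ∃ l r : List F, NZ l ∧ NZ r ∧ l.length = 2 ∧
      r.length = 3 ∧ rs F E x = rs F E (cz a * P l + cz b * P r) := by
  have three : ∀ a b : F, a ≠ 0 → b ≠ 0 → ∀ l r : List F, NZ l → NZ r → l.length = 3 →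
      r.length = 3 → ∃ c : F, c ≠ 0 ∧ ∃ s : List F, NZ s ∧ s.length = 3 ∧
      rs F E (cz a * P l + cz b * P r) = rs F E (cz c * P s) := by
    intro a b ha hb l r hl hr hlen hrlen
    obtain ⟨g, hg, s, hs, hsl, hsum⟩ := comb h2 hA h (by norm_num : 2 ≤ 3) ha hb hl hr hlen hrlen
    refine ⟨g, hg, s, hs, hsl, ?_⟩
    rw [hsum, map_add, map_mul (rs F E) (cz a), four_zero h2 hA hNR h
      (NZ_cons.2 ⟨neg_ne_zero.mpr (mul_ne_zero ha hb), hr⟩) (by rw [List.length_cons, hrlen]),
      mul_zero, add_zero]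
  have hN1 : ∀ n : ℕ, NZ (List.replicate n (1 : F)) := by
    intro n y hy
    rw [List.eq_of_mem_replicate hy]
    exact one_ne_zero
  unfold G2 at hx
  induction hx using AddSubgroup.closure_induction with
  | mem x hx =>
    obtain ⟨g, a, b, hg, ha, hb, rfl⟩ := hx
    refine ⟨g, 1, hg, one_ne_zero, [a, b], List.replicate 3 1, NZ_pair ha hb, hN1 3, rfl, rfl, ?_⟩
    rw [List.replicate_succ, P_one, mul_zero, add_zero]
  | zero =>
    refine ⟨1, 1, one_ne_zero, one_ne_zero, [1, 1], [1, 1, 1], hN1 2, hN1 3,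
      rfl, rfl, ?_⟩
    rw [P_one, P_one, mul_zero, add_zero, map_zero]
  | add x y _ _ hx hy =>
    obtain ⟨a, b, ha, hb, l, r, hl, hr, hlen, hrlen, hxe⟩ := hx
    obtain ⟨a', b', ha', hb', l', r', hl', hr', hlen', hrlen', hye⟩ := hy
    obtain ⟨g, hg, s, hs, hsl, hsum⟩ := comb h2 hA h le_rfl ha ha' hl hl' hlen hlen'
    obtain ⟨c1, hc1, s1, hs1, hsl1, hsum1⟩ := three b b' hb hb' r r' hr hr' hrlen hrlen'
    obtain ⟨c2, hc2, s2, hs2, hsl2, hsum2⟩ := three a c1 ha hc1 ((-(a * a')) :: l') s1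
      (NZ_cons.2 ⟨neg_ne_zero.mpr (mul_ne_zero ha ha'), hl'⟩) hs1 (by rw [List.length_cons, hlen'])
      hsl1
    refine ⟨g, c2, hg, hc2, s, s2, hs, hs2, hsl, hsl2, ?_⟩
    simp only [map_add] at hxe hye hsum hsum1 hsum2 ⊢
    linear_combination hxe + hye + hsum + hsum1 + hsum2
  | neg x _ hx =>
    obtain ⟨a, b, ha, hb, l, r, hl, hr, hlen, hrlen, hxe⟩ := hx
    refine ⟨-a, -b, neg_ne_zero.mpr ha, neg_ne_zero.mpr hb, l, r, hl, hr, hlen, hrlen, ?_⟩
    rw [map_neg, hxe, cz_neg, cz_neg, ← map_neg]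
    congr 1
    ring

end ext2

/-- The structure of `I²`. -/
lemma struct_G2 (h2 : (2 : F) ≠ 0) (hA : A1 F) (hNR : NR F) {d : F} (hd : ¬ IsSquare d) {x : W F}
    (hx : x ∈ G2 F) : ∃ a b : F, a ≠ 0 ∧ b ≠ 0 ∧ ∃ l r : List F, NZ l ∧ NZ r ∧ l.length = 2 ∧
      r.length = 3 ∧ ∃ y : W F, x = cz a * P l + cz b * P r + (1 - cz d) * y := by
  obtain ⟨E, _, _, δ, hE⟩ := exists_quad hd
  obtain ⟨a, b, ha, hb, l, r, hl, hr, hlen, hrlen, hxe⟩ := image_G2 h2 hA hNR hE hx
  obtain ⟨y, hy⟩ := ker_rs h2 hE (x - (cz a * P l + cz b * P r)) (by rw [map_sub, hxe, sub_self])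
  exact ⟨a, b, ha, hb, l, r, hl, hr, hlen, hrlen, y, by linear_combination hy⟩

/-- Every class is congruent modulo `I²` to a form of dimension at most two. -/
lemma dec (n : ℕ) : ∀ x : W F, D n x → ∃ m, m ≤ 2 ∧ ∃ x0 : W F, D m x0 ∧ x - x0 ∈ G2 F := by
  induction n using Nat.strong_induction_on with
  | _ n ih =>
    intro x hx
    rcases Nat.lt_or_ge n 3 with hn | hn
    · exact ⟨n, by omega, x, hx, by rw [sub_self]; exact zero_mem _⟩
    · obtain ⟨k, rfl⟩ : ∃ k, n = k + 3 := ⟨n - 3, by omega⟩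
      obtain ⟨w, hw, hcl⟩ := hx
      have h0 := hw 0
      have h1 := hw 1
      have h2 := hw 2
      have hx : x = cz (w 0) + (cz (w 1) + (cz (w 2) +
          cl (fun i : Fin k => w i.succ.succ.succ))) := by
        rw [← hcl]
        unfold cl
        rw [Fin.sum_univ_succ, Fin.sum_univ_succ, Fin.sum_univ_succ]
        rfl
      have hrest : D k (cl (fun i : Fin k => w i.succ.succ.succ)) := ⟨_, fun i => hw _, rfl⟩
      have h012 : w 0 * w 1 * w 2 ≠ 0 := mul_ne_zero (mul_ne_zero h0 h1) h2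
      have hD := hrest.add (D_cz (neg_ne_zero.mpr h012))
      obtain ⟨m, hm, x0, hx0, hG⟩ := ih (k + 1) (by omega) _ hD
      refine ⟨m, hm, x0, hx0, ?_⟩
      have hgen := G2_gen h0 (neg_ne_zero.mpr (mul_ne_zero h0 h1))
        (neg_ne_zero.mpr (mul_ne_zero h0 h2))
      have := add_mem hG hgen
      convert this using 1
      rw [hx, P_cons, P_cons, P_nil, cz_neg, cz_neg, cz_neg]
      simp only [map_mul]
      have e0 := cz_sq h0
      linear_combination (-cz (w 1) - cz (w 2) - cz (w 0) * cz (w 1) * cz (w 2)) * e0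

/-- The bound in the main case. -/
theorem bound_main (h2 : (2 : F) ≠ 0) (hA : A1 F) (hNR : NR F) {d : F} (hd : ¬ IsSquare d)
    (hd' : ¬ IsSquare (-d)) (x : W F) : an x ≤ 42 := by
  have hd0 : d ≠ 0 := by rintro rfl; exact hd ⟨0, by simp⟩
  have dle : ∀ {m n : ℕ} {z : W F}, D m z → m ≤ n → an z ≤ n := fun h hmn => (an_le h).trans hmn
  obtain ⟨n, hn⟩ := exists_D x
  obtain ⟨m, hm, x0, hx0, hG⟩ := dec n x hn
  obtain ⟨a, b, ha, hb, l, r, hl, hr, hlen, hrlen, y, hy⟩ := struct_G2 h2 hA hNR hd hG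
  obtain ⟨n', hn'⟩ := exists_D y
  obtain ⟨m', hm', y0, hy0, hG'⟩ := dec n' y hn'
  obtain ⟨a', b', ha', hb', l', r', hl', hr', hlen', hrlen', y', hy'⟩ :=
    struct_G2 h2 hA hNR hd' hG'
  have hx : x = x0 + (cz a * P l + cz b * P r) + (1 - cz d) * y0
      + (cz a' * P (d :: l') + cz b' * P (d :: r')) := by
    have e1 : (1 - cz d) * (1 - cz (-d)) = 0 := by
      rw [cz_neg]
      linear_combination (-1 : W F) * cz_sq hd0
    rw [P_cons, P_cons]
    linear_combination hy + (1 - cz d) * hy' + y' * e1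
  have k1 : an x0 ≤ 2 := dle hx0 hm
  have k2 : an (cz a * P l) ≤ 4 := dle ((D_P hl).smul ha) (by rw [hlen]; norm_num)
  have k3 : an (cz b * P r) ≤ 8 := dle ((D_P hr).smul hb) (by rw [hrlen]; norm_num)
  have k4 : an ((1 - cz d) * y0) ≤ 4 := by
    have h1 : D (1 + 1) (1 - cz d) := D_one.sub (D_cz hd0)
    exact dle (h1.mul hy0) (by omega)
  have k5 : an (cz a' * P (d :: l')) ≤ 8 :=
    dle ((D_P (NZ_cons.2 ⟨hd0, hl'⟩)).smul ha') (by rw [List.length_cons, hlen']; norm_num)
  have k6 : an (cz b' * P (d :: r')) ≤ 16 :=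
    dle ((D_P (NZ_cons.2 ⟨hd0, hr'⟩)).smul hb') (by rw [List.length_cons, hrlen']; norm_num)
  rw [hx]
  have s1 := an_add (x0 + (cz a * P l + cz b * P r) + (1 - cz d) * y0)
    (cz a' * P (d :: l') + cz b' * P (d :: r'))
  have s2 := an_add (x0 + (cz a * P l + cz b * P r)) ((1 - cz d) * y0)
  have s3 := an_add x0 (cz a * P l + cz b * P r)
  have s4 := an_add (cz a * P l) (cz b * P r)
  have s5 := an_add (cz a' * P (d :: l')) (cz b' * P (d :: r'))
  omega

end Pool.Agent.Run7.h314
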