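import Pool.Agent.Run7.h314.W7
import Pool.Agent.Y604.Z1.Main

/-!
# Fields with torsion index less than eight have the basic property
-/

set_option autoImplicit false

noncomputable section

namespace Pool.Agent.Run7.h314

open Module Polynomial

universe u v

section small

variable {E : Type u} [Field E] {L : Type v} [Field L] [Algebra E L]

lemma exists_poly {n : ℕ} (hn : n.Prime) (h : finrank E L = n) (θ : L)
    (hθ : θ ∉ Set.range (algebraMap E L)) (z : L) : ∃ p : E[X], aeval θ p = z := by
  have : FiniteDimensional E L := FiniteDimensional.of_finrank_pos (by rw [h]; exact hn.pos)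
  have htop : IntermediateField.adjoin E {θ} = ⊤ := by
    have hdvd : finrank E (IntermediateField.adjoin E {θ}) ∣ n := by
      rw [← h]; exact ⟨_, (finrank_mul_finrank E (IntermediateField.adjoin E {θ}) L).symm⟩
    rcases (Nat.dvd_prime hn).1 hdvd with h1 | h1
    · exfalso
      rw [IntermediateField.finrank_eq_one_iff] at h1
      apply hθ
      rw [← IntermediateField.mem_bot, ← h1]
      exact IntermediateField.mem_adjoin_simple_self E θ
    · exact IntermediateField.eq_of_le_of_finrank_eq le_top
        (by rw [h1, IntermediateField.finrank_top', h])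
  have hz : z ∈ (IntermediateField.adjoin E {θ}).toSubalgebra := by rw [htop]; trivial
  rw [IntermediateField.adjoin_simple_toSubalgebra_of_isAlgebraic (IsAlgebraic.of_finite E θ),
    Algebra.adjoin_singleton_eq_range_aeval] at hz
  exact hz

lemma exists_gen {n : ℕ} (hn : n.Prime) (h : finrank E L = n) :
    ∃ θ : L, θ ∉ Set.range (algebraMap E L) := by
  by_contra hc
  push Not at hc
  have hb : Function.Bijective (algebraMap E L) := ⟨(algebraMap E L).injective, hc⟩
  rw [← Algebra.finrank_eq_one_iff_bijective_algebraMap, h] at hb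
  exact hn.one_lt.ne' hb

/-- Springer's theorem in degree three. -/
lemma no_cubic (h : finrank E L = 3) {n : ℕ} (w : Fin n → E) (han : ¬ Iso w)
    (hI : Iso (fun i => algebraMap E L (w i))) : False := by
  obtain ⟨θ, hθ⟩ := exists_gen (by norm_num) h
  have : FiniteDimensional E L := FiniteDimensional.of_finrank_pos (by rw [h]; norm_num)
  obtain ⟨z, hz, hz2⟩ := hI
  choose p hp using fun i => exists_poly (by norm_num) h θ hθ (z i)
  have hint : IsIntegral E θ := IsIntegral.of_finite E θ
  have hdeg : (minpoly E θ).natDegree = 3 := by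
    have h1 : (minpoly E θ).natDegree ∣ 3 := by rw [← h]; exact minpoly.degree_dvd hint
    rcases (Nat.dvd_prime (by norm_num)).1 h1 with h2 | h2
    · exfalso
      apply hθ
      rw [minpoly.natDegree_eq_one_iff] at h2
      exact h2
    · exact h2
  refine Y604.Z1.springer_poly (fun i j => if i = j then w i else 0) ?_ 3 (minpoly E θ)
    (minpoly.irreducible hint) (by rw [hdeg]; decide) hdeg p ?_ ?_
  · intro x hx
    by_contra hx0
    apply han
    refine ⟨x, hx0, ?_⟩
    rw [← hx]
    refine Finset.sum_congr rfl fun i _ => ?_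
    simp only [ite_mul, zero_mul, Finset.sum_ite_eq, Finset.mem_univ, if_true]
    ring
  · by_contra hc
    push Not at hc
    apply hz
    ext i
    have := (minpoly.dvd_iff (A := E) (x := θ)).1 (hc i)
    rw [hp i] at this
    exact this
  · rw [minpoly.dvd_iff, map_sum, ← hz2]
    refine Finset.sum_congr rfl fun i _ => ?_
    rw [map_sum]
    rw [Finset.sum_eq_single i]
    · rw [if_pos rfl, map_mul, map_mul, aeval_C, hp i]; ring
    · intro j _ hj
      rw [if_neg (Ne.symm hj), map_zero, zero_mul, zero_mul, map_zero]
    · intro h0; exact absurd (Finset.mem_univ i) h0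

/-- Extensions of degree two. -/
lemma quad_of_two (h2 : (2 : E) ≠ 0) (h : finrank E L = 2) : ∃ (e : E) (ε : L), Quad E L e ε := by
  obtain ⟨θ, hθ⟩ := exists_gen (by norm_num) h
  have : FiniteDimensional E L := FiniteDimensional.of_finrank_pos (by rw [h]; norm_num)
  -- every element is of the form `x + y θ`
  have hspan : ∀ z : L, ∃ x y : E, z = algebraMap E L x + algebraMap E L y * θ := by
    let f : (E × E) →ₗ[E] L :=
      { toFun := fun p => algebraMap E L p.1 + algebraMap E L p.2 * θ
        map_add' := by intro p q; simp only [Prod.fst_add, Prod.snd_add, map_add]; ring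
        map_smul' := by
          intro c p
          change algebraMap E L (c * p.1) + algebraMap E L (c * p.2) * θ
            = c • (algebraMap E L p.1 + algebraMap E L p.2 * θ)
          rw [Algebra.smul_def, map_mul, map_mul]
          ring }
    have hf : Function.Injective f := by
      rw [injective_iff_map_eq_zero]
      rintro ⟨x, y⟩ hxy
      have h1 : algebraMap E L x + algebraMap E L y * θ = 0 := hxy
      have hy : y = 0 := by
        by_contra hy
        apply hθ
        refine ⟨-x / y, ?_⟩
        have hy' : algebraMap E L y ≠ 0 := (_root_.map_ne_zero _).mpr hy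
        rw [map_div₀, map_neg, div_eq_iff hy']
        linear_combination -h1
      rw [hy, map_zero, zero_mul, add_zero] at h1
      rw [hy, (map_eq_zero _).mp h1]
      rfl
    have hs : Function.Surjective f :=
      (LinearMap.injective_iff_surjective_of_finrank_eq_finrank (by
        rw [h, Module.finrank_prod, Module.finrank_self])).1 hf
    intro z
    obtain ⟨⟨x, y⟩, rfl⟩ := hs z
    exact ⟨x, y, rfl⟩
  obtain ⟨b, a, hab⟩ := hspan (θ ^ 2)
  -- complete the square
  have h2L : (2 : L) ≠ 0 := by
    have := (_root_.map_ne_zero (algebraMap E L)).mpr h2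
    rwa [map_ofNat] at this
  set ε : L := 2 * θ - algebraMap E L a with hε
  have hε2 : ε ^ 2 = algebraMap E L (4 * b + a ^ 2) := by
    rw [hε, map_add, map_mul, map_pow, map_ofNat]
    linear_combination 4 * hab
  refine ⟨4 * b + a ^ 2, ε, hε2, ?_, ?_⟩
  · rintro ⟨r, hr⟩
    rw [hr, map_mul, pow_two] at hε2
    rcases mul_self_eq_mul_self_iff.mp hε2 with h3 | h3
    · apply hθ
      refine ⟨(r + a) / 2, ?_⟩
      rw [map_div₀, map_add, map_ofNat, div_eq_iff h2L]
      rw [hε] at h3
      linear_combination -h3
    · apply hθ
      refine ⟨(-r + a) / 2, ?_⟩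
      rw [map_div₀, map_add, map_neg, map_ofNat, div_eq_iff h2L]
      rw [hε] at h3
      linear_combination -h3
  · intro z
    obtain ⟨x, y, rfl⟩ := hspan z
    refine ⟨x + y * a / 2, y / 2, ?_⟩
    rw [map_add, map_div₀, map_div₀, map_mul, map_ofNat, hε]
    field_simp
    ring

/-- The kernel of a quadratic extension, with the exact number of summands. -/
lemma ker_exact (h2 : (2 : E) ≠ 0) {e : E} {ε : L} (h : Quad E L e ε) (x : W E)
    (hx : rs E L x = 0) : ∃ (k : ℕ) (c : Fin k → E), an x = 2 * k ∧ (∀ i, c i ≠ 0) ∧
      x = cl c * (1 - cz e) := by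
  induction hn : an x using Nat.strong_induction_on generalizing x with
  | _ n ih =>
    subst hn
    rcases Nat.eq_zero_or_pos (an x) with h0 | hpos
    · have hx0 : x = 0 := by
        have := an_spec x
        rw [h0] at this
        exact D_eq_zero this
      exact ⟨0, Fin.elim0, by rw [h0], fun i => i.elim0, by rw [hx0]; simp [cl]⟩
    · obtain ⟨w, hw, hcl, han⟩ := exists_aniso x
      have hI : Iso (fun i => algebraMap E L (w i)) := by
        apply iso_of_an (fun i => (_root_.map_ne_zero _).mpr (hw i))
        rw [← rs_cl, hcl, Fintype.card_fin, hx, an_zero]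
        exact hpos
      obtain ⟨u, v, huv, h3, h4⟩ := h.iso h2 w hI
      obtain ⟨m, hm, c, hc, hD⟩ := lemQ h2 w hw han u v huv h.dne h3 h4
      rw [hcl] at hD
      have h5 : an (cz c * (1 - cz e)) ≤ 2 :=
        an_le ((D_one.sub (D_cz h.dne)).smul hc)
      have h6 := an_add (x - cz c * (1 - cz e)) (cz c * (1 - cz e))
      rw [sub_add_cancel] at h6
      have h7 := an_le hD
      obtain ⟨k, c', hk, hc', hxc⟩ := ih _ (by omega) (x - cz c * (1 - cz e)) (by
        rw [map_sub, map_mul, h.rs_d, mul_zero, sub_zero, hx]) rfl
      refine ⟨k + 1, Fin.cons c c', by omega, ?_, ?_⟩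
      · intro i
        refine Fin.cases hc (fun j => hc' j) i
      · have : cl (Fin.cons c c' : Fin (k + 1) → E) = cz c + cl c' := by
          unfold cl
          rw [Fin.sum_univ_succ]
          rfl
        rw [this]
        linear_combination hxc

/-- A form of dimension `2 k`, `k` odd, of trivial signed discriminant, which is anisotropic, does
not become hyperbolic over an extension of degree at most three. -/
theorem small (h2 : (2 : E) ≠ 0) (hpos : 0 < finrank E L) (h3 : finrank E L ≤ 3) {k : ℕ}
    (hk : Odd k) (w : Fin (2 * k) → E) (hw : ∀ i, w i ≠ 0) (han : ¬ Iso w)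
    (hs : IsSquare ((-1) ^ k * ∏ i, w i)) (hcl : rs E L (cl w) = 0) : False := by
  have hkpos : 0 < k := hk.pos
  have hI : Iso (fun i => algebraMap E L (w i)) := by
    apply iso_of_an (fun i => (_root_.map_ne_zero _).mpr (hw i))
    rw [← rs_cl, hcl, an_zero, Fintype.card_fin]
    omega
  have hcases : finrank E L = 1 ∨ finrank E L = 2 ∨ finrank E L = 3 := by omega
  rcases hcases with h1 | h1 | h1
  · rw [Algebra.finrank_eq_one_iff_bijective_algebraMap] at h1
    obtain ⟨z, hz, hz2⟩ := hI
    choose x hx using fun i => h1.2 (z i)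
    apply han
    refine ⟨x, ?_, ?_⟩
    · intro h0
      apply hz
      ext i
      rw [← hx i, h0]; simp
    · apply h1.1
      rw [map_sum, map_zero, ← hz2]
      exact Finset.sum_congr rfl fun i _ => by rw [map_mul, map_pow, hx i]
  · obtain ⟨e, ε, h⟩ := quad_of_two h2 h1
    obtain ⟨k', c, hk', hc, hx⟩ := ker_exact h2 h (cl w) hcl
    have han' := an_of_aniso hw han
    rw [Fintype.card_fin, hk'] at han'
    have hkk : k' = k := by omega
    subst hkk
    have hu : cl (Sum.elim c (fun i => -(c i * e))) = cl w := by
      have h5 : cl (fun i => -(c i * e)) = -(cl c * cz e) := by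
        rw [cl_neg]
        congr 1
        have : (fun i => c i * e) = fun i => e * c i := by ext i; ring
        rw [this, cl_smul]; ring
      rw [cl_sum, h5, hx]
      ring
    have hd := disc_eq (k := k') (l := k') (w := Sum.elim c (fun i => -(c i * e))) (u := w)
      (by rw [Fintype.card_sum, Fintype.card_fin]; ring) (Fintype.card_fin _) (by
        rintro (i | i)
        · exact hc i
        · exact neg_ne_zero.mpr (mul_ne_zero (hc i) h.dne)) hw hu hs
    rw [Fintype.prod_sum_type] at hd
    simp only [Sum.elim_inl, Sum.elim_inr] at hd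
    have h6 : ∏ i, -(c i * e) = (-1) ^ k' * (∏ i, c i) * e ^ k' := by
      have : ∀ i, -(c i * e) = (-1) * c i * e := fun i => by ring
      simp only [this, Finset.prod_mul_distrib, Finset.prod_const, Finset.card_univ,
        Fintype.card_fin]
    have h7 : (-1 : E) ^ k' * ((∏ i, c i) * ∏ i, -(c i * e))
        = e ^ k' * ((∏ i, c i) * ∏ i, c i) := by
      rw [h6]
      have : ((-1 : E) ^ k') * (-1) ^ k' = 1 := by rw [← mul_pow]; simp
      linear_combination ((∏ i, c i) * (∏ i, c i) * e ^ k') * this
    rw [h7] at hd
    have hc0 : (∏ i, c i) ≠ 0 := Finset.prod_ne_zero_iff.mpr fun i _ => hc i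
    have h8 : IsSquare (e ^ k') := by
      have : e ^ k' = e ^ k' * ((∏ i, c i) * ∏ i, c i) / ((∏ i, c i) * ∏ i, c i) := by
        field_simp
      rw [this]
      exact hd.div ⟨_, rfl⟩
    obtain ⟨j, hj⟩ := hk
    apply h.nsq
    have h9 : e = e ^ k' / (e ^ j * e ^ j) := by
      rw [hj]
      have := pow_ne_zero j h.dne
      field_simp
      ring
    rw [h9]
    exact h8.div ⟨_, rfl⟩
  · exact no_cubic h1 w han hI

end small

end Pool.Agent.Run7.h314
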