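import Pool.Agent.Run7.h314.W8

/-!
# The torsion index and the basic property
-/

set_option autoImplicit false

noncomputable section

namespace Pool.Agent.Run7.h314

open Module

universe u v

/-- The torsion index of `F` is less than `N`: every nondegenerate form of even dimension becomes
hyperbolic over some extension of degree less than `N`. -/
def TauLt (F : Type u) [Field F] (N : ℕ) : Prop :=
  ∀ (m : ℕ) (w : Fin (2 * m) → F), (∀ i, w i ≠ 0) →
    ∃ (L : Type v) (_ : Field L) (_ : Algebra F L),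
      FiniteDimensional F L ∧ Module.finrank F L < N ∧
      ∃ W : Submodule L (Fin (2 * m) → L), Module.finrank L W = m ∧
        ∀ v ∈ W, ∑ i, algebraMap F L (w i) * v i ^ 2 = 0

variable {F : Type u} [Field F]

lemma TauLt.cl {N : ℕ} (hN : TauLt.{u, v} F N) (h2 : (2 : F) ≠ 0) {ι : Type*} [Fintype ι] {m : ℕ}
    (hc : Fintype.card ι = 2 * m) (w : ι → F) (hw : ∀ i, w i ≠ 0) :
    ∃ (L : Type v) (_ : Field L) (_ : Algebra F L),
      FiniteDimensional F L ∧ Module.finrank F L < N ∧ rs F L (h314.cl w) = 0 := by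
  have e := Fintype.equivFinOfCardEq hc
  obtain ⟨L, _, _, hfd, hlt, W, hW, hW2⟩ := hN m (fun i => w (e.symm i)) (fun i => hw _)
  refine ⟨L, inferInstance, inferInstance, hfd, hlt, ?_⟩
  have h2L : (2 : L) ≠ 0 := by
    have := (map_ne_zero (algebraMap F L)).mpr h2
    rwa [map_ofNat] at this
  rw [← cl_equiv e.symm w, rs_cl]
  apply cl_of_Met (fun i => (map_ne_zero _).mpr (hw _))
  refine ⟨W, by rw [Fintype.card_fin, hW], ?_⟩
  intro a ha b hb
  have h1 := hW2 (a + b) (add_mem ha hb)
  have h3 := hW2 a ha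
  have h4 := hW2 b hb
  have h5 : ∑ i, algebraMap F L (w (e.symm i)) * (a + b) i ^ 2
      = ∑ i, algebraMap F L (w (e.symm i)) * a i ^ 2 + ∑ i, algebraMap F L (w (e.symm i)) * b i ^ 2
        + 2 * ∑ i, algebraMap F L (w (e.symm i)) * a i * b i := by
    rw [Finset.mul_sum, ← Finset.sum_add_distrib, ← Finset.sum_add_distrib]
    exact Finset.sum_congr rfl fun i _ => by rw [Pi.add_apply]; ring
  rw [h5, h3, h4, zero_add, zero_add] at h1
  exact (mul_eq_zero.mp h1).resolve_left h2L

section sub

variable {L : Type v} [Field L] [Algebra F L]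

/-- The subfield generated by a square root. -/
def qsub (d : F) (δ : L) (hδ : δ ^ 2 = algebraMap F L d) (hd : ¬ IsSquare d) :
    IntermediateField F L where
  carrier := {z | ∃ x y : F, z = algebraMap F L x + algebraMap F L y * δ}
  mul_mem' := by
    rintro _ _ ⟨x, y, rfl⟩ ⟨x', y', rfl⟩
    refine ⟨x * x' + d * y * y', x * y' + x' * y, ?_⟩
    simp only [map_add, map_mul]
    rw [← hδ]; ring
  one_mem' := ⟨1, 0, by simp⟩
  add_mem' := by
    rintro _ _ ⟨x, y, rfl⟩ ⟨x', y', rfl⟩
    refine ⟨x + x', y + y', ?_⟩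
    simp only [map_add]
    ring
  zero_mem' := ⟨0, 0, by simp⟩
  algebraMap_mem' := fun x => ⟨x, 0, by simp⟩
  inv_mem' := by
    rintro _ ⟨x, y, rfl⟩
    have key : ∀ a b : F, a ^ 2 - d * b ^ 2 = 0 → a = 0 ∧ b = 0 := by
      intro a b hab
      have hb : b = 0 := by
        by_contra hb
        apply hd
        refine ⟨a / b, ?_⟩
        field_simp
        linear_combination -hab
      rw [hb] at hab
      exact ⟨by simpa using hab, hb⟩
    by_cases h0 : x ^ 2 - d * y ^ 2 = 0
    · obtain ⟨h1, h2⟩ := key x y h0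
      exact ⟨0, 0, by rw [h1, h2]; simp⟩
    · refine ⟨x / (x ^ 2 - d * y ^ 2), -y / (x ^ 2 - d * y ^ 2), ?_⟩
      have h1 : algebraMap F L (x ^ 2 - d * y ^ 2) ≠ 0 := (map_ne_zero _).mpr h0
      have h3 : (algebraMap F L x + algebraMap F L y * δ)
          * (algebraMap F L x - algebraMap F L y * δ) = algebraMap F L (x ^ 2 - d * y ^ 2) := by
        rw [map_sub, map_mul, map_pow, map_pow, ← hδ]; ring
      have h4 : algebraMap F L x + algebraMap F L y * δ ≠ 0 := by
        intro h5
        rw [h5, zero_mul] at h3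
        exact h1 h3.symm
      rw [map_div₀, map_div₀, map_neg]
      rw [inv_eq_iff_eq_inv, ← inv_eq_iff_eq_inv]
      rw [inv_eq_one_div, div_eq_iff h4]
      have h5 : algebraMap F L x / algebraMap F L (x ^ 2 - d * y ^ 2)
          + -algebraMap F L y / algebraMap F L (x ^ 2 - d * y ^ 2) * δ
          = (algebraMap F L x - algebraMap F L y * δ) / algebraMap F L (x ^ 2 - d * y ^ 2) := by
        ring
      rw [h5, div_mul_eq_mul_div, eq_div_iff h1]
      linear_combination -h3

lemma qsub_quad (d : F) (δ : L) (hδ : δ ^ 2 = algebraMap F L d) (hd : ¬ IsSquare d) :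
    Quad F (qsub d δ hδ hd) d ⟨δ, 0, 1, by simp⟩ := by
  refine ⟨?_, hd, ?_⟩
  · apply Subtype.ext
    exact hδ
  · rintro ⟨z, x, y, hz⟩
    exact ⟨x, y, Subtype.ext hz⟩

/-- The degree of a quadratic extension. -/
lemma Quad.finrank {E : Type v} [Field E] [Algebra F E] {d : F} {δ : E} (hq : Quad F E d δ) :
    Module.finrank F E = 2 := by
  let f : (F × F) →ₗ[F] E :=
    { toFun := fun p => algebraMap F E p.1 + algebraMap F E p.2 * δ
      map_add' := by intro p q; simp only [Prod.fst_add, Prod.snd_add, map_add]; ring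
      map_smul' := by
        intro c p
        change algebraMap F E (c * p.1) + algebraMap F E (c * p.2) * δ
          = c • (algebraMap F E p.1 + algebraMap F E p.2 * δ)
        rw [Algebra.smul_def, map_mul, map_mul]
        ring }
  have hf : Function.Bijective f := by
    constructor
    · rw [injective_iff_map_eq_zero]
      rintro ⟨x, y⟩ hxy
      obtain ⟨h1, h2⟩ := hq.eq_zero (x := x) (y := y) hxy
      rw [h1, h2]
      rfl
    · intro z
      obtain ⟨x, y, rfl⟩ := hq.span z
      exact ⟨(x, y), rfl⟩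
  have := LinearEquiv.finrank_eq (LinearEquiv.ofBijective f hf)
  rw [← this, Module.finrank_prod, Module.finrank_self]

end sub

lemma rs_trans {E : Type*} {L : Type*} [Field E] [Field L] [Algebra F E] [Algebra E L] [Algebra F L]
    [IsScalarTower F E L] (x : W F) : rs E L (rs F E x) = rs F L x := by
  induction x using W_induction with
  | h0 => simp
  | h1 a ha => rw [mp_cz, mp_cz, mp_cz, ← IsScalarTower.algebraMap_apply]
  | hadd x y hx hy => rw [map_add, map_add, map_add, hx, hy]

/-- The square root of the discriminant in a splitting field. -/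
lemma sqrt_disc {L : Type*} [Field L] [Algebra F L] {ι : Type*} [Fintype ι] {m : ℕ}
    (hc : Fintype.card ι = 2 * m) (w : ι → F) (hw : ∀ i, w i ≠ 0) (hcl : rs F L (cl w) = 0) :
    IsSquare (algebraMap F L ((-1) ^ m * ∏ i, w i)) := by
  rw [rs_cl] at hcl
  have h := disc_eq (k := m) (l := 0) (w := fun i => algebraMap F L (w i))
    (u := fun i : Empty => (i.elim : L)) hc (by simp) (fun i => (map_ne_zero _).mpr (hw i))
    (fun i => i.elim) (by rw [hcl]; simp [cl]) (by simp)
  rw [map_mul, map_pow, map_neg, map_one, map_prod]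
  exact h

/-- Fields of torsion index less than eight have the basic property. -/
theorem A1_of_tau (h2 : (2 : F) ≠ 0) (hN : TauLt.{u, v} F 8) : A1 F := by
  intro d hd k hk w hw hs
  by_contra hcon
  have hd0 : d ≠ 0 := by rintro rfl; exact hd ⟨0, by simp⟩
  -- the form `w ⊥ ⟨1, -d⟩`
  have hw' : ∀ i, Sum.elim w ![(1 : F), -d] i ≠ 0 := by
    rintro (i | i)
    · exact hw i
    · fin_cases i
      · exact one_ne_zero
      · exact neg_ne_zero.mpr hd0
  have hcard : Fintype.card (Fin (2 * k) ⊕ Fin 2) = 2 * (k + 1) := by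
    rw [Fintype.card_sum, Fintype.card_fin, Fintype.card_fin]; ring
  obtain ⟨L, _, _, hfd, hlt, hcl⟩ := hN.cl h2 hcard _ hw'
  have hsq := sqrt_disc hcard _ hw' hcl
  -- the square root of `d`
  have hδ : ∃ δ : L, δ ^ 2 = algebraMap F L d := by
    obtain ⟨s, hs⟩ := hs
    have hs0 : s ≠ 0 := by
      rintro rfl
      rw [mul_zero] at hs
      exact mul_ne_zero (pow_ne_zero _ (neg_ne_zero.mpr one_ne_zero))
        (Finset.prod_ne_zero_iff.mpr fun i _ => hw i) hs
    have h3 : (-1 : F) ^ (k + 1) * ∏ i, Sum.elim w ![(1 : F), -d] i = d * (s * s) := by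
      rw [Fintype.prod_sum_type, ← hs]
      simp only [Sum.elim_inl, Sum.elim_inr, Fin.prod_univ_two, Matrix.cons_val_zero,
        Matrix.cons_val_one]
      ring
    rw [h3] at hsq
    obtain ⟨r, hr⟩ := hsq
    refine ⟨r / algebraMap F L s, ?_⟩
    have hsL : algebraMap F L s ≠ 0 := (map_ne_zero _).mpr hs0
    rw [div_pow, div_eq_iff (pow_ne_zero _ hsL), pow_two, ← hr, map_mul, map_mul]
    ring
  obtain ⟨δ, hδ⟩ := hδ
  have hq := qsub_quad d δ hδ hd
  set E := qsub d δ hδ hd with hE
  have hfin : finrank F E = 2 := hq.finrank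
  have hmul := finrank_mul_finrank F E L
  rw [hfin] at hmul
  have hfdE : FiniteDimensional E L := FiniteDimensional.right F E L
  have hpos : 0 < finrank E L := Module.finrank_pos
  have h2E : (2 : E) ≠ 0 := by
    have := (map_ne_zero (algebraMap F E)).mpr h2
    rwa [map_ofNat] at this
  have han : ¬ Iso (fun i => algebraMap F E (w i)) := by
    intro hI
    exact hcon (hq.iso h2 w hI)
  refine small h2E hpos (by omega) hk (fun i => algebraMap F E (w i))
    (fun i => (map_ne_zero _).mpr (hw i)) han ?_ ?_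
  · obtain ⟨s, hs⟩ := hs
    refine ⟨algebraMap F E s, ?_⟩
    rw [← map_mul, ← hs, map_mul, map_pow, map_neg, map_one, map_prod]
  · rw [← rs_cl, rs_trans]
    have h5 : cl (Sum.elim w ![(1 : F), -d]) = cl w + (1 - cz d) := by
      rw [cl_sum]
      congr 1
      simp only [cl, Fin.sum_univ_two, Matrix.cons_val_zero, Matrix.cons_val_one]
      rw [cz_neg, map_one]; ring
    rw [h5, map_add, ← rs_trans (E := E) (L := L) (1 - cz d), hq.rs_d, map_zero, add_zero] at hcl
    exact hcl

end Pool.Agent.Run7.h314
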