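import Pool.Agent.TH132.W.Cz
import Pool.Agent.H109R2.Disc

/-!
# The Witt ring by generators and relations and metabolic diagonal forms

The class of a diagonal form in the Witt ring (Witt's presentation) vanishes if and only if the form
is metabolic.
-/

set_option autoImplicit false

noncomputable section

namespace Pool.Agent.Run7.h314

open Module Pool.Agent.H109R2.Witt Pool.Agent.TH132.W

universe u

variable {K : Type u} [Field K]

/-- the values -/
def vs (s : Multiset Kˣ) : Multiset K := s.map (fun a : Kˣ => (a : K))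

/-- the negatives of the values -/
def ng (s : Multiset Kˣ) : Multiset K := s.map (fun a : Kˣ => -(a : K))

lemma vs_add (s t : Multiset Kˣ) : vs (s + t) = vs s + vs t := Multiset.map_add _ _ _

lemma ng_add (s t : Multiset Kˣ) : ng (s + t) = ng s + ng t := Multiset.map_add _ _ _

lemma vs_ne (s : Multiset Kˣ) : (0 : K) ∉ vs s := by
  intro h
  obtain ⟨a, -, ha⟩ := Multiset.mem_map.mp h
  exact a.ne_zero ha

lemma ng_ne (s : Multiset Kˣ) : (0 : K) ∉ ng s := by
  intro h
  obtain ⟨a, -, ha⟩ := Multiset.mem_map.mp h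
  exact a.ne_zero (neg_eq_zero.mp ha)

lemma add_ne {s t : Multiset K} (hs : (0 : K) ∉ s) (ht : (0 : K) ∉ t) : (0 : K) ∉ s + t := by
  rw [Multiset.mem_add, not_or]
  exact ⟨hs, ht⟩

lemma vs_map_neg (s : Multiset Kˣ) : (vs s).map (fun a => -a) = ng s := by
  unfold vs ng
  rw [Multiset.map_map]; rfl

lemma ng_map_neg (s : Multiset Kˣ) : (ng s).map (fun a => -a) = vs s := by
  unfold vs ng
  rw [Multiset.map_map]
  apply Multiset.map_congr rfl
  intro a _
  simp

lemma Met_neg {ι : Type*} [Fintype ι] {w : ι → K} (h : Met w) : Met (fun i => -w i) := by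
  obtain ⟨L, hL, hL2⟩ := h
  refine ⟨L, hL, fun u hu v hv => ?_⟩
  have := hL2 u hu v hv
  have h2 : ∑ i, -w i * u i * v i = -∑ i, w i * u i * v i := by
    rw [← Finset.sum_neg_distrib]
    exact Finset.sum_congr rfl fun i _ => by ring
  rw [h2, this, neg_zero]

lemma MM_neg {s : Multiset K} (h : MM s) : MM (s.map (fun a => -a)) := by
  obtain ⟨n, w, rfl⟩ := exists_family s
  rw [Multiset.map_map]
  exact MM_of_Met (Met_neg (Met_of_MM h))

variable (K) in
/-- Witt equivalence -/
def wcon : AddCon (Multiset Kˣ) where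
  r s t := MM (vs s + ng t)
  iseqv := by
    constructor
    · intro s
      have := MM_self_neg (vs s)
      rwa [vs_map_neg] at this
    · intro s t h
      have := MM_neg h
      rwa [Multiset.map_add, vs_map_neg, ng_map_neg, add_comm] at this
    · intro s t r h1 h2
      have h3 := h1.add h2
      have h4 : vs s + ng t + (vs t + ng r) = (vs s + ng r) + (vs t + ng t) := by abel
      rw [h4] at h3
      refine h3.cancel (add_ne (vs_ne s) (ng_ne r)) (add_ne (vs_ne t) (ng_ne t)) ?_
      have := MM_self_neg (vs t)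
      rwa [vs_map_neg] at this
  add' := by
    intro s t s' t' h1 h2
    have h3 := h1.add h2
    change MM (vs (s + s') + ng (t + t'))
    rw [vs_add, ng_add]
    have h4 : vs s + vs s' + (ng t + ng t') = vs s + ng t + (vs s' + ng t') := by abel
    rw [h4]
    exact h3

variable (K) in
/-- the Witt group, as the group of classes of diagonal forms modulo metabolic forms -/
def WQ : Type u := (wcon K).Quotient

instance : AddCommMonoid (WQ K) := inferInstanceAs (AddCommMonoid (wcon K).Quotient)

/-- the class of a multiset -/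
def mk : Multiset Kˣ →+ WQ K := (wcon K).mk'

lemma mk_eq {s t : Multiset Kˣ} : mk s = mk t ↔ MM (vs s + ng t) := AddCon.eq (wcon K)

lemma mk_surj : Function.Surjective (mk (K := K)) := AddCon.mk'_surjective

lemma exists_neg (x : WQ K) : ∃ y : WQ K, y + x = 0 := by
  obtain ⟨s, rfl⟩ := mk_surj x
  refine ⟨mk (s.map (fun a => -a)), ?_⟩
  rw [← map_add, ← map_zero mk, mk_eq, vs_add]
  have h1 : vs (s.map (fun a => -a)) = ng s := by
    unfold vs ng
    rw [Multiset.map_map]
    apply Multiset.map_congr rfl
    intro a _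
    simp
  have h2 : ng (K := K) 0 = 0 := rfl
  rw [h1, h2, add_zero, add_comm]
  have := MM_self_neg (vs s)
  rwa [vs_map_neg] at this

instance : Neg (WQ K) := ⟨fun x => (exists_neg x).choose⟩

instance : AddCommGroup (WQ K) :=
  { (inferInstance : AddCommMonoid (WQ K)) with
    zsmul := zsmulRec
    neg_add_cancel := fun x => (exists_neg x).choose_spec }

open Classical in
/-- the class of the one dimensional form `⟨a⟩` -/
def c (a : K) : WQ K := if h : a = 0 then 0 else mk {Units.mk0 a h}

lemma c_zero : c (0 : K) = 0 := by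
  unfold c
  rw [dif_pos rfl]

lemma c_unit (a : Kˣ) : c (a : K) = mk {a} := by
  unfold c
  rw [dif_neg a.ne_zero]
  congr 2
  ext; rfl

lemma mk_eq_sum (s : Multiset Kˣ) : mk s = ((vs s).map c).sum := by
  induction s using Multiset.induction with
  | empty => simp [vs]
  | cons a s ih =>
    have h1 : vs (a ::ₘ s) = (a : K) ::ₘ vs s := by unfold vs; rw [Multiset.map_cons]
    rw [h1, Multiset.map_cons, Multiset.sum_cons, ← ih, c_unit, ← map_add]
    rfl

lemma exists_vs {s : Multiset K} (hs : (0 : K) ∉ s) : ∃ t, vs t = s := by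
  induction s using Multiset.induction with
  | empty => exact ⟨0, rfl⟩
  | cons a s ih =>
    rw [Multiset.mem_cons, not_or] at hs
    obtain ⟨t, ht⟩ := ih hs.2
    refine ⟨Units.mk0 a (Ne.symm hs.1) ::ₘ t, ?_⟩
    unfold vs at ht ⊢
    rw [Multiset.map_cons, ht]
    rfl

theorem sum_eq_zero_iff {s : Multiset K} (hs : (0 : K) ∉ s) : (s.map c).sum = 0 ↔ MM s := by
  obtain ⟨t, rfl⟩ := exists_vs hs
  rw [← mk_eq_sum, ← map_zero mk, mk_eq]
  have h2 : ng (K := K) 0 = 0 := rfl
  rw [h2, add_zero]

lemma c_add_neg (a : K) : c a + c (-a) = 0 := by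
  by_cases h : a = 0
  · rw [h, neg_zero, c_zero, add_zero]
  · have h1 := MM_self_neg ({a} : Multiset K)
    rw [← sum_eq_zero_iff (by
      simp only [Multiset.map_singleton]
      exact add_ne (by simpa using Ne.symm h) (by simpa using h))] at h1
    simpa using h1

lemma c_neg (a : K) : c (-a) = -c a := by
  rw [eq_neg_iff_add_eq_zero, add_comm]; exact c_add_neg a

lemma c_sq (a b : K) (hb : b ≠ 0) : c (a * b ^ 2) = c a := by
  by_cases h : a = 0
  · rw [h, zero_mul]
  · have h1 := MM_scale a b
    have h2 : a * b ^ 2 ≠ 0 := mul_ne_zero h (pow_ne_zero _ hb)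
    rw [← sum_eq_zero_iff (by
      exact add_ne (by simpa using Ne.symm h) (by simpa using ⟨h, hb⟩))] at h1
    have h3 : c a + c (-(a * b ^ 2)) = 0 := by simpa using h1
    rw [c_neg, ← sub_eq_add_neg, sub_eq_zero] at h3
    exact h3.symm

lemma c_pair (a b : K) : c a + c b = c (a + b) + c (a * b * (a + b)) := by
  by_cases hab : a + b = 0
  · have : b = -a := by linear_combination hab
    rw [hab, mul_zero, c_zero, add_zero, this, c_add_neg]
  by_cases ha : a = 0
  · rw [ha]; simp [c_zero]
  by_cases hb : b = 0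
  · rw [hb]; simp [c_zero]
  have h1 := MM_pair a b
  have h2 : a * b * (a + b) ≠ 0 := mul_ne_zero (mul_ne_zero ha hb) hab
  rw [← sum_eq_zero_iff (by
    refine add_ne ?_ ?_
    · simp only [Multiset.insert_eq_cons, Multiset.mem_cons, Multiset.mem_singleton, not_or]
      exact ⟨Ne.symm ha, Ne.symm hb⟩
    · simp only [Multiset.insert_eq_cons, Multiset.mem_cons, Multiset.mem_singleton, not_or]
      exact ⟨Ne.symm (neg_ne_zero.mpr hab), Ne.symm (neg_ne_zero.mpr h2)⟩)] at h1
  have h3 : c a + c b + (c (-(a + b)) + c (-(a * b * (a + b)))) = 0 := by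
    rw [← h1]
    simp only [Multiset.insert_eq_cons, Multiset.map_add, Multiset.map_cons,
      Multiset.map_singleton, Multiset.sum_add, Multiset.sum_cons, Multiset.sum_singleton]
  rw [c_neg, c_neg] at h3
  have h4 : c a + c b - (c (a + b) + c (a * b * (a + b))) = 0 := by
    rw [← h3]; abel
  exact sub_eq_zero.mp h4

/-- The comparison map from the Witt ring in Witt's presentation. -/
def cmp : WittRing K →+ WQ K :=
  liftAdd c (fun a b _ hb => c_sq a b hb) (fun a _ => c_add_neg a)
    (fun a b _ _ _ => c_pair a b)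

lemma cmp_cz (a : K) : cmp (cz a) = c a := by
  by_cases ha : a = 0
  · rw [ha, map_zero, map_zero, c_zero]
  · exact liftAdd_cz _ _ _ _ ha

/-- A diagonal form whose class in the Witt ring is zero is metabolic. -/
theorem MM_of_sum {s : Multiset K} (hs : (0 : K) ∉ s) (h : (s.map cz).sum = 0) : MM s := by
  rw [← sum_eq_zero_iff hs]
  have h1 := congrArg cmp h
  rw [map_zero, map_multiset_sum, Multiset.map_map] at h1
  rw [← h1]
  congr 1
  exact Multiset.map_congr rfl fun a _ => (cmp_cz a).symm

end Pool.Agent.Run7.h314
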